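import Pool.Agent.Lib.MP_72e2e6_nt.W2.A.Spec

/-!
# MP_72e2e6_nt, theorem T3, part A: the number of the crossed homomorphisms (`S_Cos`)
-/

set_option autoImplicit false

namespace Pool.Agent.MP72W

open Finset

private theorem Cos_two_pow (n : ℕ) : (2 : ZMod (2 ^ n)) ^ n = 0 := by
  have h := ZMod.natCast_self (2 ^ n)
  push_cast at h
  exact h

private theorem Cos_two_pow_ne (K : ℕ) : (2 : ZMod (2 ^ (K + 1))) ^ K ≠ 0 := by
  intro h
  have h1 : ((2 ^ K : ℕ) : ZMod (2 ^ (K + 1))) = 0 := by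
    push_cast
    exact h
  rw [ZMod.natCast_eq_zero_iff] at h1
  have h2 := Nat.le_of_dvd (by positivity) h1
  have h3 : 2 ^ K < 2 ^ (K + 1) := Nat.pow_lt_pow_right (by norm_num) (by omega)
  omega

private theorem Cos_parity (n : ℕ) (x : ZMod (2 ^ n)) : ∃ b, x = 2 * b ∨ x = 2 * b + 1 := by
  obtain ⟨m, hm⟩ := ZMod.natCast_zmod_surjective x
  rcases Nat.even_or_odd' m with ⟨k, h | h⟩
  · exact ⟨(k : ZMod (2 ^ n)), Or.inl (by rw [← hm, h]; push_cast; ring)⟩
  · exact ⟨(k : ZMod (2 ^ n)), Or.inr (by rw [← hm, h]; push_cast; ring)⟩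

private theorem Cos_unit {K : ℕ} {x y : ZMod (2 ^ (K + 1))} (h : x * y = 1) :
    2 ^ K * (1 - x) = 0 := by
  have h0 : (2 : ZMod (2 ^ (K + 1))) ^ K * 2 = 0 :=
    (pow_succ (2 : ZMod (2 ^ (K + 1))) K).symm.trans (Cos_two_pow (K + 1))
  obtain ⟨b, hb | hb⟩ := Cos_parity (K + 1) x
  · exfalso
    apply Cos_two_pow_ne K
    have h1 : (2 : ZMod (2 ^ (K + 1))) ^ K * (x * y) = 0 := by
      rw [hb]
      linear_combination (b * y) * h0
    rw [h, mul_one] at h1
    exact h1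
  · rw [hb]
    linear_combination (-b) * h0

theorem tCos : S_Lin → S_Cos := by
  intro hLin G _ _ _ ι _ W φ hU hH K χ hχ
  classical
  obtain ⟨h1, h2, -⟩ := hLin G ι W φ hU hH (K + 1) χ hχ
  set 𝓢 : Set (G → ZMod (2 ^ (K + 1))) :=
    {Z : G → ZMod (2 ^ (K + 1)) | Coc (fun g x => χ g * x) Z ∧ ∀ w, ∃ a : ZMod (2 ^ (K + 1)),
      (∀ g ∈ W w, Z g = a * (1 - χ g)) ∧ Z (φ w) = a * (1 - χ (φ w))} with h𝓢
  set Sol : Set (Option ι → ZMod (2 ^ (K + 1))) :=
    {a : Option ι → ZMod (2 ^ (K + 1)) | ∀ v, Tv W φ χ a v = 0} with hSol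
  have hz : ∀ g, 2 ^ K * (1 - χ g) = 0 := by
    intro g
    have h3 : χ g * χ g⁻¹ = 1 := by rw [← hχ.mul, mul_inv_cancel, hχ.one]
    exact Cos_unit h3
  have hch : ∀ Z : 𝓢, ∃ a : Option ι → ZMod (2 ^ (K + 1)), ∀ w,
      (∀ g ∈ W w, Z.1 g = a w * (1 - χ g)) ∧ Z.1 (φ w) = a w * (1 - χ (φ w)) := fun Z =>
    Classical.skolem.1 Z.2.2
  choose aZ haZ using hch
  let F0 : 𝓢 × (Option ι → Bool) → (Option ι → ZMod (2 ^ (K + 1))) := fun p w =>
    aZ p.1 w + 2 ^ K * (if p.2 w then 1 else 0)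
  have hF1 : ∀ (p : 𝓢 × (Option ι → Bool)) w g, F0 p w * (1 - χ g) = aZ p.1 w * (1 - χ g) := by
    intro p w g
    have h4 := hz g
    show (aZ p.1 w + 2 ^ K * (if p.2 w then 1 else 0)) * (1 - χ g) = _
    linear_combination (if p.2 w then 1 else 0) * h4
  have hIs : ∀ p : 𝓢 × (Option ι → Bool), IsZ W φ χ (F0 p) p.1.1 := by
    intro p
    refine ⟨p.1.2.1, fun w g hg => ?_, ?_⟩
    · rw [hF1]
      exact (haZ p.1 w).1 g hg
    · rw [hF1]
      exact (haZ p.1 none).2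
  have hZf : ∀ p : 𝓢 × (Option ι → Bool), p.1.1 = Zf W φ χ (F0 p) := fun p => h2 _ _ (hIs p)
  have hSolF : ∀ p : 𝓢 × (Option ι → Bool), F0 p ∈ Sol := by
    intro p v
    unfold Tv
    rw [← hZf p, hF1, (haZ p.1 (some v)).2, sub_self]
  let F : 𝓢 × (Option ι → Bool) → Sol := fun p => ⟨F0 p, hSolF p⟩
  have hFi : Function.Injective F := by
    intro p p' hpp
    have e0 : F0 p = F0 p' := congrArg Subtype.val hpp
    have e1 : p.1 = p'.1 := by
      apply Subtype.ext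
      rw [hZf p, hZf p', e0]
    refine Prod.ext e1 (funext fun w => ?_)
    have e2 := congrFun e0 w
    have e3 : aZ p.1 w + 2 ^ K * (if p.2 w then 1 else 0) =
        aZ p'.1 w + 2 ^ K * (if p'.2 w then (1 : ZMod (2 ^ (K + 1))) else 0) := e2
    rw [e1] at e3
    have e4 := add_left_cancel e3
    by_contra hne
    have h5 := Cos_two_pow_ne K
    rcases hb : p.2 w with _ | _ <;> rcases hb' : p'.2 w with _ | _
    · exact hne (by rw [hb, hb'])
    · rw [hb, hb'] at e4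
      simp only [Bool.false_eq_true, if_false, if_true, mul_zero, mul_one] at e4
      exact h5 e4.symm
    · rw [hb, hb'] at e4
      simp only [Bool.false_eq_true, if_false, if_true, mul_zero, mul_one] at e4
      exact h5 e4
    · exact hne (by rw [hb, hb'])
  have hfin : Finite 𝓢 := Finite.of_injective (fun Z : 𝓢 => F (Z, fun _ => false)) (by
    intro Z Z' h
    exact congrArg Prod.fst (hFi h))
  refine ⟨Set.toFinite 𝓢, ?_⟩
  have h6 := Nat.card_le_card_of_injective F hFi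
  rw [Nat.card_prod, Nat.card_coe_set_eq, Nat.card_coe_set_eq] at h6
  have h7 : Nat.card (Option ι → Bool) = 2 ^ (Fintype.card ι + 1) := by
    rw [Nat.card_eq_fintype_card, Fintype.card_fun, Fintype.card_bool, Fintype.card_option]
  rw [h7] at h6
  exact h6

end Pool.Agent.MP72W
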