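import Pool.Agent.Lib.MP_72e2e6_nt.W2.A.Spec

/-!
# MP_72e2e6_nt, theorem T3, part A: the derivative formula
-/

namespace Pool.Agent.MP72W

open Finset

private theorem derZ (c : ZMod 2) : c = 0 ∨ c = 1 := by
  revert c
  decide

private theorem derSg_zero (n : ℕ) : sg n 0 = 1 := if_pos rfl

private theorem derSg_one (n : ℕ) : sg n 1 = -1 := if_neg (by decide)

private theorem derSg_add (n : ℕ) (c d : ZMod 2) : sg n (c + d) = sg n c * sg n d := by
  rcases derZ c with rfl | rfl <;> rcases derZ d with rfl | rfl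
  · rw [add_zero, derSg_zero, mul_one]
  · rw [zero_add, derSg_zero, one_mul]
  · rw [add_zero, derSg_zero, mul_one]
  · rw [show (1 : ZMod 2) + 1 = 0 by decide, derSg_zero, derSg_one, neg_mul_neg, mul_one]

private theorem derSg_sum (n : ℕ) {α : Type} (s : Finset α) (f : α → ZMod 2) :
    sg n (∑ j ∈ s, f j) = ∏ j ∈ s, sg n (f j) := by
  classical
  induction s using Finset.induction_on with
  | empty => rw [Finset.sum_empty, Finset.prod_empty, derSg_zero]
  | insert a s ha ih => rw [Finset.sum_insert ha, Finset.prod_insert ha, derSg_add, ih]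

private theorem derCube {R : Type} [CommRing R] {k : ℕ} (F : Fin k → ZMod 2 → R) :
    ∑ ω : Fin k → ZMod 2, ∏ j, F j (ω j) = ∏ j, (F j 0 + F j 1) := by
  have h : ∀ j, F j 0 + F j 1 = ∑ c : ZMod 2, F j c := fun j => (Fin.sum_univ_two (F j)).symm
  simp only [h]
  rw [Finset.prod_univ_sum, Fintype.piFinset_univ]

/-- the sum over the cube of the signs -/
private theorem derCube2 (n : ℕ) {k : ℕ} (τ : Fin k → ZMod 2) :
    ∑ ω : Fin k → ZMod 2, (∏ j, sg n (ω j)) * sg n (∑ j, ω j * τ j) =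
      ∏ j, (1 - sg n (τ j)) := by
  have h : ∀ ω : Fin k → ZMod 2, (∏ j, sg n (ω j)) * sg n (∑ j, ω j * τ j) =
      ∏ j, (sg n (ω j) * sg n (ω j * τ j)) := by
    intro ω
    rw [derSg_sum, Finset.prod_mul_distrib]
  simp only [h]
  rw [derCube fun j c => sg n c * sg n (c * τ j)]
  refine Finset.prod_congr rfl fun j _ => ?_
  rw [zero_mul, derSg_zero, one_mul, one_mul, derSg_one]
  ring

private theorem derUnit {G : Type} [Group G] [TopologicalSpace G] {n : ℕ} {ψ : G → ZMod (2 ^ n)}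
    (h : Chr ψ) (g : G) : IsUnit (ψ g) := by
  refine IsUnit.of_mul_eq_one (ψ g⁻¹) ?_
  rw [← h.mul, mul_inv_cancel, h.one]

private theorem derPow {n : ℕ} (x : ZMod (2 ^ n)) (hx : IsUnit x) : x ^ 2 ^ n = 1 := by
  obtain ⟨u, rfl⟩ := hx
  have h := ZMod.pow_totient u
  have h2 : Nat.totient (2 ^ n) ∣ 2 ^ n := by
    rcases Nat.eq_zero_or_pos n with rfl | hn
    · simp
    · rw [Nat.totient_prime_pow Nat.prime_two hn]
      simp only [Nat.add_one_sub_one, mul_one]
      exact pow_dvd_pow 2 (by omega)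
  obtain ⟨q, hq⟩ := h2
  have e : u ^ (Nat.totient (2 ^ n) * q) = 1 := by rw [pow_mul, h, one_pow]
  have e2 : u ^ 2 ^ n = 1 := (congrArg (fun k : ℕ => u ^ k) hq).trans e
  rw [← Units.val_pow_eq_pow_val, e2, Units.val_one]

private theorem derChr_pow {G : Type} [Group G] [TopologicalSpace G] {n : ℕ} {ψ : G → ZMod (2 ^ n)}
    (h : Chr ψ) (g : G) (k : ℕ) : ψ (g ^ k) = ψ g ^ k := by
  induction k with
  | zero => rw [pow_zero, pow_zero, h.one]
  | succ k ih => rw [pow_succ, pow_succ, h.mul, ih]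

private theorem derHom_one {G : Type} [Group G] [TopologicalSpace G] {h : G → ZMod 2}
    (hh : Hom2 h) : h 1 = 0 := by
  have := hh.add 1 1
  rw [mul_one] at this
  exact left_eq_add.1 this

private theorem derHom_pow {G : Type} [Group G] [TopologicalSpace G] {h : G → ZMod 2}
    (hh : Hom2 h) (g : G) (k : ℕ) : h (g ^ k) = k * h g := by
  induction k with
  | zero => rw [pow_zero, Nat.cast_zero, zero_mul, derHom_one hh]
  | succ k ih => 
    rw [pow_succ, hh.add, ih]
    push_cast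
    ring

private theorem derHom_pow2 {G : Type} [Group G] [TopologicalSpace G] {h : G → ZMod 2}
    (hh : Hom2 h) (g : G) (k : ℕ) : h (g ^ 2 ^ (k + 1)) = 0 := by
  rw [derHom_pow hh]
  have : ((2 ^ (k + 1) : ℕ) : ZMod 2) = 0 := by
    rw [pow_succ, Nat.cast_mul]
    rw [show ((2 : ℕ) : ZMod 2) = 0 from rfl, mul_zero]
  rw [this, zero_mul]

private theorem derLc2 {A B C D : Type} [TopologicalSpace A] {f : A → B} {g : A → C}
    (hf : IsLocallyConstant f) (hg : IsLocallyConstant g) (F : B → C → D) :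
    IsLocallyConstant fun a => F (f a) (g a) := hf.comp₂ hg F

private theorem derLcPi {G J B : Type} [TopologicalSpace G] [Finite J] {f : G → J → B}
    (h : ∀ x, IsLocallyConstant fun g => f g x) : IsLocallyConstant f := by
  rw [IsLocallyConstant.iff_eventually_eq]
  intro g
  have h1 : ∀ x, ∀ᶠ g' in nhds g, f g' x = f g x := fun x =>
    (IsLocallyConstant.iff_eventually_eq _).1 (h x) g
  have h2 := Filter.eventually_all.2 h1
  filter_upwards [h2] with g' hg'
  funext x
  exact hg' x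

private theorem uniLcC {G B : Type} [Group G] [TopologicalSpace G] {H : Subgroup G} {f : G → B}
    (h : IsLocallyConstant f) : IsLocallyConstant fun g : H => f g :=
  h.comp_continuous (continuous_subtype_val (p := fun g => g ∈ H))

/-- `tw` is a character. -/
private theorem derTw {G : Type} [Group G] [TopologicalSpace G] {n : ℕ} {ψ : G → ZMod (2 ^ n)}
    (hψ : Chr ψ) {h : G → ZMod 2} (hh : Hom2 h) : Chr (tw ψ h) := by
  refine ⟨derLc2 hψ.loc hh.loc fun x y => x * sg n y, ?_, fun a b => ?_⟩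
  · unfold tw
    rw [hψ.one, derHom_one hh, derSg_zero, mul_one]
  · unfold tw
    rw [hψ.mul, hh.add, derSg_add]
    ring

private theorem derLin {G : Type} [Group G] [TopologicalSpace G] {k : ℕ}
    {δ : Fin k → G → ZMod 2} (hδ : ∀ j, Hom2 (δ j)) (ω : Fin k → ZMod 2) :
    Hom2 (fun g => ∑ j, ω j * δ j g) := by
  refine ⟨?_, fun a b => ?_⟩
  · exact (derLcPi (f := fun g j => δ j g) fun j => (hδ j).loc).comp fun τ => ∑ j, ω j * τ j
  · simp only [(hδ _).add, mul_add, Finset.sum_add_distrib]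

section op

variable {G : Type} [Group G] [TopologicalSpace G] {k n : ℕ}

/-- The operators. -/
private def derRho (ψ : G → ZMod (2 ^ n)) (δ : Fin k → G → ZMod 2) (g : G)
    (f : (Fin k → ZMod 2) → ZMod (2 ^ n)) : (Fin k → ZMod 2) → ZMod (2 ^ n) :=
  fun τ => ψ g * f (τ + fun j => δ j g)

private theorem derAct {ψ : G → ZMod (2 ^ n)} (hψ : Chr ψ) {δ : Fin k → G → ZMod 2}
    (hδ : ∀ j, Hom2 (δ j)) : Act2 (derRho ψ δ) := by
  refine ⟨fun g x y => ?_, fun x => ?_, fun g h x => ?_, fun x => ?_, fun g => ⟨n + 1, fun x => ?_⟩⟩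
  · funext τ
    simp only [derRho, Pi.add_apply]
    ring
  · funext τ
    have : (fun j => δ j 1) = 0 := funext fun j => derHom_one (hδ j)
    simp only [derRho, this, hψ.one, one_mul, add_zero]
  · funext τ
    have : (fun j => δ j (g * h)) = (fun j => δ j g) + fun j => δ j h :=
      funext fun j => (hδ j).add g h
    simp only [derRho, this, hψ.mul, mul_assoc, add_assoc]
  · exact derLc2 hψ.loc (derLcPi (f := fun g j => δ j g) fun j => (hδ j).loc)
      fun a d => fun τ => a * x (τ + d)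
  · funext τ
    have : (fun j => δ j (g ^ 2 ^ (n + 1))) = 0 := funext fun j => derHom_pow2 (hδ j) g n
    simp only [derRho, this, add_zero]
    rw [derChr_pow hψ, pow_succ 2 n, pow_mul, derPow _ (derUnit hψ g), one_pow, one_mul]

private theorem derCoc {M : Type} [AddCommGroup M] {ρ : G → M → M} (hρ : Act2 ρ) (v : M)
    (H : Subgroup G) : Coc (fun g : H => ρ g) (fun g : H => v - ρ g v) := by
  refine ⟨?_, fun g h => ?_⟩
  · exact ((hρ.loc v).comp_continuous (continuous_subtype_val (p := fun g => g ∈ H))).comp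
      fun x => v - x
  · have h1 : ρ g (v - ρ h v) = ρ g v - ρ g (ρ h v) := by
      have := hρ.add g (v - ρ h v) (ρ h v)
      rw [sub_add_cancel] at this
      rw [this, add_sub_cancel_right]
    change v - ρ ((g : G) * h) v = v - ρ g v + ρ g (v - ρ h v)
    rw [h1, hρ.mul]
    abel

end op

private theorem derAdd2 {k : ℕ} (x : Fin k → ZMod 2) : x + x = 0 := by
  funext j
  exact CharTwo.add_self_eq_zero (x j)

/-- The function supported at `0`. -/
private def derDl {k n : ℕ} (c : ZMod (2 ^ n)) : (Fin k → ZMod 2) → ZMod (2 ^ n) :=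
  fun τ => if τ = 0 then c else 0

/-- the Fourier transform of `v - ρ g v`, `v` supported at `0` -/
private theorem derFou {G : Type} [Group G] [TopologicalSpace G] {k n : ℕ}
    (ψ : G → ZMod (2 ^ n)) (δ : Fin k → G → ZMod 2) (c : ZMod (2 ^ n)) (ω : Fin k → ZMod 2)
    (g : G) :
    ∑ τ : Fin k → ZMod 2, sg n (∑ j, ω j * τ j) * (derDl c τ - derRho ψ δ g (derDl c) τ) =
      c * (1 - tw ψ (fun g => ∑ j, ω j * δ j g) g) := by
  have e1 : ∀ τ : Fin k → ZMod 2, (τ + (fun j => δ j g) = 0) ↔ τ = fun j => δ j g := by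
    intro τ
    constructor
    · intro h
      have h2 := congrArg (fun x => x + fun j => δ j g) h
      simp only [add_assoc, derAdd2, add_zero, zero_add] at h2
      exact h2
    · rintro rfl
      exact derAdd2 _
  have e2 : ∀ τ : Fin k → ZMod 2, sg n (∑ j, ω j * τ j) *
      (derDl c τ - derRho ψ δ g (derDl c) τ) =
      (if τ = 0 then sg n (∑ j, ω j * τ j) * c else 0) -
      (if τ = (fun j => δ j g) then sg n (∑ j, ω j * τ j) * (ψ g * c) else 0) := by
    intro τ
    simp only [derRho, derDl, e1, mul_sub, mul_ite, mul_zero]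
  rw [Finset.sum_congr rfl fun τ _ => e2 τ, Finset.sum_sub_distrib, Finset.sum_ite_eq',
    Finset.sum_ite_eq', if_pos (Finset.mem_univ _), if_pos (Finset.mem_univ _)]
  simp only [Pi.zero_apply, mul_zero, Finset.sum_const_zero, derSg_zero, tw]
  ring

private theorem derShift {G : Type} [Group G] [TopologicalSpace G] {k n : ℕ}
    (ψ : G → ZMod (2 ^ n)) (δ : Fin k → G → ZMod 2) (f : (Fin k → ZMod 2) → ZMod (2 ^ n))
    (ω : Fin k → ZMod 2) (g : G) :
    ∑ τ : Fin k → ZMod 2, sg n (∑ j, ω j * τ j) * derRho ψ δ g f τ =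
      tw ψ (fun g => ∑ j, ω j * δ j g) g * ∑ τ : Fin k → ZMod 2, sg n (∑ j, ω j * τ j) * f τ := by
  rw [← Equiv.sum_comp (Equiv.addRight fun j => δ j g)
    fun τ : Fin k → ZMod 2 => sg n (∑ j, ω j * τ j) * f τ, Finset.mul_sum]
  refine Finset.sum_congr rfl fun τ _ => ?_
  simp only [Equiv.coe_addRight, Pi.add_apply, mul_add, Finset.sum_add_distrib, derSg_add, tw,
    derRho]
  have e : sg n (∑ j, ω j * δ j g) * sg n (∑ j, ω j * δ j g) = 1 := by
    rw [← derSg_add, CharTwo.add_self_eq_zero, derSg_zero]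
  linear_combination (-(ψ g * sg n (∑ j, ω j * τ j) * f (τ + fun j => δ j g))) * e

private theorem derEx (hUni : S_Uni) (hLin : S_Lin) {G : Type} [Group G] [TopologicalSpace G]
    [IsTopologicalGroup G] {ι : Type} {W : Option ι → Subgroup G} {φ : Option ι → G}
    (hU : UEx W (φ none)) (hH : H2Z G) {n k : ℕ} {ψ : G → ZMod (2 ^ n)} (hψ : Chr ψ)
    {δ : Fin k → G → ZMod 2} (hδ : ∀ j, Hom2 (δ j)) (a : Option ι → ZMod (2 ^ n)) :
    ∃ Z : G → (Fin k → ZMod 2) → ZMod (2 ^ n), Coc (derRho ψ δ) Z ∧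
      (∀ w, ∀ g ∈ W w, Z g = derDl (a w) - derRho ψ δ g (derDl (a w))) ∧
      Z (φ none) = derDl (a none) - derRho ψ δ (φ none) (derDl (a none)) ∧
      ∀ (ω : Fin k → ZMod 2) v, Tv W φ (tw ψ fun g => ∑ j, ω j * δ j g) a v =
        (∑ τ : Fin k → ZMod 2, sg n (∑ j, ω j * τ j) * Z (φ (some v)) τ) -
        a (some v) * (1 - tw ψ (fun g => ∑ j, ω j * δ j g) (φ (some v))) := by
  have hA := derAct hψ hδ
  have hcard : Nat.card ((Fin k → ZMod 2) → ZMod (2 ^ n)) = 2 ^ (n * 2 ^ k) := by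
    rw [Nat.card_fun, Nat.card_zmod, Nat.card_fun, Nat.card_zmod, Nat.card_fin, pow_mul]
  obtain ⟨Z, ⟨hZ, hZW, hZφ⟩, -⟩ := hUni G (Option ι) W (φ none) hU hH
    ((Fin k → ZMod 2) → ZMod (2 ^ n)) _ hcard (derRho ψ δ) hA
    (fun w g => derDl (a w) - derRho ψ δ g (derDl (a w)))
    (fun w => derCoc hA _ (W w)) (derDl (a none) - derRho ψ δ (φ none) (derDl (a none)))
  have hZω : ∀ ω : Fin k → ZMod 2,
      (fun g => ∑ τ : Fin k → ZMod 2, sg n (∑ j, ω j * τ j) * Z g τ) =
      Zf W φ (tw ψ fun g => ∑ j, ω j * δ j g) a := by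
    intro ω
    apply (hLin G ι W φ hU hH n _ (derTw hψ (derLin hδ ω))).2.1
    refine ⟨⟨hZ.loc.comp fun f => ∑ τ : Fin k → ZMod 2, sg n (∑ j, ω j * τ j) * f τ,
      fun g h => ?_⟩, fun w g hg => ?_, ?_⟩
    · simp only [hZ.mul, Pi.add_apply, mul_add, Finset.sum_add_distrib, derShift]
    · have e := hZW w ⟨g, hg⟩
      simp only at e
      simp only [e, Pi.sub_apply, derFou]
    · simp only [hZφ, Pi.sub_apply, derFou]
  refine ⟨Z, hZ, fun w g hg => hZW w ⟨g, hg⟩, hZφ, fun ω v => ?_⟩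
  rw [Tv, ← hZω]

private theorem derEven {n : ℕ} (x : ZMod (2 ^ (n + 1)))
    (h : ZMod.castHom (dvd_pow_self 2 (Nat.succ_ne_zero n)) (ZMod 2) x = 0) : ∃ y, x = 2 * y := by
  obtain ⟨k, rfl⟩ := ZMod.natCast_zmod_surjective x
  rw [map_natCast, ZMod.natCast_eq_zero_iff] at h
  obtain ⟨l, rfl⟩ := h
  exact ⟨l, by push_cast; rfl⟩

private theorem derUnit2 {G : Type} [Group G] [TopologicalSpace G] {n : ℕ}
    {ψ : G → ZMod (2 ^ (n + 1))} (h : Chr ψ) (g : G) :
    ZMod.castHom (dvd_pow_self 2 (Nat.succ_ne_zero n)) (ZMod 2) (ψ g) = 1 := by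
  have h1 := (derUnit h g).map (ZMod.castHom (dvd_pow_self 2 (Nat.succ_ne_zero n)) (ZMod 2))
  rcases derZ (ZMod.castHom (dvd_pow_self 2 (Nat.succ_ne_zero n)) (ZMod 2) (ψ g)) with h2 | h2
  · rw [h2] at h1
    exact absurd h1 not_isUnit_zero
  · exact h2

/-- the sum over the cube -/
private theorem derSum {n k : ℕ} (f : (Fin (k + 2) → ZMod 2) → ZMod (2 ^ n)) (c q : ZMod (2 ^ n))
    (d : Fin (k + 2) → ZMod 2) (hd : ∃ j, d j = 0) :
    ∑ ω : Fin (k + 2) → ZMod 2, (∏ j, sg n (ω j)) *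
      ((∑ τ : Fin (k + 2) → ZMod 2, sg n (∑ j, ω j * τ j) * f τ) -
        c * (1 - q * sg n (∑ j, ω j * d j))) = 2 ^ (k + 2) * f 1 := by
  have e0 : ∀ ω : Fin (k + 2) → ZMod 2, (∏ j, sg n (ω j)) *
      ((∑ τ : Fin (k + 2) → ZMod 2, sg n (∑ j, ω j * τ j) * f τ) -
        c * (1 - q * sg n (∑ j, ω j * d j))) =
      (∑ τ : Fin (k + 2) → ZMod 2, (∏ j, sg n (ω j)) * sg n (∑ j, ω j * τ j) * f τ) -
      c * ((∏ j, sg n (ω j)) * sg n (∑ j, ω j * (0 : Fin (k + 2) → ZMod 2) j)) +
      c * q * ((∏ j, sg n (ω j)) * sg n (∑ j, ω j * d j)) := by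
    intro ω
    simp only [Pi.zero_apply, mul_zero, Finset.sum_const_zero, derSg_zero, mul_sub,
      Finset.mul_sum, mul_assoc]
    ring
  rw [Finset.sum_congr rfl fun ω _ => e0 ω, Finset.sum_add_distrib, Finset.sum_sub_distrib,
    ← Finset.mul_sum, ← Finset.mul_sum, derCube2, derCube2, Finset.sum_comm]
  have e1 : ∏ j : Fin (k + 2), (1 - sg n ((0 : Fin (k + 2) → ZMod 2) j)) = 0 := by
    apply Finset.prod_eq_zero (Finset.mem_univ (0 : Fin (k + 2)))
    rw [Pi.zero_apply, derSg_zero, sub_self]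
  have e2 : ∏ j : Fin (k + 2), (1 - sg n (d j)) = 0 := by
    obtain ⟨j, hj⟩ := hd
    apply Finset.prod_eq_zero (Finset.mem_univ j)
    rw [hj, derSg_zero, sub_self]
  rw [e1, e2, mul_zero, mul_zero, sub_zero, add_zero]
  have e3 : ∀ τ : Fin (k + 2) → ZMod 2,
      ∑ ω : Fin (k + 2) → ZMod 2, (∏ j, sg n (ω j)) * sg n (∑ j, ω j * τ j) * f τ =
      if τ = 1 then 2 ^ (k + 2) * f τ else 0 := by
    intro τ
    rw [← Finset.sum_mul, derCube2]
    split_ifs with h
    · congr 1
      rw [Finset.prod_congr rfl (g := fun _ => (2 : ZMod (2 ^ n))), Finset.prod_const,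
        Finset.card_univ, Fintype.card_fin]
      intro j _
      rw [h, Pi.one_apply, derSg_one]
      ring
    · obtain ⟨j, hj⟩ : ∃ j, τ j ≠ 1 := by
        by_contra hcon
        push Not at hcon
        exact h (funext hcon)
      rw [Finset.prod_eq_zero (Finset.mem_univ j), zero_mul]
      rw [(derZ (τ j)).resolve_right hj, derSg_zero, sub_self]
  rw [Finset.sum_congr rfl fun τ _ => e3 τ, Finset.sum_ite_eq', if_pos (Finset.mem_univ _)]

/-- the action modulo two -/
private theorem derAct2 {G : Type} [Group G] [TopologicalSpace G] {k : ℕ}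
    {δ : Fin k → G → ZMod 2} (hδ : ∀ j, Hom2 (δ j)) :
    Act2 (fun (g : G) (f : (Fin k → ZMod 2) → ZMod 2) τ => f (τ + fun j => δ j g)) := by
  refine ⟨fun g x y => rfl, fun x => ?_, fun g h x => ?_, fun x => ?_, fun g => ⟨1, fun x => ?_⟩⟩
  · funext τ
    have : (fun j => δ j 1) = 0 := funext fun j => derHom_one (hδ j)
    simp only [this, add_zero]
  · funext τ
    have : (fun j => δ j (g * h)) = (fun j => δ j g) + fun j => δ j h :=
      funext fun j => (hδ j).add g h
    simp only [this, add_assoc]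
  · exact (derLcPi (f := fun g j => δ j g) fun j => (hδ j).loc).comp
      fun d => fun τ => x (τ + d)
  · funext τ
    have : (fun j => δ j (g ^ 2 ^ 1)) = 0 := funext fun j => derHom_pow2 (hδ j) g 0
    simp only [this, add_zero]

theorem tDer : S_Uni → S_Lin → S_Der := by
  intro hUni hLin G _ _ _ ι _ W φ hU hH m hm ψ hψ δ hδ w₁ h0 h0φ hs hsφ a ha0 ha1 ζ hζl hζ hζW hζ1
    hζφ v
  obtain ⟨m, rfl⟩ : ∃ m', m = m' + 1 := ⟨m - 1, by omega⟩
  obtain ⟨Z, hZ, hZW, hZφ, hT⟩ := derEx hUni hLin hU hH hψ hδ a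
  simp only [hT]
  have e1 : ∑ ω : Fin (m + 1 + 1) → ZMod 2, (∏ j, sg (m + 1 + 2) (ω j)) *
      ((∑ τ : Fin (m + 1 + 1) → ZMod 2, sg (m + 1 + 2) (∑ j, ω j * τ j) * Z (φ (some v)) τ) -
        a (some v) * (1 - tw ψ (fun g => ∑ j, ω j * δ j g) (φ (some v)))) =
      2 ^ (m + 1 + 1) * Z (φ (some v)) 1 :=
    derSum (Z (φ (some v))) (a (some v)) (ψ (φ (some v))) (fun j => δ j (φ (some v)))
      ⟨Fin.succ 0, hsφ 0 (some v)⟩
  rw [e1]
  -- (d)
  set κ := ZMod.castHom (dvd_pow_self 2 (Nat.succ_ne_zero (m + 1 + 1))) (ZMod 2) with hκ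
  have hψκ : ∀ g, κ (ψ g) = 1 := fun g => derUnit2 hψ g
  have hcard : Nat.card ((Fin (m + 1 + 1) → ZMod 2) → ZMod 2) = 2 ^ 2 ^ (m + 1 + 1) := by
    rw [Nat.card_fun, Nat.card_zmod, Nat.card_fun, Nat.card_zmod, Nat.card_fin]
  have hY : Coc (fun (g : G) (f : (Fin (m + 1 + 1) → ZMod 2) → ZMod 2) τ => f (τ + fun j => δ j g))
      (fun g (τ : Fin (m + 1 + 1) → ZMod 2) => ζ g (fun j => τ j.succ)) := by
    refine ⟨hζl.comp fun z (τ : Fin (m + 1 + 1) → ZMod 2) => z (fun j => τ j.succ),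
      fun g h => ?_⟩
    funext τ
    simp only [Pi.add_apply, hζ]
  obtain ⟨Y, -, hYu⟩ := hUni G (Option ι) W (φ none) hU hH
    ((Fin (m + 1 + 1) → ZMod 2) → ZMod 2) _ hcard _ (derAct2 hδ)
    (fun w g (τ : Fin (m + 1 + 1) → ZMod 2) => ζ g (fun j => τ j.succ))
    (fun w => ⟨uniLcC hY.loc, fun g h => hY.mul g h⟩) 0
  have hκ2 : ∀ b, κ (2 * b) = 0 := by
    intro b
    rw [map_mul, map_ofNat]
    exact (congrArg (fun x => x * κ b) (show (OfNat.ofNat 2 : ZMod 2) = 0 from rfl)).trans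
      (zero_mul _)
  have hK : ∀ (c : ZMod (2 ^ (m + 1 + 2))) (g : G) (τ : Fin (m + 1 + 1) → ZMod 2),
      κ (derDl c τ - derRho ψ δ g (derDl c) τ) =
        (if τ = 0 then κ c else 0) - (if τ + (fun j => δ j g) = 0 then κ c else 0) := by
    intro c g τ
    simp only [derDl, derRho, map_sub, map_mul, hψκ, one_mul, apply_ite κ, map_zero]
  have hq1 : (fun g τ => κ (Z g τ)) = Y := by
    apply hYu
    refine ⟨⟨hZ.loc.comp fun f τ => κ (f τ), fun g h => ?_⟩, fun w g => ?_, ?_⟩
    · funext τ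
      simp only [hZ.mul, Pi.add_apply, derRho, map_add, map_mul, hψκ, one_mul]
    · funext τ
      rw [hZW w g g.2, Pi.sub_apply, hK]
      rcases w with _ | w
      · obtain ⟨b, hb⟩ := ha0
        rw [hb, hκ2, ite_self, ite_self, sub_zero, hζW none (by simp) g g.2]
      by_cases hw : w = w₁
      · subst hw
        obtain ⟨b, hb⟩ := ha1
        rw [hb, map_add, hκ2, zero_add, map_one, hζ1 g g.2]
        have e2 : τ = 0 ↔ τ 0 = 0 ∧ (fun j : Fin (m + 1) => τ j.succ) = 0 := by
          constructor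
          · rintro rfl
            exact ⟨rfl, rfl⟩
          · rintro ⟨h3, h4⟩
            funext j
            refine Fin.cases h3 (fun j => congrFun h4 j) j
        have e3 : τ + (fun j => δ j (g : G)) = 0 ↔
            τ 0 + δ 0 (g : G) = 0 ∧ (fun j : Fin (m + 1) => τ j.succ) = 0 := by
          constructor
          · intro h3
            refine ⟨congrFun h3 0, ?_⟩
            funext j
            have h4 := congrFun h3 j.succ
            rw [Pi.add_apply, hs j (some w) (by simp) g g.2, add_zero] at h4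
            exact h4
          · rintro ⟨h3, h4⟩
            funext j
            refine Fin.cases h3 (fun j => ?_) j
            rw [Pi.add_apply, hs j (some w) (by simp) g g.2, add_zero]
            exact congrFun h4 j
        simp only [e2, e3]
        by_cases ht : (fun j : Fin (m + 1) => τ j.succ) = 0
        · simp only [ht, and_true, if_true]
          generalize τ 0 = x
          generalize δ 0 (g : G) = y
          revert x y
          decide
        · simp only [ht, and_false, if_false, sub_zero]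
      · have e2 : (fun j => δ j (g : G)) = 0 := by
          funext j
          refine Fin.cases (h0 (some w) (by simpa using hw) g g.2) (fun j => ?_) j
          exact hs j (some w) (by simp) g g.2
        rw [e2, add_zero, sub_self, hζW (some w) (by simpa using hw) g g.2]
    · funext τ
      change κ (Z (φ none) τ) = 0
      rw [hZφ, Pi.sub_apply, hK]
      obtain ⟨b, hb⟩ := ha0
      rw [hb, hκ2, ite_self, ite_self, sub_zero]
  have hq2 : (fun g (τ : Fin (m + 1 + 1) → ZMod 2) => ζ g (fun j => τ j.succ)) = Y := by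
    apply hYu
    refine ⟨hY, fun w g => rfl, ?_⟩
    funext τ
    exact hζφ _
  have hq : κ (Z (φ (some v)) 1) = ζ (φ (some v)) (fun _ => 1) :=
    congrFun (congrFun (hq1.trans hq2.symm) (φ (some v))) 1
  have h2 : (2 : ZMod (2 ^ (m + 1 + 2))) ^ (m + 1 + 1) * 2 = 0 := by
    rw [← pow_succ]
    exact_mod_cast ZMod.natCast_self (2 ^ (m + 1 + 2))
  split_ifs with h
  · rw [h] at hq
    obtain ⟨y, hy⟩ := derEven _ hq
    rw [hy, ← mul_assoc, h2, zero_mul]
  · rw [(derZ _).resolve_left h] at hq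
    have h3 : κ (Z (φ (some v)) 1 - 1) = 0 := by
      rw [map_sub, hq, map_one, sub_self]
    obtain ⟨y, hy⟩ := derEven _ h3
    rw [sub_eq_iff_eq_add.1 hy, mul_add, ← mul_assoc, h2, zero_mul, zero_add, mul_one]

end Pool.Agent.MP72W
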