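import Pool.Agent.Lib.MP_72e2e6_nt.W2.A.Spec

/-!
# MP_72e2e6_nt, theorem T3, part A: the dual count modulo `2 ^ K` (helper25, task 12540)
-/

namespace Pool.Agent.MP72W

open Finset

private theorem DuK_ker (K : ℕ) (x b : ZMod (2 ^ (K + 1)))
    (hx : ZMod.castHom (pow_dvd_pow 2 (Nat.le_succ K)) (ZMod (2 ^ K)) x = 0) :
    x * (2 * b) = 0 := by
  have h1 : ((x.val : ℕ) : ZMod (2 ^ K)) = 0 := by
    rw [← ZMod.natCast_zmod_val x, map_natCast] at hx
    exact hx
  rw [ZMod.natCast_eq_zero_iff] at h1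
  obtain ⟨c, hc⟩ := h1
  have h2 : x = ((2 ^ K * c : ℕ) : ZMod (2 ^ (K + 1))) := by
    rw [← hc, ZMod.natCast_zmod_val]
  have h3 : ((2 ^ (K + 1) : ℕ) : ZMod (2 ^ (K + 1))) = 0 := ZMod.natCast_self _
  rw [h2]
  push_cast at h3 ⊢
  linear_combination (c : ZMod (2 ^ (K + 1))) * b * h3

private theorem DuK_fib {A B : Type} [AddCommGroup A] [AddCommGroup B] [Fintype A] [Fintype B]
    (f : A →+ B) (hf : Function.Surjective f) (S : Set B) :
    (f ⁻¹' S).ncard * Fintype.card B = S.ncard * Fintype.card A := by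
  classical
  have hc : ∀ b : B, #{a | f a = b} = #{a | f a = 0} := fun b =>
    AddMonoidHom.card_fiber_eq_of_mem_range f (hf b) ⟨0, map_zero f⟩
  have h1 : ∀ T : Finset B, #(univ.filter fun a => f a ∈ T) = #T * #{a | f a = 0} := by
    intro T
    rw [card_eq_sum_card_fiberwise (f := f) (t := T) (fun a ha => by simpa using ha),
      sum_const_nat (m := #{a | f a = 0})]
    intro b hb
    rw [← hc b, filter_filter]
    congr 1
    ext a
    simp only [mem_filter, mem_univ, true_and]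
    constructor
    · exact fun h => h.2
    · exact fun h => ⟨h ▸ hb, h⟩
  have h2 := h1 univ
  have h3 := h1 S.toFinset
  simp only [mem_univ, filter_true, card_univ] at h2
  have h4 : (f ⁻¹' S).ncard = #(univ.filter fun a => f a ∈ S.toFinset) := by
    rw [Set.ncard_eq_toFinset_card']
    congr 1
    ext a
    simp
  rw [h4, h3, h2, Set.ncard_eq_toFinset_card']
  ring

theorem tDuK : S_Lin → S_Dual → S_DuK := by
  intro hL hD G _ _ _ ι _ W φ hU hH K χ hχ
  classical
  obtain ⟨-, -, hadd, -, -, -, heven, -⟩ := hL G ι W φ hU hH (K + 1) χ hχ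
  let T : (Option ι → ZMod (2 ^ (K + 1))) →+ (ι → ZMod (2 ^ (K + 1))) :=
    AddMonoidHom.mk' (fun a v => Tv W φ χ a v) fun a b => by
      funext v
      exact hadd a b v
  have hT : ∀ a v, T a v = Tv W φ χ a v := fun _ _ => rfl
  let r : (ι → ZMod (2 ^ (K + 1))) →+ (ι → ZMod (2 ^ K)) :=
    { toFun := fun θ v => ZMod.castHom (pow_dvd_pow 2 (Nat.le_succ K)) (ZMod (2 ^ K)) (θ v)
      map_zero' := by
        funext v
        exact map_zero _
      map_add' := fun a b => by
        funext v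
        exact map_add _ _ _ }
  have hr : Function.Surjective r := by
    intro θ
    choose g hg using fun v => ZMod.castHom_surjective (pow_dvd_pow 2 (Nat.le_succ K)) (θ v)
    exact ⟨g, funext hg⟩
  have h1 := hD (2 ^ (K + 1)) ι (Option ι → ZMod (2 ^ (K + 1))) T
  have hX : {a : Option ι → ZMod (2 ^ (K + 1)) | T a = 0}.ncard = XX W φ χ := by
    unfold XX
    congr 1
    ext a
    exact funext_iff
  rw [hX] at h1
  set Q : Set (ι → ZMod (2 ^ K)) := {θ : ι → ZMod (2 ^ K) | ∀ θ' : ι → ZMod (2 ^ (K + 1)),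
          (∀ v, ZMod.castHom (pow_dvd_pow 2 (Nat.le_succ K)) (ZMod (2 ^ K)) (θ' v) = θ v) →
          ∀ a, ∑ v, θ' v * Tv W φ χ a v = 0} with hQ
  have h2 : {θ : ι → ZMod (2 ^ (K + 1)) | ∀ a, ∑ v, θ v * T a v = 0} = r ⁻¹' Q := by
    ext θ
    constructor
    · intro h θ' hθ' a
      rw [← h a, ← sub_eq_zero, ← sum_sub_distrib]
      refine sum_eq_zero fun v _ => ?_
      obtain ⟨b, hb⟩ := heven a v
      rw [hT, ← sub_mul, hb]
      refine DuK_ker K _ b ?_
      rw [map_sub, hθ' v]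
      exact sub_self _
    · intro h a
      exact h θ (fun v => rfl) a
  rw [h2] at h1
  have h3 := DuK_fib r hr Q
  simp only [Fintype.card_pi, ZMod.card, prod_const, card_univ, Fintype.card_option] at h1 h3
  have e1 : (2 ^ (K + 1)) ^ Fintype.card ι = (2 ^ K) ^ Fintype.card ι * 2 ^ Fintype.card ι := by
    rw [← mul_pow, pow_succ]
  rw [e1, ← mul_assoc, mul_right_comm] at h3
  have h4 := Nat.eq_of_mul_eq_mul_right (by positivity) h3
  have h5 : (r ⁻¹' Q).ncard * 2 ^ (K + 1) * (2 ^ (K + 1)) ^ Fintype.card ι =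
      XX W φ χ * (2 ^ (K + 1)) ^ Fintype.card ι := by
    rw [mul_comm (XX W φ χ), ← h1]
    ring
  have h6 := Nat.eq_of_mul_eq_mul_right (by positivity) h5
  rw [← h6, h4]
  ring

end Pool.Agent.MP72W
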