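import Pool.Agent.Lib.MP_72e2e6_nt.W2.A.Spec

/-!
# MP_72e2e6_nt, theorem T3, part A: duality count
-/

set_option autoImplicit false

namespace Pool.Agent.MP72W

open Finset

private theorem Dual_one {m : ℕ} [NeZero m] {x : ZMod m} (h : ZMod.stdAddChar x = 1) : x = 0 :=
  ZMod.injective_stdAddChar (h.trans (AddChar.map_zero_eq_one _).symm)

private theorem Dual_sum {m : ℕ} [NeZero m] {β : Type} [AddCommGroup β] [Fintype β]
    (g : β →+ ZMod m) [Decidable (∀ a, g a = 0)] :
    ∑ a, ZMod.stdAddChar (g a) = if ∀ a, g a = 0 then (Fintype.card β : ℂ) else 0 := by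
  classical
  have h1 := AddChar.sum_eq_ite ((ZMod.stdAddChar (N := m)).compAddMonoidHom g)
  have h2 : ((ZMod.stdAddChar (N := m)).compAddMonoidHom g = 0) ↔ ∀ a, g a = 0 := by
    constructor
    · intro h a
      apply Dual_one
      have h3 := DFunLike.congr_fun h a
      simpa using h3
    · intro h
      ext a
      simp [h a]
  simp only [AddChar.compAddMonoidHom_apply] at h1
  rw [h1]
  by_cases h3 : ∀ a, g a = 0
  · rw [if_pos h3, if_pos (h2.2 h3)]
  · rw [if_neg h3, if_neg (fun h => h3 (h2.1 h))]

theorem tDual : S_Dual := by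
  classical
  intro m _ ι _ α _ _ T
  have hA : ∑ θ : ι → ZMod m, ∑ a : α, ZMod.stdAddChar (∑ v, θ v * T a v)
      = ({θ : ι → ZMod m | ∀ a, ∑ v, θ v * T a v = 0}.ncard : ℂ) * Fintype.card α := by
    have h1 : ∀ θ : ι → ZMod m, ∑ a : α, ZMod.stdAddChar (∑ v, θ v * T a v)
        = if ∀ a, ∑ v, θ v * T a v = 0 then (Fintype.card α : ℂ) else 0 := by
      intro θ
      let g : α →+ ZMod m :=
        { toFun := fun a => ∑ v, θ v * T a v
          map_zero' := by simp
          map_add' := fun a b => by
            simp only [map_add, Pi.add_apply, mul_add, Finset.sum_add_distrib] }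
      exact Dual_sum g
    rw [Finset.sum_congr rfl fun θ _ => h1 θ, ← Finset.sum_filter, Finset.sum_const, nsmul_eq_mul]
    congr 2
    rw [Set.ncard_eq_toFinset_card', Set.toFinset_setOf]
  have hB : ∑ a : α, ∑ θ : ι → ZMod m, ZMod.stdAddChar (∑ v, θ v * T a v)
      = (m : ℂ) ^ Fintype.card ι * ({a : α | T a = 0}.ncard : ℂ) := by
    have h1 : ∀ a : α, ∑ θ : ι → ZMod m, ZMod.stdAddChar (∑ v, θ v * T a v)
        = if T a = 0 then (m : ℂ) ^ Fintype.card ι else 0 := by
      intro a
      let g : (ι → ZMod m) →+ ZMod m :=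
        { toFun := fun θ => ∑ v, θ v * T a v
          map_zero' := by simp
          map_add' := fun a b => by
            simp only [Pi.add_apply, add_mul, Finset.sum_add_distrib] }
      have h2 := Dual_sum g
      have h3 : (∀ θ, g θ = 0) ↔ T a = 0 := by
        constructor
        · intro h
          funext v
          have h4 : ∑ u, (Pi.single v (1 : ZMod m) : ι → ZMod m) u * T a u = 0 :=
            h (Pi.single v 1)
          rw [Finset.sum_eq_single v] at h4
          · simpa using h4
          · intro u _ hu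
            rw [Pi.single_eq_of_ne hu, zero_mul]
          · intro h5
            exact absurd (Finset.mem_univ v) h5
        · intro h θ
          show ∑ v, θ v * T a v = 0
          rw [h]
          simp
      have h4 : (Fintype.card (ι → ZMod m) : ℂ) = (m : ℂ) ^ Fintype.card ι := by
        rw [Fintype.card_pi, Finset.prod_const, ZMod.card, Finset.card_univ]
        push_cast
        rfl
      show ∑ θ : ι → ZMod m, ZMod.stdAddChar (g θ) = _
      rw [h2, h4]
      by_cases h5 : T a = 0
      · rw [if_pos h5, if_pos (h3.2 h5)]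
      · rw [if_neg h5, if_neg (fun h => h5 (h3.1 h))]
    rw [Finset.sum_congr rfl fun a _ => h1 a, ← Finset.sum_filter, Finset.sum_const, nsmul_eq_mul,
      mul_comm]
    congr 2
    rw [Set.ncard_eq_toFinset_card', Set.toFinset_setOf]
  have hC := Finset.sum_comm (s := (Finset.univ : Finset (ι → ZMod m)))
    (t := (Finset.univ : Finset α)) (f := fun θ a => (ZMod.stdAddChar (∑ v, θ v * T a v) : ℂ))
  have hD : (({θ : ι → ZMod m | ∀ a, ∑ v, θ v * T a v = 0}.ncard * Fintype.card α : ℕ) : ℂ)
      = ((m ^ Fintype.card ι * {a : α | T a = 0}.ncard : ℕ) : ℂ) := by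
    push_cast
    rw [← hA, ← hB]
    exact hC
  exact_mod_cast hD

end Pool.Agent.MP72W
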