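import Pool.Agent.Lib.MP_72e2e6_nt.W2.A.Spec

/-!
# MP_72e2e6_nt, theorem T3, part A: equidistribution modulo four (`S_EqA`)
-/

set_option autoImplicit false

namespace Pool.Agent.MP72W

open Finset

private theorem EqA_z2 : ∀ x : ZMod 2, x = 0 ∨ x = 1 := by decide

private theorem EqA_sg (n : ℕ) (x y : ZMod 2) : sg n (x + y) = sg n x * sg n y := by
  unfold sg
  rcases EqA_z2 x with rfl | rfl <;> rcases EqA_z2 y with rfl | rfl
  · simp
  · simp
  · simp
  · have : (1 : ZMod 2) + 1 = 0 := by decide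
    rw [this]
    simp

private theorem EqA_hom_one {G : Type*} [Group G] [TopologicalSpace G] {h : G → ZMod 2}
    (hh : Hom2 h) : h 1 = 0 := by
  have h1 := hh.add 1 1
  rw [mul_one] at h1
  exact left_eq_add.1 h1

private theorem EqA_tw {G : Type*} [Group G] [TopologicalSpace G] {n : ℕ} {ψ : G → ZMod (2 ^ n)}
    (hψ : Chr ψ) {h : G → ZMod 2} (hh : Hom2 h) : Chr (tw ψ h) := by
  refine ⟨?_, ?_, fun a b => ?_⟩
  · exact hψ.loc.mul (hh.loc.comp (sg n))
  · unfold tw
    rw [hψ.one, EqA_hom_one hh]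
    simp [sg]
  · unfold tw
    rw [hψ.mul, hh.add, EqA_sg]
    ring

private theorem EqA_four : (4 : ZMod (2 ^ 2)) = 0 := by decide

private theorem EqA_unit {x y : ZMod (2 ^ 2)} (h : x * y = 1) : 2 * x = 2 := by
  have h1 : ∀ x y : ZMod (2 ^ 2), x * y = 1 → 2 * x = 2 := by decide
  exact h1 x y h

private theorem EqA_odd : ∀ x b y c : ZMod (2 ^ 2), x = 2 * b + 1 → y = 2 * c + 1 →
    x * (y * 2) = 2 := by
  intro x b y c hx hy
  rw [hx, hy]
  linear_combination (2 * b * c + b + c) * EqA_four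

private theorem EqA_par : ∀ x : ZMod (2 ^ 2), ∃ b, x = 2 * b ∨ x = 2 * b + 1 := by decide

private theorem EqA_e2 : ZMod.stdAddChar (2 : ZMod (2 ^ 2)) = -1 := by
  have h1 : ZMod.stdAddChar (2 : ZMod (2 ^ 2)) * ZMod.stdAddChar (2 : ZMod (2 ^ 2)) = 1 := by
    rw [← AddChar.map_add_eq_mul]
    have : (2 : ZMod (2 ^ 2)) + 2 = 0 := by decide
    rw [this, AddChar.map_zero_eq_one]
  rcases mul_self_eq_one_iff.1 h1 with h | h
  · exfalso
    have h2 : ZMod.stdAddChar (2 : ZMod (2 ^ 2)) = ZMod.stdAddChar (0 : ZMod (2 ^ 2)) := by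
      rw [h, AddChar.map_zero_eq_one]
    exact absurd (ZMod.injective_stdAddChar h2) (by decide)
  · exact h

/-- the change of `Tv` -/
private theorem EqA_claim (hLin : S_Lin) {G : Type} [Group G] [TopologicalSpace G]
    [IsTopologicalGroup G] {ι : Type} [Fintype ι] [DecidableEq ι] {X : Type} [AddCommGroup X]
    {A : Fam G ι X} (hA : A.Good) {ψ : G → ZMod (2 ^ 2)} (hψ : Chr ψ)
    (a : Option ι → ZMod (2 ^ 2)) (w : Option ι) (e' : ℕ) (δ : X) (hδ : δ ∈ A.𝔇 w e') (D : X)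
    (v : ι) :
    Tv A.W A.φ (tw ψ (A.h (D + δ))) a v = Tv A.W A.φ (tw ψ (A.h D)) a v +
      (a w - a (some v)) * (if A.h δ (A.φ (some v)) = 0 then 0 else 2) := by
  set χ : G → ZMod (2 ^ 2) := tw ψ (A.h D) with hχdef
  have hχ : Chr χ := EqA_tw hψ (hA.hom D)
  have hχ' : Chr (tw ψ (A.h (D + δ))) := EqA_tw hψ (hA.hom (D + δ))
  obtain ⟨h1, h2, -⟩ := hLin G ι A.W A.φ hA.uex hA.h2 2 χ hχ
  obtain ⟨-, h2', -⟩ := hLin G ι A.W A.φ hA.uex hA.h2 2 _ hχ'
  let p : G → ZMod (2 ^ 2) := fun g => if A.h δ g = 0 then 0 else 2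
  have hu : ∀ g, 2 * χ g = 2 := fun g => EqA_unit (y := χ g⁻¹) (by
    rw [← hχ.mul, mul_inv_cancel, hχ.one])
  have hp2 : ∀ g, 2 * p g = 0 := by
    intro g
    simp only [p]
    split_ifs
    · rw [mul_zero]
    · decide
  have hpp : ∀ (g : G) (y : ZMod (2 ^ 2)), 2 * y = 0 → p g * y = 0 := by
    intro g y hy
    simp only [p]
    split_ifs
    · rw [zero_mul]
    · exact hy
  have hpχ : ∀ g g', χ g * p g' = p g' := by
    intro g g'
    simp only [p]
    split_ifs
    · rw [mul_zero]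
    · rw [mul_comm]
      exact hu g
  have hpadd : ∀ g g', p (g * g') = p g + p g' := by
    intro g g'
    simp only [p]
    rw [(hA.hom δ).add]
    rcases EqA_z2 (A.h δ g) with hg | hg <;> rcases EqA_z2 (A.h δ g') with hg' | hg' <;>
      rw [hg, hg'] <;> decide
  have hploc : IsLocallyConstant p := (hA.hom δ).loc.comp fun x => if x = 0 then 0 else 2
  have htw : ∀ g, tw ψ (A.h (D + δ)) g = χ g + p g := by
    intro g
    have e1 : tw ψ (A.h (D + δ)) g = χ g * sg 2 (A.h δ g) := by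
      rw [hχdef]
      unfold tw
      rw [hA.add, EqA_sg]
      ring
    rw [e1]
    simp only [p]
    unfold sg
    split_ifs
    · ring
    · have h3 := hu g
      linear_combination (-1 : ZMod (2 ^ 2)) * h3 - EqA_four
  -- twice the solution is zero
  have hZ2 : ∀ g, 2 * Zf A.W A.φ χ a g = 0 := by
    have k1 : IsZ A.W A.φ χ (fun w => 2 * a w) (fun g => 2 * Zf A.W A.φ χ a g) := by
      refine ⟨⟨(h1 a).coc.loc.comp fun x => 2 * x, fun g g' => ?_⟩, fun w g hg => ?_, ?_⟩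
      · show 2 * Zf A.W A.φ χ a (g * g') = _
        rw [(h1 a).coc.mul]
        ring
      · show 2 * Zf A.W A.φ χ a g = _
        rw [(h1 a).res w g hg]
        ring
      · show 2 * Zf A.W A.φ χ a (A.φ none) = _
        rw [(h1 a).inf]
        ring
    have k2 : IsZ A.W A.φ χ (fun w => 2 * a w) (fun _ => 0) := by
      have h3 : ∀ (x : ZMod (2 ^ 2)) g, 2 * x * (1 - χ g) = 0 := by
        intro x g
        linear_combination (-x) * hu g
      refine ⟨⟨IsLocallyConstant.const 0, fun g g' => by simp⟩, fun w g _ => ?_, ?_⟩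
      · exact (h3 _ _).symm
      · exact (h3 _ _).symm
    intro g
    have k3 := (h2 _ _ k1).trans (h2 _ _ k2).symm
    exact congrFun k3 g
  -- the new solution
  have hZ' : IsZ A.W A.φ (tw ψ (A.h (D + δ))) a (fun g => Zf A.W A.φ χ a g + a w * p g) := by
    refine ⟨⟨(h1 a).coc.loc.add (hploc.comp fun x => a w * x), fun g g' => ?_⟩, fun w' g hg => ?_,
      ?_⟩
    · show Zf A.W A.φ χ a (g * g') + a w * p (g * g') = Zf A.W A.φ χ a g + a w * p g +
        tw ψ (A.h (D + δ)) g * (Zf A.W A.φ χ a g' + a w * p g')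
      rw [(h1 a).coc.mul, htw, hpadd]
      have h3 := hpp g _ (hZ2 g')
      have h4 := hpχ g g'
      have h5 := hpp g _ (hp2 g')
      linear_combination (-1 : ZMod (2 ^ 2)) * h3 - (a w) * h4 - (a w) * h5
    · show Zf A.W A.φ χ a g + a w * p g = a w' * (1 - tw ψ (A.h (D + δ)) g)
      rw [(h1 a).res w' g hg, htw]
      by_cases hw : w' = w
      · rw [hw]
        linear_combination (a w) * hp2 g
      · have h3 : p g = 0 := by
          simp only [p]
          rw [hA.off w e' δ hδ w' hw g hg]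
          simp
        rw [h3]
        ring
    · show Zf A.W A.φ χ a (A.φ none) + a w * p (A.φ none) =
        a none * (1 - tw ψ (A.h (D + δ)) (A.φ none))
      rw [(h1 a).inf, htw]
      have h3 : p (A.φ none) = 0 := by
        simp only [p]
        rw [(hA.phi w e' δ hδ).2]
        simp
      rw [h3]
      ring
  have hZf := h2' _ _ hZ'
  unfold Tv
  rw [← hZf, htw]
  show Zf A.W A.φ χ a (A.φ (some v)) + a w * p (A.φ (some v)) -
    a (some v) * (1 - (χ (A.φ (some v)) + p (A.φ (some v)))) =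
    Zf A.W A.φ χ a (A.φ (some v)) - a (some v) * (1 - χ (A.φ (some v))) +
    (a w - a (some v)) * p (A.φ (some v))
  linear_combination (a (some v)) * hp2 (A.φ (some v))

theorem tEqA : S_Lin → S_EqA := by
  intro hLin G _ _ _ ι _ _ X _ A hA ψ hψ a ha η hη
  classical
  obtain ⟨v₀, bη, hbη⟩ := hη
  obtain ⟨w, hw⟩ : ∃ w : Option ι, ∃ b, a w - a (some v₀) = 2 * b + 1 := by
    obtain ⟨w, w', b, hb⟩ := ha
    by_contra hcon
    push Not at hcon
    obtain ⟨c, hc | hc⟩ := EqA_par (a w - a (some v₀))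
    · obtain ⟨c', hc' | hc'⟩ := EqA_par (a w' - a (some v₀))
      · have h1 : (2 : ZMod (2 ^ 2)) * (c - c' - b) = 1 := by
          linear_combination hb + hc' - hc
        have h2 : ∀ x : ZMod (2 ^ 2), 2 * x ≠ 1 := by decide
        exact h2 _ h1
      · exact hcon w' c' hc'
    · exact hcon w c hc
  obtain ⟨b, hb⟩ := hw
  have hwne : w ≠ some v₀ := by
    intro h
    rw [h, sub_self] at hb
    have h2 : ∀ x : ZMod (2 ^ 2), (0 : ZMod (2 ^ 2)) ≠ 2 * x + 1 := by decide
    exact h2 _ hb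
  obtain ⟨e', δ, hδ, hδv⟩ := hA.ax1 v₀ w hwne
  refine ⟨e', fun e he => ?_⟩
  have hδD : δ ∈ A.D e := by
    have h1 : A.𝔇 w (e w) ≤ A.D e := le_iSup (fun w => A.𝔇 w (e w)) w
    exact h1 (hA.mono w (he w) hδ)
  set F : X → ℂ := fun D => ZMod.stdAddChar (∑ v, η v * Tv A.W A.φ (tw ψ (A.h D)) a v) with hF
  have hFδ : ∀ D, F (D + δ) = -F D := by
    intro D
    have e1 : ∑ v, η v * Tv A.W A.φ (tw ψ (A.h (D + δ))) a v =
        ∑ v, η v * Tv A.W A.φ (tw ψ (A.h D)) a v + 2 := by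
      have e2 : ∀ v, η v * Tv A.W A.φ (tw ψ (A.h (D + δ))) a v =
          η v * Tv A.W A.φ (tw ψ (A.h D)) a v +
          (if v = v₀ then η v₀ * ((a w - a (some v₀)) * 2) else 0) := by
        intro v
        rw [EqA_claim hLin hA hψ a w e' δ hδ D v, hδv]
        by_cases hv : v = v₀
        · subst hv
          rw [if_pos rfl, if_pos rfl, if_neg (by decide)]
          ring
        · rw [if_neg hv, if_neg hv, if_pos rfl]
          ring
      simp only [e2]
      rw [Finset.sum_add_distrib, Finset.sum_ite_eq' Finset.univ v₀, if_pos (Finset.mem_univ v₀)]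
      rw [EqA_odd _ _ _ _ hbη hb]
    show ZMod.stdAddChar _ = -ZMod.stdAddChar _
    rw [e1, AddChar.map_add_eq_mul, EqA_e2]
    ring
  have hsum : ∑ᶠ D ∈ (A.D e : Set X), F D = ∑ᶠ D : A.D e, F D :=
    (finsum_set_coe_eq_finsum_mem (A.D e : Set X)).symm
  rw [hsum]
  have h3 : ∑ᶠ D : A.D e, F D = ∑ᶠ D : A.D e, F ((D : X) + δ) :=
    (finsum_comp_equiv (f := fun D : A.D e => F D)
      (Equiv.addRight (⟨δ, hδD⟩ : A.D e))).symm
  have h4 : ∑ᶠ D : A.D e, F ((D : X) + δ) = -∑ᶠ D : A.D e, F D := by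
    rw [← finsum_neg_distrib]
    exact finsum_congr fun D => hFδ D
  have h5 : ∑ᶠ D : A.D e, F D = -∑ᶠ D : A.D e, F D := h3.trans h4
  exact self_eq_neg.1 h5

end Pool.Agent.MP72W
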