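import Pool.Agent.Lib.MP_72e2e6_nt.W2.A.Spec

/-!
# MP_72e2e6_nt, theorem T3, part A: equidistribution, higher level
-/

namespace Pool.Agent.MP72W

open Finset

private theorem eqmZ (c : ZMod 2) : c = 0 ∨ c = 1 := by
  revert c
  decide

/-- The term of `S_Vdc`. -/
private noncomputable def eqmTerm {X : Type} [AddCommGroup X] (𝒟 H0 : AddSubgroup X) [Fintype 𝒟]
    [Fintype H0] (m n : ℕ) (f : X → ZMod (2 ^ n)) (δ : Fin m → X) : ℝ :=
  ‖∑ δ₀ : H0, ∑ D : 𝒟, ZMod.stdAddChar (∑ ω : Fin (m + 1) → ZMod 2,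
      (∏ j, sg n (ω j)) * f ((D : X) + ∑ j, if ω j = 0 then 0 else
        (Fin.cons (δ₀ : X) δ : Fin (m + 1) → X) j))‖ /
      (Fintype.card H0 * Fintype.card 𝒟)

private theorem eqmVdc (hV : S_Vdc) {X : Type} [AddCommGroup X] (𝒟 H0 H' : AddSubgroup X)
    [Fintype 𝒟] [Fintype H0] [Fintype H'] (h0 : H0 ≤ 𝒟) (h' : H' ≤ 𝒟) (m n : ℕ)
    (f : X → ZMod (2 ^ n)) :
    (‖∑ D : 𝒟, ZMod.stdAddChar (f D)‖ / Fintype.card 𝒟) ^ 2 ^ (m + 1) ≤
      (∑ δ : Fin m → H', eqmTerm 𝒟 H0 m n f (fun j => (δ j : X))) / (Fintype.card H') ^ m := by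
  let inst : ∀ j, Fintype ((Fin.cons H0 fun _ => H' : Fin (m + 1) → AddSubgroup X) j) :=
    fun j => Fin.cases (motive := fun j =>
      Fintype ((Fin.cons H0 fun _ => H' : Fin (m + 1) → AddSubgroup X) j))
      (inferInstanceAs (Fintype H0)) (fun _ => inferInstanceAs (Fintype H')) j
  have h := @hV X _ 𝒟 _ m (Fin.cons H0 fun _ => H') inst (fun j => by
    refine Fin.cases h0 (fun _ => h') j) n f
  refine h.trans (le_of_eq ?_)
  have e : (∏ j : Fin m, @Fintype.card ((Fin.cons H0 fun _ => H' : Fin (m + 1) → AddSubgroup X)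
      j.succ) (inst j.succ) : ℕ) = Fintype.card H' ^ m := by
    rw [show (∏ j : Fin m, @Fintype.card ((Fin.cons H0 fun _ => H' :
      Fin (m + 1) → AddSubgroup X) j.succ) (inst j.succ) : ℕ) = ∏ j : Fin m, Fintype.card H' from rfl,
      Finset.prod_const, Finset.card_univ, Fintype.card_fin]
  rw [e, Nat.cast_pow]
  rfl

private theorem eqmFin {ι X : Type} [Finite ι] [AddCommGroup X] (S : ι → AddSubgroup X)
    (h : ∀ i, (S i : Set X).Finite) : ((⨆ i, S i : AddSubgroup X) : Set X).Finite := by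
  classical
  have : Fintype ι := Fintype.ofFinite ι
  have key : ∀ s : Finset ι, ((⨆ i ∈ s, S i : AddSubgroup X) : Set X).Finite := by
    intro s
    induction s using Finset.induction_on with
    | empty => simp
    | insert i s hi ih =>
      rw [Finset.iSup_insert]
      rw [AddSubgroup.add_normal]
      exact (h i).add ih
  have := key Finset.univ
  simpa using this

/-- The number of the tuples with a relation. -/
private theorem eqmBad {H : Type} [AddCommGroup H] [Fintype H] [DecidableEq H] (m : ℕ)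
    (c : Fin m → ZMod 2) (hc : c ≠ 0) :
    (Finset.univ.filter fun δ : Fin m → H => ∑ j, (if c j = 0 then 0 else δ j) = 0).card *
      Fintype.card H ≤ Fintype.card H ^ m := by
  classical
  obtain ⟨j₀, hj₀⟩ : ∃ j, c j ≠ 0 := by
    by_contra hcon
    push Not at hcon
    exact hc (funext hcon)
  have e : Fintype.card H ^ m = Fintype.card (Fin m → H) := by
    rw [Fintype.card_fun, Fintype.card_fin]
  rw [e, ← Finset.card_univ (α := H), ← Finset.card_product]
  refine Finset.card_le_card_of_injOn (fun p => p.1 + Pi.single j₀ p.2)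
    (fun _ _ => Finset.mem_coe.2 (Finset.mem_univ _)) ?_
  have hs : ∀ (δ : Fin m → H) (x : H), ∑ j, (if c j = 0 then 0 else δ j) = 0 →
      ∑ j, (if c j = 0 then 0 else (δ + Pi.single j₀ x : Fin m → H) j) = x := by
    intro δ x h
    have e1 : ∀ j, (if c j = 0 then 0 else (δ + Pi.single j₀ x : Fin m → H) j) =
        (if c j = 0 then 0 else δ j) + (Pi.single j₀ x : Fin m → H) j := by
      intro j
      by_cases hj : c j = 0
      · have : j ≠ j₀ := by
          rintro rfl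
          exact hj₀ hj
        rw [if_pos hj, if_pos hj, Pi.single_eq_of_ne this, add_zero]
      · rw [if_neg hj, if_neg hj, Pi.add_apply]
    rw [Finset.sum_congr rfl fun j _ => e1 j, Finset.sum_add_distrib, h, zero_add,
      Finset.sum_pi_single', if_pos (Finset.mem_univ _)]
  rintro ⟨δ, x⟩ h1 ⟨δ', x'⟩ h2 h
  simp only [Finset.coe_product, Set.mem_prod, Finset.mem_coe, Finset.mem_filter,
    Finset.mem_univ, true_and, and_true] at h1 h2
  simp only at h
  have e1 := hs δ x h1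
  have e2 := hs δ' x' h2
  rw [h, e2] at e1
  subst e1
  rw [add_right_cancel h]

section

variable {G ι X : Type} [Group G] [TopologicalSpace G] [DecidableEq ι] [AddCommGroup X]

private theorem eqmH0 {A : Fam G ι X} (hA : A.Good) (g : G) : A.h 0 g = 0 := by
  have := hA.add 0 0 g
  rw [add_zero] at this
  exact left_eq_add.1 this

private theorem eqmHneg {A : Fam G ι X} (hA : A.Good) (x : X) (g : G) : A.h (-x) g = A.h x g := by
  have h1 := hA.add x (-x) g
  rw [add_neg_cancel, eqmH0 hA] at h1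
  exact (CharTwo.add_eq_zero.1 h1.symm).symm

/-- The elements which are `0` at all the `φ v`. -/
private def eqmH {A : Fam G ι X} (hA : A.Good) (e : ℕ) : AddSubgroup X where
  carrier := {δ | δ ∈ A.𝔇 none e ∧ ∀ v : ι, A.h δ (A.φ (some v)) = 0}
  add_mem' := by
    rintro a b ⟨h1, h2⟩ ⟨h3, h4⟩
    exact ⟨add_mem h1 h3, fun v => by rw [hA.add, h2, h4, add_zero]⟩
  zero_mem' := ⟨zero_mem _, fun v => eqmH0 hA _⟩
  neg_mem' := by
    rintro a ⟨h1, h2⟩
    exact ⟨neg_mem h1, fun v => by rw [eqmHneg hA, h2]⟩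

private theorem eqmCard [Fintype ι] {A : Fam G ι X} (hA : A.Good) (e : ℕ) :
    Nat.card (A.𝔇 none e) ≤ Nat.card (eqmH hA e) * 2 ^ Fintype.card ι := by
  have hf : Finite (A.𝔇 none e) := hA.fin none e
  have hf2 : Finite (eqmH hA e) :=
    Finite.of_injective (fun x => (⟨x, x.2.1⟩ : A.𝔇 none e)) fun x y h =>
      Subtype.ext (congrArg (fun z : A.𝔇 none e => (z : X)) h)
  let q : A.𝔇 none e →+ (ι → ZMod 2) := AddMonoidHom.mk' (fun δ v => A.h δ (A.φ (some v)))
    fun x y => funext fun v => hA.add x y _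
  have h1 := AddSubgroup.card_mul_index q.ker
  rw [AddSubgroup.index_ker] at h1
  rw [← h1]
  apply Nat.mul_le_mul
  · apply Nat.card_le_card_of_injective
      (fun x : q.ker => (⟨((x : A.𝔇 none e) : X), (x : A.𝔇 none e).2,
        fun v => congrFun (AddMonoidHom.mem_ker.1 x.2) v⟩ : eqmH hA e))
    intro x y h
    exact Subtype.ext (Subtype.ext (congrArg (fun z : eqmH hA e => (z : X)) h))
  · have h2 := Nat.card_le_card_of_injective (fun x : q.range => (x : ι → ZMod 2))
      Subtype.val_injective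
    rwa [Nat.card_fun, Nat.card_zmod, Nat.card_eq_fintype_card (α := ι)] at h2

/-- relations -/
private theorem eqmRel {A : Fam G ι X} (hA : A.Good) (e : ℕ) {m : ℕ} (δ : Fin m → eqmH hA e)
    (c : Fin m → ZMod 2) (h : ∀ g, ∑ j, c j * A.h (δ j : X) g = 0) :
    ∑ j, (if c j = 0 then 0 else δ j) = 0 := by
  apply Subtype.ext
  apply hA.inj e
  · exact (∑ j, (if c j = 0 then 0 else δ j)).2.1
  · intro g
    refine Eq.trans ?_ (h g)
    have e2 := map_sum ((AddMonoidHom.mk' (fun x => A.h x g) fun x y => hA.add x y g).comp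
      (eqmH hA e).subtype) (fun j => if c j = 0 then 0 else δ j) Finset.univ
    refine e2.trans (Finset.sum_congr rfl fun j _ => ?_)
    rcases eqmZ (c j) with h0 | h0
    · rw [h0, if_pos rfl, zero_mul]
      exact eqmH0 hA g
    · rw [h0, if_neg (by decide), one_mul]
      rfl

end

private theorem eqmTwo (m : ℕ) : (2 : ZMod (2 ^ (m + 2))) ^ (m + 1) * 2 = 0 := by
  rw [← pow_succ]
  exact_mod_cast ZMod.natCast_self (2 ^ (m + 2))

private theorem eqmTwo_ne (m : ℕ) : (2 : ZMod (2 ^ (m + 2))) ^ (m + 1) ≠ 0 := by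
  intro h
  have h1 : ((2 ^ (m + 1) : ℕ) : ZMod (2 ^ (m + 2))) = 0 := by exact_mod_cast h
  rw [ZMod.natCast_eq_zero_iff] at h1
  have h2 := (Nat.pow_dvd_pow_iff_le_right (by norm_num : 1 < 2)).1 h1
  omega

private theorem eqmJ (m : ℕ) (x y : ZMod 2) :
    (if x + y = 0 then 0 else (2 : ZMod (2 ^ (m + 2))) ^ (m + 1)) =
      (if x = 0 then 0 else 2 ^ (m + 1)) + if y = 0 then 0 else 2 ^ (m + 1) := by
  rcases eqmZ x with rfl | rfl <;> rcases eqmZ y with rfl | rfl
  · simp
  · simp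
  · simp
  · rw [show (1 : ZMod 2) + 1 = 0 by decide, if_pos rfl, if_neg (by decide), ← mul_two, eqmTwo]

private theorem eqmTerm_le {X : Type} [AddCommGroup X] (𝒟 H0 : AddSubgroup X) [Fintype 𝒟]
    [Fintype H0] (m n : ℕ) (f : X → ZMod (2 ^ n)) (δ : Fin m → X) :
    eqmTerm 𝒟 H0 m n f δ ≤ 1 := by
  unfold eqmTerm
  have h1 : (0 : ℝ) < Fintype.card H0 := by
    have := Fintype.card_pos (α := H0)
    exact_mod_cast this
  have h2 : (0 : ℝ) < Fintype.card 𝒟 := by
    have := Fintype.card_pos (α := 𝒟)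
    exact_mod_cast this
  rw [div_le_one (by positivity)]
  refine (norm_sum_le _ _).trans ?_
  calc _ ≤ ∑ δ₀ : H0, (Fintype.card 𝒟 : ℝ) := by
        refine Finset.sum_le_sum fun δ₀ _ => ?_
        refine (norm_sum_le _ _).trans ?_
        simp only [AddChar.norm_apply, Finset.sum_const, Finset.card_univ, nsmul_eq_mul, mul_one]
        exact le_rfl
    _ = _ := by rw [Finset.sum_const, Finset.card_univ, nsmul_eq_mul]

private theorem eqmTerm_zero {X : Type} [AddCommGroup X] (𝒟 H0 : AddSubgroup X) [Fintype 𝒟]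
    [Fintype H0] (m : ℕ) (f : X → ZMod (2 ^ (m + 2))) (δ : Fin m → X) (cc : H0 → ZMod (2 ^ (m + 2)))
    (h : ∀ (x : H0) (D : X), ∑ ω : Fin (m + 1) → ZMod 2,
      (∏ j, sg (m + 2) (ω j)) * f (D + ∑ j, if ω j = 0 then 0 else
        (Fin.cons (x : X) δ : Fin (m + 1) → X) j) = cc x)
    (δ₁ : H0) (h1 : ∀ x, cc (x + δ₁) = cc x + 2 ^ (m + 1)) : eqmTerm 𝒟 H0 m (m + 2) f δ = 0 := by
  have h2 : ∑ x : H0, (ZMod.stdAddChar (cc x) : ℂ) = 0 := by
    have e1 := Equiv.sum_comp (Equiv.addRight δ₁) fun x : H0 => (ZMod.stdAddChar (cc x) : ℂ)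
    simp only [Equiv.coe_addRight, h1, AddChar.map_add_eq_mul] at e1
    rw [← Finset.sum_mul] at e1
    have e2 : (ZMod.stdAddChar ((2 : ZMod (2 ^ (m + 2))) ^ (m + 1)) : ℂ) ≠ 1 := by
      intro h3
      rw [← AddChar.map_zero_eq_one (ZMod.stdAddChar (N := 2 ^ (m + 2)))] at h3
      exact eqmTwo_ne m (ZMod.injective_stdAddChar h3)
    have e3 : (∑ x : H0, (ZMod.stdAddChar (cc x) : ℂ)) *
        (ZMod.stdAddChar ((2 : ZMod (2 ^ (m + 2))) ^ (m + 1)) - 1) = 0 := by
      rw [mul_sub, e1, mul_one, sub_self]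
    exact (mul_eq_zero.1 e3).resolve_right (sub_ne_zero.2 e2)
  unfold eqmTerm
  simp only [h, Finset.sum_const, ← Finset.smul_sum, h2, smul_zero, norm_zero, zero_div]

theorem tEqM : S_Vdc → S_Zet → S_EqM := by
  classical
  intro hV hZ G _ _ _ ι _ _ X _ A hA m hm ψ hψ a ha0 ha1 η hη ε hε
  obtain ⟨w₁, ha1⟩ := ha1
  obtain ⟨v₀, hη⟩ := hη
  -- the choice of `e'`
  obtain ⟨e', he'⟩ : ∃ e', (2 : ℝ) ^ m ≤ Nat.card (eqmH hA e') * ε ^ 2 ^ (m + 1) := by
    have hε' : 0 < ε ^ 2 ^ (m + 1) := by positivity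
    obtain ⟨B, hB⟩ := exists_nat_ge ((2 : ℝ) ^ m / ε ^ 2 ^ (m + 1) * 2 ^ Fintype.card ι)
    obtain ⟨e', he'⟩ := hA.big B
    refine ⟨e', ?_⟩
    have h1 : (B : ℝ) ≤ Nat.card (eqmH hA e') * 2 ^ Fintype.card ι := by
      exact_mod_cast he'.trans (eqmCard hA e')
    have h2 : (2 : ℝ) ^ m / ε ^ 2 ^ (m + 1) * 2 ^ Fintype.card ι ≤
      Nat.card (eqmH hA e') * 2 ^ Fintype.card ι := hB.trans h1
    have h3 := le_of_mul_le_mul_right h2 (by positivity)
    rwa [div_le_iff₀ hε'] at h3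
  have hfin : ∀ w e, Finite (A.𝔇 w e) := fun w e => hA.fin w e
  have hf2 : Finite (eqmH hA e') :=
    Finite.of_injective (fun x => (⟨x, x.2.1⟩ : A.𝔇 none e')) fun x y h =>
      Subtype.ext (congrArg (fun z : A.𝔇 none e' => (z : X)) h)
  have : Fintype (eqmH hA e') := Fintype.ofFinite _
  -- good tuples
  set Gd : (Fin m → eqmH hA e') → Prop := fun δ =>
    ∀ c : Fin m → ZMod 2, (∀ g, ∑ j, c j * A.h (δ j : X) g = 0) → c = 0 with hGd
  have hφ : ∀ (δ : Fin m → eqmH hA e') j v, A.h (δ j : X) (A.φ v) = 0 := by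
    intro δ j v
    cases v with
    | none => exact (hA.phi none e' (δ j) (δ j).2.1).2
    | some v => exact (δ j).2.2 v
  have hTh : ∀ δ : Fin m → eqmH hA e', ∃ (Θ : X → ι → ZMod 2) (e₁ : ℕ), Gd δ →
      (∃ δ₁ ∈ A.𝔇 (some w₁) e₁, ∀ v, Θ δ₁ v = if v = v₀ then 1 else 0) ∧
        (∀ e, ∀ x ∈ A.𝔇 (some w₁) e, ∀ y ∈ A.𝔇 (some w₁) e, ∀ v, Θ (x + y) v = Θ x v + Θ y v) ∧
        ∀ e, ∀ x ∈ A.𝔇 (some w₁) e, ∀ (D : X) (v : ι),
              ∑ ω : Fin (m + 1) → ZMod 2, (∏ j, sg (m + 2) (ω j)) *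
                  Tv A.W A.φ (tw ψ (A.h (D + ∑ j, if ω j = 0 then 0 else
                    (Fin.cons x (fun j => (δ j : X)) : Fin (m + 1) → X) j))) a v =
                if Θ x v = 0 then 0 else 2 ^ (m + 1) := by
    intro δ
    by_cases hg : Gd δ
    · obtain ⟨Θ, ⟨e₁, h1⟩, h2, h3⟩ := hZ G ι X A hA m hm (fun j => (δ j : X))
        ⟨e', fun j => (δ j).2.1⟩ (hφ δ) hg w₁ v₀
      exact ⟨Θ, e₁, fun _ => ⟨h1, h2, fun e x hx D v => h3 e x hx ψ hψ a ha0 ha1 D v⟩⟩
    · exact ⟨fun _ _ => 0, 0, fun h => absurd h hg⟩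
  choose Θ e₁ hΘ using hTh
  refine ⟨max e' (Finset.univ.sup e₁), fun e he => ?_⟩
  have hDfin : (A.D e : Set X).Finite := eqmFin _ fun w => hA.fin w (e w)
  have hDf : Finite (A.D e) := hDfin
  have : Fintype (A.D e) := Fintype.ofFinite _
  have : Fintype (A.𝔇 (some w₁) (e (some w₁))) := Fintype.ofFinite _
  have hle : ∀ w, A.𝔇 w (e w) ≤ A.D e := fun w => le_iSup (fun w => A.𝔇 w (e w)) w
  have hH' : eqmH hA e' ≤ A.D e := fun x hx =>
    hle none (hA.mono none ((le_max_left _ _).trans (he none)) hx.1)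
  set f : X → ZMod (2 ^ (m + 2)) := fun D => ∑ v, η v * Tv A.W A.φ (tw ψ (A.h D)) a v with hf
  have hvdc := eqmVdc hV (A.D e) (A.𝔇 (some w₁) (e (some w₁))) (eqmH hA e') (hle _) hH' m (m + 2) f
  -- the good terms are zero
  have hgood : ∀ δ : Fin m → eqmH hA e', Gd δ →
      eqmTerm (A.D e) (A.𝔇 (some w₁) (e (some w₁))) m (m + 2) f (fun j => (δ j : X)) = 0 := by
    intro δ hδ
    obtain ⟨⟨δ₁, hδ₁, hv₁⟩, hadd, hcube⟩ := hΘ δ hδ
    have hδ₁' : δ₁ ∈ A.𝔇 (some w₁) (e (some w₁)) := by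
      refine hA.mono (some w₁) ?_ hδ₁
      exact (Finset.le_sup (Finset.mem_univ δ)).trans ((le_max_right _ _).trans (he _))
    refine eqmTerm_zero _ _ m f _
      (fun x => ∑ v, η v * (if Θ δ x v = 0 then 0 else 2 ^ (m + 1))) (fun x D => ?_) ⟨δ₁, hδ₁'⟩
      (fun x => ?_)
    · rw [hf]
      simp only [Finset.mul_sum]
      rw [Finset.sum_comm]
      refine Finset.sum_congr rfl fun v _ => ?_
      rw [← hcube _ x x.2 D v, Finset.mul_sum]
      refine Finset.sum_congr rfl fun ω _ => ?_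
      ring
    · simp only [AddSubgroup.coe_add]
      have e1 : ∀ v, η v * (if Θ δ ((x : X) + δ₁) v = 0 then 0 else 2 ^ (m + 1)) =
          η v * (if Θ δ x v = 0 then 0 else 2 ^ (m + 1)) +
            if v = v₀ then η v * 2 ^ (m + 1) else 0 := by
        intro v
        rw [hadd _ x x.2 δ₁ hδ₁' v, eqmJ, mul_add, hv₁]
        by_cases hv : v = v₀
        · rw [if_pos hv, if_neg (show (1 : ZMod 2) ≠ 0 by decide), if_pos hv]
        · rw [if_neg hv, if_pos (show (0 : ZMod 2) = 0 from rfl), if_neg hv, mul_zero]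
      rw [Finset.sum_congr rfl fun v _ => e1 v, Finset.sum_add_distrib, Finset.sum_ite_eq',
        if_pos (Finset.mem_univ _)]
      obtain ⟨b, hb⟩ := hη
      rw [hb]
      have := eqmTwo m
      linear_combination b * this
  -- the number of the bad ones
  set Bd : Finset (Fin m → eqmH hA e') := Finset.univ.filter fun δ => ¬ Gd δ with hBd
  have hbad : (Bd.card : ℝ) * Fintype.card (eqmH hA e') ≤
      2 ^ m * Fintype.card (eqmH hA e') ^ m := by
    have h1 : Bd ⊆ (Finset.univ.filter fun c : Fin m → ZMod 2 => c ≠ 0).biUnion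
        fun c => Finset.univ.filter fun δ : Fin m → eqmH hA e' =>
          ∑ j, (if c j = 0 then 0 else δ j) = 0 := by
      intro δ hδ
      rw [hBd, Finset.mem_filter, hGd] at hδ
      have h2 := hδ.2
      push Not at h2
      obtain ⟨c, hc, hc0⟩ := h2
      rw [Finset.mem_biUnion]
      refine ⟨c, Finset.mem_filter.2 ⟨Finset.mem_univ _, hc0⟩,
        Finset.mem_filter.2 ⟨Finset.mem_univ _, eqmRel hA e' δ c hc⟩⟩
    have h2 : Bd.card * Fintype.card (eqmH hA e') ≤ 2 ^ m * Fintype.card (eqmH hA e') ^ m := by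
      calc Bd.card * Fintype.card (eqmH hA e')
          ≤ (∑ c ∈ Finset.univ.filter fun c : Fin m → ZMod 2 => c ≠ 0,
            (Finset.univ.filter fun δ : Fin m → eqmH hA e' =>
              ∑ j, (if c j = 0 then 0 else δ j) = 0).card) * Fintype.card (eqmH hA e') :=
            Nat.mul_le_mul_right _ ((Finset.card_le_card h1).trans Finset.card_biUnion_le)
        _ = ∑ c ∈ Finset.univ.filter fun c : Fin m → ZMod 2 => c ≠ 0,
            (Finset.univ.filter fun δ : Fin m → eqmH hA e' =>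
              ∑ j, (if c j = 0 then 0 else δ j) = 0).card * Fintype.card (eqmH hA e') := by
            rw [Finset.sum_mul]
        _ ≤ ∑ c ∈ Finset.univ.filter fun c : Fin m → ZMod 2 => c ≠ 0,
            Fintype.card (eqmH hA e') ^ m :=
            Finset.sum_le_sum fun c hc => eqmBad m c (Finset.mem_filter.1 hc).2
        _ ≤ 2 ^ m * Fintype.card (eqmH hA e') ^ m := by
            rw [Finset.sum_const, smul_eq_mul]
            apply Nat.mul_le_mul_right
            refine (Finset.card_le_univ _).trans (le_of_eq ?_)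
            rw [Fintype.card_fun, Fintype.card_fin, ZMod.card]
    exact_mod_cast h2
  have hsum : (∑ δ : Fin m → eqmH hA e',
      eqmTerm (A.D e) (A.𝔇 (some w₁) (e (some w₁))) m (m + 2) f (fun j => (δ j : X))) ≤
      Bd.card := by
    have h1 : (Bd.card : ℝ) = ∑ δ : Fin m → eqmH hA e', if ¬ Gd δ then 1 else 0 := by
      rw [hBd, Finset.card_filter]
      push_cast
      rfl
    rw [h1]
    refine Finset.sum_le_sum fun δ _ => ?_
    by_cases hg : Gd δ
    · rw [hgood δ hg, if_neg (not_not.2 hg)]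
    · rw [if_pos hg]
      exact eqmTerm_le _ _ _ _ _ _
  have hH'pos : (0 : ℝ) < Fintype.card (eqmH hA e') := by
    have := Fintype.card_pos (α := eqmH hA e')
    exact_mod_cast this
  have hDpos : (0 : ℝ) < Fintype.card (A.D e) := by
    have := Fintype.card_pos (α := A.D e)
    exact_mod_cast this
  have hfinal : (‖∑ D : A.D e, ZMod.stdAddChar (f D)‖ / Fintype.card (A.D e)) ^ 2 ^ (m + 1) ≤
      ε ^ 2 ^ (m + 1) := by
    refine hvdc.trans ?_
    rw [div_le_iff₀ (by positivity)]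
    refine hsum.trans ?_
    rw [Nat.card_eq_fintype_card] at he'
    have h1 : (2 : ℝ) ^ m * Fintype.card (eqmH hA e') ^ m ≤
        (Fintype.card (eqmH hA e') * ε ^ 2 ^ (m + 1)) * Fintype.card (eqmH hA e') ^ m :=
      mul_le_mul_of_nonneg_right he' (by positivity)
    have h2 := hbad.trans h1
    have h3 : (Bd.card : ℝ) * Fintype.card (eqmH hA e') ≤
        (ε ^ 2 ^ (m + 1) * Fintype.card (eqmH hA e') ^ m) * Fintype.card (eqmH hA e') := by
      refine h2.trans (le_of_eq ?_)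
      ring
    exact le_of_mul_le_mul_right h3 hH'pos
  have hroot := le_of_pow_le_pow_left₀ (by positivity) hε.le hfinal
  rw [div_le_iff₀ hDpos] at hroot
  rw [Nat.card_eq_fintype_card, ← finsum_set_coe_eq_finsum_mem, finsum_eq_sum_of_fintype]
  exact hroot

end Pool.Agent.MP72W
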