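import Pool.Agent.Lib.MP_72e2e6_nt.W2.A.Spec

/-!
# MP_72e2e6_nt, theorem T3, part A: equidistribution for all levels
-/

set_option autoImplicit false

namespace Pool.Agent.MP72W

open Finset

private theorem EqN_cast_zero {n m : ℕ} (h : m ≤ n) (y : ZMod (2 ^ n))
    (hy : ZMod.castHom (pow_dvd_pow 2 h) (ZMod (2 ^ m)) y = 0) :
    ∃ b : ZMod (2 ^ n), y = 2 ^ m * b := by
  haveI : NeZero (2 ^ n) := ⟨by positivity⟩
  have h1 : y = ((y.val : ℕ) : ZMod (2 ^ n)) := (ZMod.natCast_zmod_val y).symm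
  rw [h1, map_natCast, ZMod.natCast_eq_zero_iff] at hy
  obtain ⟨k, hk⟩ := hy
  refine ⟨(k : ZMod (2 ^ n)), ?_⟩
  rw [h1, hk]
  push_cast
  ring

private theorem EqN_parity {n : ℕ} (y : ZMod (2 ^ n)) : (∃ b, y = 2 * b) ∨ ∃ b, y = 2 * b + 1 := by
  haveI : NeZero (2 ^ n) := ⟨by positivity⟩
  have h1 : y = ((y.val : ℕ) : ZMod (2 ^ n)) := (ZMod.natCast_zmod_val y).symm
  rcases Nat.even_or_odd' y.val with ⟨k, hk | hk⟩
  · left
    refine ⟨(k : ZMod (2 ^ n)), ?_⟩
    rw [h1, hk]
    push_cast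
    ring
  · right
    refine ⟨(k : ZMod (2 ^ n)), ?_⟩
    rw [h1, hk]
    push_cast
    ring

private theorem EqN_half {n : ℕ} (y : ZMod (2 ^ (n + 1))) : 2 * y ≠ 1 := by
  intro h
  have h1 := congrArg (ZMod.castHom (pow_dvd_pow 2 (Nat.succ_le_succ (Nat.zero_le n)))
    (ZMod (2 ^ 1))) h
  rw [map_mul, map_one, map_ofNat] at h1
  have h2 : ∀ x : ZMod (2 ^ 1), 2 * x ≠ 1 := by decide
  exact h2 _ h1

private theorem EqN_std {n : ℕ} (y : ZMod (2 ^ (n + 1))) :
    ZMod.stdAddChar (2 * y)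
      = ZMod.stdAddChar (ZMod.castHom (pow_dvd_pow 2 (Nat.le_succ n)) (ZMod (2 ^ n)) y) := by
  have h1 : y = ((y.val : ℕ) : ZMod (2 ^ (n + 1))) := (ZMod.natCast_zmod_val y).symm
  set k := y.val with hk
  have h2 : 2 * y = (((2 * k : ℕ) : ℤ) : ZMod (2 ^ (n + 1))) := by
    rw [h1]
    push_cast
    ring
  have h3 : ZMod.castHom (pow_dvd_pow 2 (Nat.le_succ n)) (ZMod (2 ^ n)) y
      = (((k : ℕ) : ℤ) : ZMod (2 ^ n)) := by
    rw [h1, map_natCast]
    push_cast
    rfl
  rw [h2, h3, ZMod.stdAddChar_coe, ZMod.stdAddChar_coe]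
  congr 1
  push_cast
  rw [pow_succ]
  field_simp

private theorem EqN_chr_cast {G : Type} [Group G] [TopologicalSpace G] {n : ℕ}
    {χ : G → ZMod (2 ^ n)} (hχ : Chr χ) {n' : ℕ}
    (f : ZMod (2 ^ n) →+* ZMod (2 ^ n')) : Chr (fun g => f (χ g)) where
  loc := hχ.loc.comp f
  one := by rw [hχ.one, map_one]
  mul a b := by rw [hχ.mul, map_mul]

private theorem EqN_sg_add (n : ℕ) (x y : ZMod 2) : sg n (x + y) = sg n x * sg n y := by
  have hx : x = 0 ∨ x = 1 := by revert x; decide
  have hy : y = 0 ∨ y = 1 := by revert y; decide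
  have h11 : (1 : ZMod 2) + 1 = 0 := by decide
  have h10 : (1 : ZMod 2) ≠ 0 := by decide
  rcases hx with rfl | rfl <;> rcases hy with rfl | rfl
  · simp [sg]
  · simp [sg]
  · simp [sg]
  · rw [h11]
    simp [sg]

private theorem EqN_tw {G : Type} [Group G] [TopologicalSpace G] {n : ℕ} {ψ : G → ZMod (2 ^ n)}
    (hψ : Chr ψ) {h : G → ZMod 2} (hh : Hom2 h) : Chr (tw ψ h) where
  loc := (hψ.loc.prodMk hh.loc).comp (fun p => p.1 * sg n p.2)
  one := by
    have h0 : h 1 = 0 := by
      have h1 := hh.add 1 1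
      rw [mul_one] at h1
      have h2 : ∀ x : ZMod 2, x = x + x → x = 0 := by decide
      exact h2 _ h1
    show ψ 1 * sg n (h 1) = 1
    rw [hψ.one, h0]
    simp [sg]
  mul a b := by
    show ψ (a * b) * sg n (h (a * b)) = ψ a * sg n (h a) * (ψ b * sg n (h b))
    rw [hψ.mul, hh.add, EqN_sg_add]
    ring

private theorem EqN_tw_cast {G : Type} {n n' : ℕ} (ψ : G → ZMod (2 ^ n)) (h : G → ZMod 2)
    (f : ZMod (2 ^ n) →+* ZMod (2 ^ n')) :
    (fun g => f (tw ψ h g)) = tw (fun g => f (ψ g)) h := by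
  funext g
  show f (ψ g * sg n (h g)) = f (ψ g) * sg n' (h g)
  rw [map_mul]
  congr 1
  unfold sg
  split_ifs
  · exact map_one f
  · rw [map_neg, map_one]

theorem tEqN (hL : S_Lin) (hA : S_EqA) (hM : S_EqM) : S_EqN := by
  intro G _ _ _ ι _ _ X _ A hG n
  induction n with
  | zero =>
    intro ψ hψ a ha η hη
    obtain ⟨v, hv⟩ := hη
    haveI : Subsingleton (ZMod (2 ^ 0)) := by
      rw [pow_zero]
      infer_instance
    exact absurd (Subsingleton.elim _ _) hv
  | succ n ih =>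
    intro ψ hψ a ha η hη ε hε
    by_cases hodd : ∃ v b, η v = 2 * b + 1
    · -- normalisation of `a`
      obtain ⟨w, w', b, hb⟩ := ha
      set a' : Option ι → ZMod (2 ^ (n + 1)) := a + (fun _ => -a none) with ha'
      have e0 : ∀ w, a' w = a w - a none := fun w => by
        rw [ha', Pi.add_apply]; ring
      have hnone : a' none = 0 := by rw [e0, sub_self]
      have hdiff : a' w - a' w' = 2 * b + 1 := by rw [e0, e0, ← hb]; ring
      have hTv : ∀ D v, Tv A.W A.φ (tw ψ (A.h D)) a' v = Tv A.W A.φ (tw ψ (A.h D)) a v := by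
        intro D v
        obtain ⟨_, _, l3, _, l5, _⟩ := hL G ι A.W A.φ hG.uex hG.h2 (n + 1) (tw ψ (A.h D))
          (EqN_tw hψ (hG.hom D))
        rw [ha', l3, l5, add_zero]
      have hsome : ∃ w₁ b, a' (some w₁) = 2 * b + 1 := by
        have h1 : ∃ u b, a' u = 2 * b + 1 := by
          rcases EqN_parity (a' w) with ⟨c, hc⟩ | h
          · rcases EqN_parity (a' w') with ⟨c', hc'⟩ | h'
            · exfalso
              rw [hc, hc'] at hdiff
              apply EqN_half (c - c' - b)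
              linear_combination hdiff
            · exact ⟨w', h'⟩
          · exact ⟨w, h⟩
        obtain ⟨u, c, hc⟩ := h1
        cases u with
        | none =>
          exfalso
          rw [hnone] at hc
          apply EqN_half (-c)
          linear_combination hc
        | some w₁ => exact ⟨w₁, c, hc⟩
      have hfin : ∀ (m : ℕ) (hm : m + 2 = n + 1), ∃ e₀ : ℕ, ∀ e : Option ι → ℕ, (∀ w, e₀ ≤ e w) →
          ‖∑ᶠ D ∈ (A.D e : Set X),
            ZMod.stdAddChar (∑ v, η v * Tv A.W A.φ (tw ψ (A.h D)) a' v)‖ ≤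
            ε * Nat.card (A.D e) := by
        intro m hm
        obtain rfl : n = m + 1 := by omega
        rcases Nat.eq_zero_or_pos m with h0 | h0
        · subst h0
          obtain ⟨e₀, h⟩ := hA G ι X A hG ψ hψ a' ⟨w, w', b, hdiff⟩ η hodd
          refine ⟨e₀, fun e he => ?_⟩
          have h1 : ∑ᶠ D ∈ (A.D e : Set X),
            ZMod.stdAddChar (∑ v, η v * Tv A.W A.φ (tw ψ (A.h D)) a' v) = 0 := h e he
          rw [h1, norm_zero]
          positivity
        · exact hM G ι X A hG m h0 ψ hψ a' ⟨0, by rw [hnone, mul_zero]⟩ hsome η hodd ε hε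
      have hn : ∃ m, m + 2 = n + 1 := by
        cases n with
        | zero =>
          exfalso
          obtain ⟨v, hv⟩ := hη
          have h1 : ∀ x : ZMod (2 ^ (0 + 1)), 2 * x = 0 := by decide
          exact hv (h1 _)
        | succ m => exact ⟨m, rfl⟩
      obtain ⟨m, hm⟩ := hn
      obtain ⟨e₀, h⟩ := hfin m hm
      refine ⟨e₀, fun e he => ?_⟩
      have h1 := h e he
      simp only [hTv] at h1
      exact h1
    · -- all `η v` are even
      have heven : ∀ v, ∃ b, η v = 2 * b := by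
        intro v
        rcases EqN_parity (η v) with h | ⟨b, hb⟩
        · exact h
        · exact absurd ⟨v, b, hb⟩ hodd
      choose η₁ hη₁ using heven
      set f := ZMod.castHom (pow_dvd_pow 2 (Nat.le_succ n)) (ZMod (2 ^ n)) with hf
      have hpow : ((2 : ZMod (2 ^ (n + 1))) ^ (n + 1)) = 0 := by
        have := ZMod.natCast_self (2 ^ (n + 1))
        push_cast at this
        exact this
      obtain ⟨e₀, h⟩ := ih (fun g => f (ψ g)) (EqN_chr_cast hψ f) (fun w => f (a w)) (by
          obtain ⟨w, w', b, hb⟩ := ha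
          refine ⟨w, w', f b, ?_⟩
          rw [← map_sub, hb, map_add, map_mul, map_one, map_ofNat])
        (fun v => f (η₁ v)) (by
          obtain ⟨v, hv⟩ := hη
          refine ⟨v, fun h0 => hv ?_⟩
          have h1 : f (2 * η₁ v) = 0 := by
            rw [map_mul, map_ofNat]
            exact h0
          obtain ⟨b, hb⟩ := EqN_cast_zero (Nat.le_succ n) _ h1
          rw [hη₁, hb]
          calc 2 * (2 ^ n * b) = 2 ^ (n + 1) * b := by ring
            _ = 0 := by rw [hpow, zero_mul]) ε hε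
      refine ⟨e₀, fun e he => ?_⟩
      have hterm : ∀ D, ZMod.stdAddChar (∑ v, η v * Tv A.W A.φ (tw ψ (A.h D)) a v)
          = ZMod.stdAddChar (∑ v, f (η₁ v)
            * Tv A.W A.φ (tw (fun g => f (ψ g)) (A.h D)) (fun w => f (a w)) v) := by
        intro D
        obtain ⟨_, _, _, _, _, l6, _⟩ := hL G ι A.W A.φ hG.uex hG.h2 (n + 1) (tw ψ (A.h D))
          (EqN_tw hψ (hG.hom D))
        have h1 : ∑ v, η v * Tv A.W A.φ (tw ψ (A.h D)) a v
            = 2 * ∑ v, η₁ v * Tv A.W A.φ (tw ψ (A.h D)) a v := by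
          rw [Finset.mul_sum]
          exact Finset.sum_congr rfl fun v _ => by rw [hη₁]; ring
        rw [h1, EqN_std, map_sum]
        congr 1
        refine Finset.sum_congr rfl fun v _ => ?_
        rw [map_mul, ← l6 n (Nat.le_succ n) a v, ← EqN_tw_cast ψ (A.h D) f]
      have h1 := h e he
      simp only [← hterm] at h1
      exact h1

end Pool.Agent.MP72W
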