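import Pool.Agent.Lib.MP_72e2e6_nt.W2.A.Spec

namespace Pool.Agent.MP72W

open Finset

/-- The elements of order dividing two. -/
private def Fix_M2 (M : Type) [AddCommGroup M] : AddSubgroup M where
  carrier := {m | m + m = 0}
  add_mem' := by
    intro a b ha hb
    show a + b + (a + b) = 0
    rw [add_add_add_comm, show a + a = 0 from ha, show b + b = 0 from hb, add_zero]
  zero_mem' := add_zero 0
  neg_mem' := by
    intro a ha
    show -a + -a = 0
    rw [← neg_add, show a + a = 0 from ha, neg_zero]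

private def Fix_f {G : Type} [Group G] [TopologicalSpace G] {M : Type} [AddCommGroup M]
    {ρ : G → M → M} (hρ : Act2 ρ) : G →* Equiv.Perm (Fix_M2 M) :=
  have h0 : ∀ g, ρ g 0 = 0 := fun g => by
    have h := hρ.add g 0 0
    rw [add_zero] at h
    exact left_eq_add.1 h
  have hm : ∀ g (x : Fix_M2 M), ρ g x ∈ Fix_M2 M := fun g x => by
    show ρ g x + ρ g x = 0
    rw [← hρ.add, show (x : M) + x = 0 from x.2, h0]
  MonoidHom.mk' (fun g =>
    { toFun := fun x => ⟨ρ g x, hm g x⟩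
      invFun := fun x => ⟨ρ g⁻¹ x, hm g⁻¹ x⟩
      left_inv := fun x => Subtype.ext (by
        show ρ g⁻¹ (ρ g x) = x
        rw [← hρ.mul, inv_mul_cancel, hρ.one])
      right_inv := fun x => Subtype.ext (by
        show ρ g (ρ g⁻¹ x) = x
        rw [← hρ.mul, mul_inv_cancel, hρ.one]) })
    (fun g h => Equiv.ext fun x => Subtype.ext (by
      show ρ (g * h) x = ρ g (ρ h x)
      exact hρ.mul g h x))

private theorem Fix_f_apply {G : Type} [Group G] [TopologicalSpace G] {M : Type} [AddCommGroup M]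
    {ρ : G → M → M} (hρ : Act2 ρ) (g : G) (x : Fix_M2 M) : ((Fix_f hρ g x : Fix_M2 M) : M) =
      ρ g x := rfl

theorem tFix : S_Fix := by
  intro G _ _ M _ _ ρ hρ r hr hM
  have h2 : Fact (Nat.Prime 2) := ⟨Nat.prime_two⟩
  have hP : IsPGroup 2 (Fix_f hρ).range := by
    rintro ⟨_, g, rfl⟩
    obtain ⟨k, hk⟩ := hρ.two g
    refine ⟨k, Subtype.ext ?_⟩
    show (Fix_f hρ g) ^ 2 ^ k = 1
    rw [← map_pow]
    refine Equiv.ext fun x => Subtype.ext ?_
    rw [Fix_f_apply]
    exact hk x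
  have hr0 : r ≠ 0 := by
    rintro rfl
    rw [pow_zero] at hr
    exact absurd hr (Finite.one_lt_card_iff_nontrivial.2 hM).ne'
  have hdvd : 2 ∣ Nat.card M := by
    rw [hr]
    exact dvd_pow_self 2 hr0
  have hcard : 2 ∣ Nat.card (Fix_M2 M) := by
    obtain ⟨x, hx⟩ := exists_prime_addOrderOf_dvd_card' (G := M) 2 hdvd
    have hx2 : x ∈ Fix_M2 M := by
      show x + x = 0
      rw [← two_nsmul, ← hx]
      exact addOrderOf_nsmul_eq_zero x
    have h3 : addOrderOf (⟨x, hx2⟩ : Fix_M2 M) = 2 := by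
      rw [← hx]
      exact (AddSubgroup.addOrderOf_mk x hx2)
    rw [← h3]
    exact addOrderOf_dvd_natCard _
  have h0 : (0 : Fix_M2 M) ∈ MulAction.fixedPoints (Fix_f hρ).range (Fix_M2 M) := by
    rintro ⟨_, g, rfl⟩
    refine Subtype.ext ?_
    show ρ g 0 = 0
    have h := hρ.add g 0 0
    rw [add_zero] at h
    exact left_eq_add.1 h
  obtain ⟨b, hb, hb0⟩ := hP.exists_fixed_point_of_prime_dvd_card_of_fixed_point
    (Fix_M2 M) hcard h0
  refine ⟨b, fun h => hb0 (Subtype.ext h.symm), b.2, fun g => ?_⟩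
  have h4 := hb ⟨Fix_f hρ g, g, rfl⟩
  exact congrArg Subtype.val h4

end Pool.Agent.MP72W
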