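import Pool.Agent.Lib.MP_72e2e6_nt.W2.A.Spec

/-!
# MP_72e2e6_nt, theorem T3, part A: the main theorem (`S_ThA`)
-/

set_option autoImplicit false

namespace Pool.Agent.MP72W

open Finset

private theorem ThA_z2 : ∀ x : ZMod 2, x = 0 ∨ x = 1 := by decide

private theorem ThA_sg (n : ℕ) (x y : ZMod 2) : sg n (x + y) = sg n x * sg n y := by
  unfold sg
  rcases ThA_z2 x with rfl | rfl <;> rcases ThA_z2 y with rfl | rfl
  · simp
  · simp
  · simp
  · have : (1 : ZMod 2) + 1 = 0 := by decide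
    rw [this]
    simp

private theorem ThA_hom_one {G : Type*} [Group G] [TopologicalSpace G] {h : G → ZMod 2}
    (hh : Hom2 h) : h 1 = 0 := by
  have h1 := hh.add 1 1
  rw [mul_one] at h1
  exact left_eq_add.1 h1

private theorem ThA_tw {G : Type*} [Group G] [TopologicalSpace G] {n : ℕ} {ψ : G → ZMod (2 ^ n)}
    (hψ : Chr ψ) {h : G → ZMod 2} (hh : Hom2 h) : Chr (tw ψ h) := by
  refine ⟨?_, ?_, fun a b => ?_⟩
  · exact hψ.loc.mul (hh.loc.comp (sg n))
  · unfold tw
    rw [hψ.one, ThA_hom_one hh]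
    simp [sg]
  · unfold tw
    rw [hψ.mul, hh.add, ThA_sg]
    ring

/-- the reduction -/
private noncomputable abbrev ThA_c (n : ℕ) : ZMod (2 ^ (n + 1)) →+* ZMod (2 ^ n) :=
  ZMod.castHom (pow_dvd_pow 2 (Nat.le_succ n)) (ZMod (2 ^ n))

private theorem ThA_cast {G : Type*} [Group G] [TopologicalSpace G] {n : ℕ}
    {ψ : G → ZMod (2 ^ (n + 1))} (hψ : Chr ψ) : Chr fun g => ThA_c n (ψ g) := by
  refine ⟨hψ.loc.comp (ThA_c n), ?_, fun a b => ?_⟩
  · show ThA_c n (ψ 1) = 1
    rw [hψ.one, map_one]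
  · show ThA_c n (ψ (a * b)) = ThA_c n (ψ a) * ThA_c n (ψ b)
    rw [hψ.mul, map_mul]

private theorem ThA_cast_tw {G : Type*} {n : ℕ} (ψ : G → ZMod (2 ^ (n + 1))) (h : G → ZMod 2) :
    tw (fun g => ThA_c n (ψ g)) h = fun g => ThA_c n (tw ψ h g) := by
  funext g
  show ThA_c n (ψ g) * sg n (h g) = ThA_c n (ψ g * sg (n + 1) (h g))
  rw [map_mul]
  congr 1
  unfold sg
  split_ifs
  · rw [map_one]
  · rw [map_neg, map_one]

private theorem ThA_two_pow (n : ℕ) : (2 : ZMod (2 ^ n)) ^ n = 0 := by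
  have h := ZMod.natCast_self (2 ^ n)
  push_cast at h
  exact h

private theorem ThA_two (n : ℕ) {x y : ZMod (2 ^ (n + 1))} (h : ThA_c n x = ThA_c n y) :
    2 * x = 2 * y := by
  obtain ⟨m, hm⟩ := ZMod.natCast_zmod_surjective (x - y)
  have h1 : ThA_c n (x - y) = 0 := by rw [map_sub, h, sub_self]
  rw [← hm, map_natCast, ZMod.natCast_eq_zero_iff] at h1
  obtain ⟨k, hk⟩ := h1
  have h0 : (2 : ZMod (2 ^ (n + 1))) ^ n * 2 = 0 :=
    (pow_succ (2 : ZMod (2 ^ (n + 1))) n).symm.trans (ThA_two_pow (n + 1))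
  have h2 : x - y = 2 ^ n * (k : ZMod (2 ^ (n + 1))) := by
    rw [← hm, hk]
    push_cast
    ring
  linear_combination 2 * h2 + (k : ZMod (2 ^ (n + 1))) * h0

private theorem ThA_lift (n : ℕ) (x : ZMod (2 ^ (n + 1))) :
    2 * (((ThA_c n x).val : ℕ) : ZMod (2 ^ (n + 1))) = 2 * x := by
  refine ThA_two n ?_
  rw [map_natCast, ZMod.natCast_zmod_val]

private theorem ThA_par (n : ℕ) (x : ZMod (2 ^ n)) : ∃ b, x = 2 * b ∨ x = 2 * b + 1 := by
  obtain ⟨m, hm⟩ := ZMod.natCast_zmod_surjective x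
  rcases Nat.even_or_odd' m with ⟨k, h | h⟩
  · exact ⟨(k : ZMod (2 ^ n)), Or.inl (by rw [← hm, h]; push_cast; ring)⟩
  · exact ⟨(k : ZMod (2 ^ n)), Or.inr (by rw [← hm, h]; push_cast; ring)⟩

/-- the step for one character -/
private theorem ThA_step (hLin : S_Lin) {G : Type} [Group G] [TopologicalSpace G]
    [IsTopologicalGroup G] {ι : Type} [Fintype ι] {W : Option ι → Subgroup G} {φ : Option ι → G}
    (hU : UEx W (φ none)) (hH : H2Z G) {n : ℕ} {χ : G → ZMod (2 ^ (n + 1))} (hχ : Chr χ) :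
    XX W φ χ ≤ {a : Option ι → ZMod (2 ^ (n + 1)) | (∃ w w' b, a w - a w' = 2 * b + 1) ∧
      ∀ v, Tv W φ χ a v = 0}.ncard + 2 * XX W φ (fun g => ThA_c n (χ g)) := by
  classical
  obtain ⟨-, -, hadd, -, hconst, -, -, h8⟩ := hLin G ι W φ hU hH (n + 1) χ hχ
  have h8' := h8 n rfl
  set N : Set (Option ι → ZMod (2 ^ (n + 1))) :=
    {a : Option ι → ZMod (2 ^ (n + 1)) | (∃ w w' b, a w - a w' = 2 * b + 1) ∧
      ∀ v, Tv W φ χ a v = 0} with hN
  set S' : Set (Option ι → ZMod (2 ^ n)) :=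
    {a : Option ι → ZMod (2 ^ n) | ∀ v, Tv W φ (fun g => ThA_c n (χ g)) a v = 0} with hS'
  let f : Bool × (Option ι → ZMod (2 ^ n)) → (Option ι → ZMod (2 ^ (n + 1))) := fun p w =>
    (if p.1 then 1 else 0) + 2 * (((p.2 w).val : ℕ) : ZMod (2 ^ (n + 1)))
  have hsub : {a : Option ι → ZMod (2 ^ (n + 1)) | ∀ v, Tv W φ χ a v = 0} ⊆
      N ∪ f '' (Set.univ ×ˢ S') := by
    intro a ha
    by_cases hc : ∃ w w' b, a w - a w' = 2 * b + 1
    · exact Or.inl ⟨hc, ha⟩
    · right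
      push Not at hc
      have h1 : ∀ w, ∃ b, a w - a none = 2 * b := by
        intro w
        obtain ⟨b, hb | hb⟩ := ThA_par (n + 1) (a w - a none)
        · exact ⟨b, hb⟩
        · exact absurd hb (hc w none b)
      choose b hb using h1
      obtain ⟨b₀, i, hi⟩ : ∃ (b₀ : ZMod (2 ^ (n + 1))) (i : Bool),
          a none = (if i then 1 else 0) + 2 * b₀ := by
        obtain ⟨b₀, h | h⟩ := ThA_par (n + 1) (a none)
        · exact ⟨b₀, false, by rw [h]; simp⟩
        · exact ⟨b₀, true, by rw [h]; simp [add_comm]⟩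
      have h2 : a = (fun _ => if i then 1 else 0) + fun w => 2 * (b₀ + b w) := by
        funext w
        show a w = (if i then 1 else 0) + 2 * (b₀ + b w)
        linear_combination hb w + hi
      have h3 : ∀ v, Tv W φ χ (fun w => 2 * (b₀ + b w)) v = 0 := by
        intro v
        have h4 := ha v
        rw [h2, hadd, hconst, zero_add] at h4
        exact h4
      refine ⟨(i, fun w => ThA_c n (b₀ + b w)), ⟨Set.mem_univ _, (h8' _).1 h3⟩, ?_⟩
      funext w
      show (if i then 1 else 0) + 2 * (((ThA_c n (b₀ + b w)).val : ℕ) : ZMod (2 ^ (n + 1))) = a w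
      rw [ThA_lift]
      exact (congrFun h2 w).symm
  have hfinN : N.Finite := Set.toFinite _
  have hfinS : (Set.univ ×ˢ S' : Set (Bool × (Option ι → ZMod (2 ^ n)))).Finite := Set.toFinite _
  calc XX W φ χ ≤ (N ∪ f '' (Set.univ ×ˢ S')).ncard :=
        Set.ncard_le_ncard hsub (Set.toFinite _)
    _ ≤ N.ncard + (f '' (Set.univ ×ˢ S')).ncard := Set.ncard_union_le _ _
    _ ≤ N.ncard + (Set.univ ×ˢ S' : Set (Bool × (Option ι → ZMod (2 ^ n)))).ncard :=
        Nat.add_le_add_left (Set.ncard_image_le hfinS) _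
    _ = N.ncard + 2 * XX W φ (fun g => ThA_c n (χ g)) := by
        rw [Set.ncard_prod, Set.ncard_univ, Nat.card_eq_fintype_card, Fintype.card_bool]
        rfl

private theorem ThA_sup {X : Type} [AddCommGroup X] {H K : AddSubgroup X}
    (h1 : (H : Set X).Finite) (h2 : (K : Set X).Finite) : ((H ⊔ K : AddSubgroup X) : Set X).Finite := by
  refine ((h1.prod h2).image fun p : X × X => p.1 + p.2).subset ?_
  intro x hx
  obtain ⟨y, hy, z, hz, rfl⟩ := AddSubgroup.mem_sup.1 hx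
  exact ⟨(y, z), ⟨hy, hz⟩, rfl⟩

private theorem ThA_fin {G ι X : Type} [Group G] [TopologicalSpace G] [AddCommGroup X] [Fintype ι]
    [DecidableEq ι] {A : Fam G ι X} (hA : A.Good) (e : Option ι → ℕ) :
    (A.D e : Set X).Finite := by
  have h : ∀ s : Finset (Option ι),
      ((⨆ w ∈ s, A.𝔇 w (e w) : AddSubgroup X) : Set X).Finite := by
    intro s
    induction s using Finset.induction_on with
    | empty => simp
    | insert w s _ ih =>
      rw [Finset.iSup_insert]
      exact ThA_sup (hA.fin w (e w)) ih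
  have h1 := h Finset.univ
  have e1 : (⨆ w ∈ (Finset.univ : Finset (Option ι)), A.𝔇 w (e w)) = A.D e := by
    simp [Fam.D]
  rwa [e1] at h1

theorem tThA : S_Lin → S_Cnt → S_ThA := by
  intro hLin hCnt G _ _ _ ι _ _ X _ A hA n hn
  classical
  induction n, hn using Nat.le_induction with
  | base =>
    intro ψ hψ ε hε
    refine ⟨0, fun e _ => ?_⟩
    have hfin := ThA_fin hA e
    rw [finsum_mem_eq_finite_toFinset_sum _ hfin]
    have hcard : (Nat.card (A.D e) : ℝ) = (hfin.toFinset.card : ℝ) := by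
      have : Nat.card (A.D e) = hfin.toFinset.card := by
        rw [← Set.ncard_eq_toFinset_card _ hfin]
        rfl
      rw [this]
    have h1 : ∀ D, (XX A.W A.φ (tw ψ (A.h D)) : ℝ) = 2 ^ (Fintype.card ι + 1) := by
      intro D
      obtain ⟨-, -, -, -, -, -, h7, -⟩ := hLin G ι A.W A.φ hA.uex hA.h2 1 _
        (ThA_tw hψ (hA.hom D))
      have h2 : {a : Option ι → ZMod (2 ^ 1) | ∀ v, Tv A.W A.φ (tw ψ (A.h D)) a v = 0} =
          Set.univ := by
        refine Set.eq_univ_of_forall fun a v => ?_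
        obtain ⟨b, hb⟩ := h7 a v
        rw [hb]
        have h3 : ∀ b : ZMod (2 ^ 1), 2 * b = 0 := by decide
        exact h3 b
      have h3 : XX A.W A.φ (tw ψ (A.h D)) = 2 ^ (Fintype.card ι + 1) := by
        unfold XX
        rw [h2, Set.ncard_univ, Nat.card_eq_fintype_card, Fintype.card_fun, ZMod.card,
          Fintype.card_option]
        rfl
      rw [h3]
      push_cast
      rfl
    simp only [h1]
    rw [Finset.sum_const, nsmul_eq_mul, hcard]
    have h4 : (0 : ℝ) ≤ (hfin.toFinset.card : ℝ) := Nat.cast_nonneg _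
    have h5 : (0 : ℝ) < 2 ^ (Fintype.card ι + 1) := by positivity
    have h6 : 0 ≤ ε * (2 ^ (Fintype.card ι + 1) * (hfin.toFinset.card : ℝ)) := by positivity
    push_cast
    linarith
  | succ n hn ih =>
    intro ψ hψ ε hε
    obtain ⟨e₁, he₁⟩ := ih (fun g => ThA_c n (ψ g)) (ThA_cast hψ) (ε / 2) (by positivity)
    obtain ⟨e₂, he₂⟩ := hCnt G ι X A hA (n + 1) (by omega) ψ hψ (ε / 2) (by positivity)
    refine ⟨max e₁ e₂, fun e he => ?_⟩
    have k1 := he₁ e fun w => (le_max_left _ _).trans (he w)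
    have k2 := he₂ e fun w => (le_max_right _ _).trans (he w)
    have hfin := ThA_fin hA e
    rw [finsum_mem_eq_finite_toFinset_sum _ hfin] at k1 k2 ⊢
    have h1 : ∀ D, (XX A.W A.φ (tw ψ (A.h D)) : ℝ) ≤
        ({a : Option ι → ZMod (2 ^ (n + 1)) | (∃ w w' b, a w - a w' = 2 * b + 1) ∧
          ∀ v, Tv A.W A.φ (tw ψ (A.h D)) a v = 0}.ncard : ℝ) +
        2 * (XX A.W A.φ (tw (fun g => ThA_c n (ψ g)) (A.h D)) : ℝ) := by
      intro D
      have h2 := ThA_step hLin (W := A.W) (φ := A.φ) hA.uex hA.h2 (ThA_tw hψ (hA.hom D))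
      rw [← ThA_cast_tw] at h2
      exact_mod_cast h2
    have h2 := Finset.sum_le_sum fun D (_ : D ∈ hfin.toFinset) => h1 D
    rw [Finset.sum_add_distrib, ← Finset.mul_sum] at h2
    refine h2.trans ?_
    have hc : (0 : ℝ) ≤ (Nat.card (A.D e) : ℝ) := Nat.cast_nonneg _
    have hP : (1 : ℝ) ≤ 2 ^ (Fintype.card ι + n) := one_le_pow₀ (by norm_num)
    have e1 : (2 : ℝ) ^ (Fintype.card ι + (n + 1)) = 2 * 2 ^ (Fintype.card ι + n) := by
      rw [← Nat.add_assoc, pow_succ]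
      ring
    rw [e1] at k2 ⊢
    generalize (2 : ℝ) ^ (Fintype.card ι + n) = P at *
    generalize (Nat.card (A.D e) : ℝ) = c at *
    push_cast
    have h3 : 0 ≤ (ε / 2) * ((2 * P - 1) * c) :=
      mul_nonneg (by positivity) (mul_nonneg (by linarith) hc)
    linarith [k1, k2, h3]

end Pool.Agent.MP72W
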