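import Pool.Agent.Lib.MP_72e2e6_nt.W2.A.Spec

/-!
# MP_72e2e6_nt, theorem T3, part A: unique existence of crossed homomorphisms
-/

namespace Pool.Agent.MP72W

open Finset

private theorem uniLcPi {G M : Type} [TopologicalSpace G] [Finite M] {f : G → M → M}
    (h : ∀ x, IsLocallyConstant fun g => f g x) : IsLocallyConstant f := by
  rw [IsLocallyConstant.iff_eventually_eq]
  intro g
  have h1 : ∀ x, ∀ᶠ g' in nhds g, f g' x = f g x := fun x =>
    (IsLocallyConstant.iff_eventually_eq _).1 (h x) g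
  have h2 := Filter.eventually_all.2 h1
  filter_upwards [h2] with g' hg'
  funext x
  exact hg' x

private theorem uniLcComp {A B C : Type} [TopologicalSpace A] [TopologicalSpace B] {f : B → C}
    (hf : IsLocallyConstant f) {k : A → B} (hk : Continuous k) :
    IsLocallyConstant fun a => f (k a) := hf.comp_continuous hk

private theorem uniLc2 {A B C D : Type} [TopologicalSpace A] {f : A → B} {g : A → C}
    (hf : IsLocallyConstant f) (hg : IsLocallyConstant g) (F : B → C → D) :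
    IsLocallyConstant fun a => F (f a) (g a) := hf.comp₂ hg F

private theorem uniZ (c : ZMod 2) : c = 0 ∨ c = 1 := by
  revert c
  decide

section

variable {G M : Type} [Group G] [TopologicalSpace G] [AddCommGroup M]

/-- The multiples of an element of order two. -/
private def uniSm (m₁ : M) (c : ZMod 2) : M := if c = 0 then 0 else m₁

private theorem uniSm_zero (m₁ : M) : uniSm m₁ 0 = 0 := if_pos rfl

private theorem uniSm_one (m₁ : M) : uniSm m₁ 1 = m₁ := if_neg (by decide)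

private theorem uniSm_add {m₁ : M} (h2 : m₁ + m₁ = 0) (c d : ZMod 2) :
    uniSm m₁ (c + d) = uniSm m₁ c + uniSm m₁ d := by
  rcases uniZ c with rfl | rfl <;> rcases uniZ d with rfl | rfl
  · rw [add_zero, uniSm_zero, add_zero]
  · rw [zero_add, uniSm_zero, zero_add]
  · rw [add_zero, uniSm_zero, add_zero]
  · rw [show (1 : ZMod 2) + 1 = 0 by decide, uniSm_zero, uniSm_one, h2]

private theorem uniSm_neg {m₁ : M} (h2 : m₁ + m₁ = 0) (c : ZMod 2) :
    -uniSm m₁ c = uniSm m₁ c := by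
  rcases uniZ c with rfl | rfl
  · rw [uniSm_zero, neg_zero]
  · rw [uniSm_one]
    exact neg_eq_of_add_eq_zero_left h2

private theorem uniSm_inj {m₁ : M} (h0 : m₁ ≠ 0) {c d : ZMod 2} (h : uniSm m₁ c = uniSm m₁ d) :
    c = d := by
  rcases uniZ c with rfl | rfl <;> rcases uniZ d with rfl | rfl
  · rfl
  · rw [uniSm_zero, uniSm_one] at h
    exact absurd h.symm h0
  · rw [uniSm_zero, uniSm_one] at h
    exact absurd h h0
  · rfl

private theorem uniSm_fix {ρ : G → M → M} (hρ : Act2 ρ) {m₁ : M} (hf : ∀ g, ρ g m₁ = m₁) (g : G)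
    (c : ZMod 2) : ρ g (uniSm m₁ c) = uniSm m₁ c := by
  rcases uniZ c with rfl | rfl
  · rw [uniSm_zero]
    have := hρ.add g 0 0
    rw [add_zero] at this
    exact left_eq_add.1 this
  · rw [uniSm_one]
    exact hf g

/-- The subgroup of order two. -/
private def uniN {m₁ : M} (h2 : m₁ + m₁ = 0) : AddSubgroup M :=
  AddMonoidHom.range (AddMonoidHom.mk' (uniSm m₁) (uniSm_add h2))

private theorem mem_uniN {m₁ : M} {h2 : m₁ + m₁ = 0} {x : M} :
    x ∈ uniN h2 ↔ ∃ c, uniSm m₁ c = x := Iff.rfl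

private theorem uniN_card {m₁ : M} {h2 : m₁ + m₁ = 0} (h0 : m₁ ≠ 0) : Nat.card (uniN h2) = 2 := by
  have h : Function.Injective (AddMonoidHom.mk' (uniSm m₁) (uniSm_add h2)) :=
    fun c d h => uniSm_inj h0 h
  have e := Nat.card_congr (AddMonoidHom.ofInjective h).toEquiv
  rw [Nat.card_zmod] at e
  exact e.symm

private theorem rho_zero {ρ : G → M → M} (hρ : Act2 ρ) (g : G) : ρ g 0 = 0 := by
  have := hρ.add g 0 0
  rw [add_zero] at this
  exact left_eq_add.1 this

private theorem rho_neg {ρ : G → M → M} (hρ : Act2 ρ) (g : G) (x : M) : ρ g (-x) = -ρ g x := by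
  have := hρ.add g (-x) x
  rw [neg_add_cancel, rho_zero hρ] at this
  exact (neg_eq_of_add_eq_zero_left this.symm).symm

private theorem rho_sub {ρ : G → M → M} (hρ : Act2 ρ) (g : G) (x y : M) :
    ρ g (x - y) = ρ g x - ρ g y := by
  rw [sub_eq_add_neg, hρ.add, rho_neg hρ, sub_eq_add_neg]

/-- The induced operators. -/
private def uniQ {ρ : G → M → M} (hρ : Act2 ρ) {m₁ : M} (h2 : m₁ + m₁ = 0)
    (hf : ∀ g, ρ g m₁ = m₁) (g : G) : M ⧸ uniN h2 → M ⧸ uniN h2 :=
  QuotientAddGroup.map (uniN h2) (uniN h2) (AddMonoidHom.mk' (ρ g) (hρ.add g)) (by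
    rintro x ⟨c, rfl⟩
    exact ⟨c, (uniSm_fix hρ hf g c).symm⟩)

private theorem uniQ_mk {ρ : G → M → M} (hρ : Act2 ρ) {m₁ : M} (h2 : m₁ + m₁ = 0)
    (hf : ∀ g, ρ g m₁ = m₁) (g : G) (x : M) :
    uniQ hρ h2 hf g (QuotientAddGroup.mk x) = QuotientAddGroup.mk (ρ g x) := rfl

private theorem uniQ_act {ρ : G → M → M} (hρ : Act2 ρ) {m₁ : M} (h2 : m₁ + m₁ = 0)
    (hf : ∀ g, ρ g m₁ = m₁) : Act2 (uniQ hρ h2 hf) := by
  constructor
  · intro g x y
    obtain ⟨x, rfl⟩ := QuotientAddGroup.mk_surjective x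
    obtain ⟨y, rfl⟩ := QuotientAddGroup.mk_surjective y
    rw [← QuotientAddGroup.mk_add, uniQ_mk, uniQ_mk, uniQ_mk, hρ.add, QuotientAddGroup.mk_add]
  · intro x
    obtain ⟨x, rfl⟩ := QuotientAddGroup.mk_surjective x
    rw [uniQ_mk, hρ.one]
  · intro g h x
    obtain ⟨x, rfl⟩ := QuotientAddGroup.mk_surjective x
    rw [uniQ_mk, uniQ_mk, uniQ_mk, hρ.mul]
  · intro x
    obtain ⟨x, rfl⟩ := QuotientAddGroup.mk_surjective x
    exact (hρ.loc x).comp (QuotientAddGroup.mk : M → M ⧸ uniN h2)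
  · intro g
    obtain ⟨k, hk⟩ := hρ.two g
    refine ⟨k, fun x => ?_⟩
    obtain ⟨x, rfl⟩ := QuotientAddGroup.mk_surjective x
    rw [uniQ_mk, hk]

private theorem mk_eq {m₁ : M} {h2 : m₁ + m₁ = 0} {x y : M}
    (h : (QuotientAddGroup.mk x : M ⧸ uniN h2) = QuotientAddGroup.mk y) :
    ∃ c, uniSm m₁ c = x - y := by
  have h1 := (QuotientAddGroup.eq (s := uniN h2)).1 h.symm
  rw [neg_add_eq_sub] at h1
  exact mem_uniN.1 h1

end

private theorem uniAux (hFix : S_Fix) (G : Type) [Group G] [TopologicalSpace G]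
    [IsTopologicalGroup G] (S : Type) (W : S → Subgroup G) (φ₀ : G) (hU : UEx W φ₀) (hH : H2Z G) :
    ∀ (r : ℕ) (M : Type) [AddCommGroup M] [Finite M], Nat.card M = 2 ^ r →
      ∀ ρ : G → M → M, Act2 ρ → ∀ Zw : ∀ w, W w → M, (∀ w, Coc (fun g : W w => ρ g) (Zw w)) →
        ∀ m₀ : M, ∃! Z : G → M, Coc ρ Z ∧ (∀ w (g : W w), Z g = Zw w g) ∧ Z φ₀ = m₀ := by
  intro r
  induction r with
  | zero =>
    intro M _ _ hM ρ hρ Zw hZw m₀
    rw [pow_zero, Nat.card_eq_one_iff_unique] at hM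
    obtain ⟨hs, -⟩ := hM
    refine ⟨0, ⟨⟨IsLocallyConstant.const 0, fun g h => Subsingleton.elim _ _⟩,
      fun w g => Subsingleton.elim _ _, Subsingleton.elim _ _⟩, fun Z _ => ?_⟩
    funext g
    exact Subsingleton.elim _ _
  | succ r ih =>
    intro M _ _ hM ρ hρ Zw hZw m₀
    have hnt : Nontrivial M := by
      rw [← Finite.one_lt_card_iff_nontrivial, hM]
      exact Nat.one_lt_two_pow (Nat.succ_ne_zero r)
    obtain ⟨m₁, h0, h2, hf⟩ := hFix G M ρ hρ (r + 1) hM hnt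
    have hcard : Nat.card (M ⧸ uniN h2) = 2 ^ r := by
      have e := AddSubgroup.card_eq_card_quotient_mul_card_addSubgroup (uniN h2)
      rw [uniN_card h0, hM, pow_succ] at e
      exact (Nat.eq_of_mul_eq_mul_right two_pos e).symm
    obtain ⟨Z2, ⟨hZ2c, hZ2w, hZ20⟩, hZ2u⟩ := ih (M ⧸ uniN h2) hcard (uniQ hρ h2 hf)
      (uniQ_act hρ h2 hf) (fun w g => QuotientAddGroup.mk (Zw w g))
      (fun w => ⟨(hZw w).loc.comp _, fun g h => by
        rw [(hZw w).mul, uniQ_mk, QuotientAddGroup.mk_add]⟩) (QuotientAddGroup.mk m₀)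
    -- coordinates of the elements of `N`
    obtain ⟨t, ht⟩ : ∃ t : M → ZMod 2, ∀ c, t (uniSm m₁ c) = c :=
      ⟨Function.invFun (uniSm m₁), fun c =>
        Function.leftInverse_invFun (fun c d h => uniSm_inj h0 h) c⟩
    have hst : ∀ x, (∃ c, uniSm m₁ c = x) → uniSm m₁ (t x) = x := by
      rintro _ ⟨c, rfl⟩
      rw [ht]
    have hloc : IsLocallyConstant ρ := uniLcPi hρ.loc
    -- uniqueness
    have huniq : ∀ Z Z' : G → M, (Coc ρ Z ∧ (∀ w (g : W w), Z g = Zw w g) ∧ Z φ₀ = m₀) →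
        (Coc ρ Z' ∧ (∀ w (g : W w), Z' g = Zw w g) ∧ Z' φ₀ = m₀) → Z = Z' := by
      rintro Z Z' ⟨h1, h3, h4⟩ ⟨h1', h3', h4'⟩
      have hq : ∀ Y : G → M, (Coc ρ Y ∧ (∀ w (g : W w), Y g = Zw w g) ∧ Y φ₀ = m₀) →
          (fun g => (QuotientAddGroup.mk (Y g) : M ⧸ uniN h2)) = Z2 := by
        rintro Y ⟨y1, y2, y3⟩
        apply hZ2u
        refine ⟨⟨y1.loc.comp _, fun g h => ?_⟩, fun w g => ?_, ?_⟩
        · rw [y1.mul, uniQ_mk, QuotientAddGroup.mk_add]
        · rw [y2]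
        · rw [y3]
      have hd : ∀ g, uniSm m₁ (t (Z g - Z' g)) = Z g - Z' g := by
        intro g
        apply hst
        apply mk_eq (h2 := h2)
        have e1 := congrFun (hq Z ⟨h1, h3, h4⟩) g
        have e2 := congrFun (hq Z' ⟨h1', h3', h4'⟩) g
        exact e1.trans e2.symm
      have hH : Hom2 (fun g => t (Z g - Z' g)) := by
        refine ⟨uniLc2 h1.loc h1'.loc fun x y => t (x - y), fun a b => ?_⟩
        apply uniSm_inj h0
        rw [uniSm_add h2, hd, hd, hd, h1.mul, h1'.mul]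
        have e : ρ a (Z b - Z' b) = Z b - Z' b := by
          rw [← hd b]
          exact uniSm_fix hρ hf a _
        rw [rho_sub hρ] at e
        rw [← e]
        abel
      obtain ⟨H, hH1, hH2⟩ := hU (fun w _ => 0)
        (fun w => ⟨IsLocallyConstant.const 0, fun _ _ => (add_zero 0).symm⟩) 0
      have e0 : (fun g => t (Z g - Z' g)) = H := by
        apply hH2
        refine ⟨hH, fun w g => ?_, ?_⟩
        · rw [h3, h3', sub_self, ← uniSm_zero m₁, ht]
        · rw [h4, h4', sub_self, ← uniSm_zero m₁, ht]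
      have e1 : (fun _ : G => (0 : ZMod 2)) = H := by
        apply hH2
        exact ⟨⟨IsLocallyConstant.const 0, fun _ _ => (add_zero 0).symm⟩, fun _ _ => rfl, rfl⟩
      funext g
      have e2 := congrFun (e0.trans e1.symm) g
      have e3 := hd g
      change t (Z g - Z' g) = 0 at e2
      rw [e2, uniSm_zero] at e3
      exact sub_eq_zero.1 e3.symm
    -- existence
    obtain ⟨s, hs⟩ : ∃ s : M ⧸ uniN h2 → M, ∀ x, (QuotientAddGroup.mk (s x) : M ⧸ uniN h2) = x :=
      ⟨Function.surjInv QuotientAddGroup.mk_surjective,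
        Function.surjInv_eq QuotientAddGroup.mk_surjective⟩
    set Z1 : G → M := fun g => s (Z2 g) with hZ1
    have hZ1l : IsLocallyConstant Z1 := hZ2c.loc.comp s
    have hm : ∀ g h, uniSm m₁ (t (Z1 g + ρ g (Z1 h) - Z1 (g * h))) =
        Z1 g + ρ g (Z1 h) - Z1 (g * h) := by
      intro g h
      apply hst
      apply mk_eq (h2 := h2)
      rw [QuotientAddGroup.mk_add, ← uniQ_mk hρ h2 hf, hs, hs, hs, hZ2c.mul]
    obtain ⟨b, hbl, hb⟩ := hH (fun g h => t (Z1 g + ρ g (Z1 h) - Z1 (g * h))) (by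
      have e1 : IsLocallyConstant fun p : G × G => Z1 p.1 := uniLcComp hZ1l continuous_fst
      have e2 : IsLocallyConstant fun p : G × G => Z1 p.2 := uniLcComp hZ1l continuous_snd
      have e3 : IsLocallyConstant fun p : G × G => Z1 (p.1 * p.2) :=
        uniLcComp hZ1l continuous_mul
      have e4 : IsLocallyConstant fun p : G × G => ρ p.1 := uniLcComp hloc continuous_fst
      exact uniLc2 (uniLc2 e1 (uniLc2 e4 e2 fun r x => r x) fun x y => x + y) e3
        fun x y => t (x - y)) (by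
      intro a b d
      apply uniSm_inj h0
      rw [uniSm_add h2, uniSm_add h2, uniSm_add h2, uniSm_zero]
      have n1 := uniSm_fix hρ hf a (t (Z1 b + ρ b (Z1 d) - Z1 (b * d)))
      have n2 := uniSm_neg h2 (t (Z1 (a * b) + ρ (a * b) (Z1 d) - Z1 (a * b * d)))
      have n4 := uniSm_neg h2 (t (Z1 a + ρ a (Z1 b) - Z1 (a * b)))
      rw [← n1, ← n2, ← n4, hm b d, hm (a * b) d, hm a (b * d), hm a b, rho_sub hρ, hρ.add,
        hρ.mul, mul_assoc]
      abel)
    have hZ3 : ∀ g h, Z1 (g * h) + uniSm m₁ (b (g * h)) =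
        (Z1 g + uniSm m₁ (b g)) + ρ g (Z1 h + uniSm m₁ (b h)) := by
      intro g h
      have e1 := hm g h
      rw [hb, uniSm_add h2, uniSm_add h2] at e1
      rw [hρ.add, uniSm_fix hρ hf]
      have e2 : Z1 (g * h) = Z1 g + ρ g (Z1 h) -
          (uniSm m₁ (b g) + uniSm m₁ (b h) + uniSm m₁ (b (g * h))) := by
        rw [e1]
        abel
      have n1 := uniSm_neg h2 (b g)
      have n2 := uniSm_neg h2 (b h)
      rw [e2]
      nth_rewrite 1 [← n1]
      nth_rewrite 1 [← n2]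
      abel
    have hZ3c : Coc ρ (fun g => Z1 g + uniSm m₁ (b g)) :=
      ⟨uniLc2 hZ1l hbl fun x y => x + uniSm m₁ y, hZ3⟩
    have hq : ∀ g, (QuotientAddGroup.mk (Z1 g + uniSm m₁ (b g)) : M ⧸ uniN h2) = Z2 g := by
      intro g
      have e : (QuotientAddGroup.mk (uniSm m₁ (b g)) : M ⧸ uniN h2) = 0 := by
        rw [QuotientAddGroup.eq_zero_iff]
        exact ⟨b g, rfl⟩
      rw [QuotientAddGroup.mk_add, e, add_zero, hs]
    have hw : ∀ w (g : W w), uniSm m₁ (t (Z1 g + uniSm m₁ (b g) - Zw w g)) =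
        Z1 g + uniSm m₁ (b g) - Zw w g := by
      intro w g
      apply hst
      apply mk_eq (h2 := h2)
      rw [hq, hZ2w]
    have hφ : uniSm m₁ (t (Z1 φ₀ + uniSm m₁ (b φ₀) - m₀)) = Z1 φ₀ + uniSm m₁ (b φ₀) - m₀ := by
      apply hst
      apply mk_eq (h2 := h2)
      rw [hq, hZ20]
    obtain ⟨H, ⟨hH1, hH2, hH3⟩, -⟩ := hU
      (fun w (g : W w) => t (Z1 g + uniSm m₁ (b g) - Zw w g)) (fun w => by
        refine ⟨?_, fun x y => ?_⟩
        · exact uniLc2 (uniLcComp hZ3c.loc (continuous_subtype_val (p := fun g => g ∈ W w)))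
            (hZw w).loc fun x y => t (x - y)
        · apply uniSm_inj h0
          rw [uniSm_add h2, hw, hw, hw, (hZw w).mul, Subgroup.coe_mul, hZ3]
          have e : ρ x (Z1 y + uniSm m₁ (b y) - Zw w y) = Z1 y + uniSm m₁ (b y) - Zw w y := by
            rw [← hw]
            exact uniSm_fix hρ hf _ _
          rw [rho_sub hρ] at e
          rw [← e]
          abel) (t (Z1 φ₀ + uniSm m₁ (b φ₀) - m₀))
    have hsol : Coc ρ (fun g => Z1 g + uniSm m₁ (b g) - uniSm m₁ (H g)) ∧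
        (∀ w (g : W w), Z1 g + uniSm m₁ (b g) - uniSm m₁ (H g) = Zw w g) ∧
        Z1 φ₀ + uniSm m₁ (b φ₀) - uniSm m₁ (H φ₀) = m₀ := by
      refine ⟨⟨uniLc2 hZ3c.loc hH1.loc fun x y => x - uniSm m₁ y, fun g h => ?_⟩, fun w g => ?_, ?_⟩
      · rw [hZ3, hH1.add, uniSm_add h2, rho_sub hρ, uniSm_fix hρ hf]
        abel
      · rw [hH2, hw]
        abel
      · rw [hH3, hφ]
        abel
    exact ⟨_, hsol, fun Z hZ => huniq Z _ hZ hsol⟩

theorem tUni : S_Fix → S_Uni := by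
  intro hFix G _ _ _ S W φ₀ hU hH M _ _ r hM ρ hρ Zw hZw m₀
  exact uniAux hFix G S W φ₀ hU hH r M hM ρ hρ Zw hZw m₀

end Pool.Agent.MP72W
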