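import Pool.Agent.Lib.MP_72e2e6_nt.W2.A.Spec

/-!
# MP_72e2e6_nt, theorem T3, part A: the derivative as a linear function
-/

namespace Pool.Agent.MP72W

open Finset

private theorem zetZ (c : ZMod 2) : c = 0 ∨ c = 1 := by
  revert c
  decide

private theorem zetSg_zero (n : ℕ) : sg n 0 = 1 := if_pos rfl

private theorem zetSg_one (n : ℕ) : sg n 1 = -1 := if_neg (by decide)

private theorem zetSg_add (n : ℕ) (c d : ZMod 2) : sg n (c + d) = sg n c * sg n d := by
  rcases zetZ c with rfl | rfl <;> rcases zetZ d with rfl | rfl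
  · rw [add_zero, zetSg_zero, mul_one]
  · rw [zero_add, zetSg_zero, one_mul]
  · rw [add_zero, zetSg_zero, mul_one]
  · rw [show (1 : ZMod 2) + 1 = 0 by decide, zetSg_zero, zetSg_one, neg_mul_neg, mul_one]

private theorem zetHom_one {G : Type} [Group G] [TopologicalSpace G] {h : G → ZMod 2}
    (hh : Hom2 h) : h 1 = 0 := by
  have := hh.add 1 1
  rw [mul_one] at this
  exact left_eq_add.1 this

private theorem zetLc2 {A B C D : Type} [TopologicalSpace A] {f : A → B} {g : A → C}
    (hf : IsLocallyConstant f) (hg : IsLocallyConstant g) (F : B → C → D) :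
    IsLocallyConstant fun a => F (f a) (g a) := hf.comp₂ hg F

private theorem zetLcPi {G J B : Type} [TopologicalSpace G] [Finite J] {f : G → J → B}
    (h : ∀ x, IsLocallyConstant fun g => f g x) : IsLocallyConstant f := by
  rw [IsLocallyConstant.iff_eventually_eq]
  intro g
  have h1 : ∀ x, ∀ᶠ g' in nhds g, f g' x = f g x := fun x =>
    (IsLocallyConstant.iff_eventually_eq _).1 (h x) g
  have h2 := Filter.eventually_all.2 h1
  filter_upwards [h2] with g' hg'
  funext x
  exact hg' x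

private theorem zetLcC {G B : Type} [Group G] [TopologicalSpace G] {H : Subgroup G} {f : G → B}
    (h : IsLocallyConstant f) : IsLocallyConstant fun g : H => f g :=
  h.comp_continuous (continuous_subtype_val (p := fun g => g ∈ H))

private theorem zetTw {G : Type} [Group G] [TopologicalSpace G] {n : ℕ} {ψ : G → ZMod (2 ^ n)}
    (hψ : Chr ψ) {h : G → ZMod 2} (hh : Hom2 h) : Chr (tw ψ h) := by
  refine ⟨zetLc2 hψ.loc hh.loc fun x y => x * sg n y, ?_, fun a b => ?_⟩
  · unfold tw
    rw [hψ.one, zetHom_one hh, zetSg_zero, mul_one]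
  · unfold tw
    rw [hψ.mul, hh.add, zetSg_add]
    ring

private theorem zetAct2 {G : Type} [Group G] [TopologicalSpace G] {k : ℕ}
    {δ : Fin k → G → ZMod 2} (hδ : ∀ j, Hom2 (δ j)) :
    Act2 (fun (g : G) (f : (Fin k → ZMod 2) → ZMod 2) τ => f (fun j => τ j + δ j g)) := by
  refine ⟨fun g x y => rfl, fun x => ?_, fun g h x => ?_, fun x => ?_, fun g => ⟨1, fun x => ?_⟩⟩
  · funext τ
    simp only [zetHom_one (hδ _), add_zero]
  · funext τ
    simp only [(hδ _).add, add_assoc]
  · exact (zetLcPi (f := fun g j => δ j g) fun j => (hδ j).loc).comp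
      fun d => fun (τ : Fin k → ZMod 2) => x (fun j => τ j + d j)
  · funext τ
    have : ∀ j, δ j (g ^ 2 ^ 1) = 0 := fun j => by
      rw [pow_one, pow_two, (hδ j).add, CharTwo.add_self_eq_zero]
    simp only [this, add_zero]

section

variable {G : Type} [Group G] [TopologicalSpace G] {ι X : Type} [DecidableEq ι] [AddCommGroup X]

/-- The conditions on `ζ`. -/
private structure ZetP (A : Fam G ι X) {m : ℕ} (δ : Fin m → X) (w₁ : ι) (x : X)
    (ζ : G → (Fin m → ZMod 2) → ZMod 2) : Prop where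
  loc : IsLocallyConstant ζ
  mul : ∀ g g' τ, ζ (g * g') τ = ζ g τ + ζ g' (fun j => τ j + A.h (δ j) g)
  off : ∀ w, w ≠ some w₁ → ∀ g ∈ A.W w, ∀ τ, ζ g τ = 0
  on : ∀ g ∈ A.W (some w₁), ∀ τ, ζ g τ = if τ = 0 then A.h x g else 0
  inf : ∀ τ, ζ (A.φ none) τ = 0

private theorem zetEx (hUni : S_Uni) [IsTopologicalGroup G] {A : Fam G ι X} (hA : A.Good) {m : ℕ}
    {δ : Fin m → X} (hδ : ∃ e, ∀ j, δ j ∈ A.𝔇 none e) (w₁ : ι) (x : X) :
    ∃! ζ, ZetP A δ w₁ x ζ := by
  classical
  obtain ⟨e, he⟩ := hδ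
  have hcard : Nat.card ((Fin m → ZMod 2) → ZMod 2) = 2 ^ 2 ^ m := by
    rw [Nat.card_fun, Nat.card_zmod, Nat.card_fun, Nat.card_zmod, Nat.card_fin]
  obtain ⟨ζ, ⟨h1, h2, h3⟩, hu⟩ := hUni G (Option ι) A.W (A.φ none) hA.uex hA.h2
    ((Fin m → ZMod 2) → ZMod 2) _ hcard _ (zetAct2 fun j => hA.hom (δ j))
    (fun w g τ => if w = some w₁ then (if τ = 0 then A.h x g else 0) else 0)
    (fun w => by
      by_cases hw : w = some w₁
      · subst hw
        simp only [if_true]
        refine ⟨(zetLcC (H := A.W (some w₁)) (hA.hom x).loc).comp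
          fun c (τ : Fin m → ZMod 2) => if τ = 0 then c else 0, fun g h => ?_⟩
        funext τ
        have e1 : ∀ j, A.h (δ j) (g : G) = 0 := fun j =>
          hA.off none e (δ j) (he j) (some w₁) (by simp) g g.2
        simp only [Pi.add_apply, e1, add_zero, Subgroup.coe_mul, (hA.hom x).add]
        split_ifs
        · rfl
        · rw [add_zero]
      · simp only [hw, if_false]
        exact ⟨IsLocallyConstant.const _, fun g h => (add_zero _).symm⟩) 0
  refine ⟨ζ, ⟨h1.loc, fun g g' τ => ?_, fun w hw g hg τ => ?_, fun g hg τ => ?_, fun τ => ?_⟩,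
    fun ζ' hζ' => ?_⟩
  · exact congrFun (h1.mul g g') τ
  · have := congrFun (h2 w ⟨g, hg⟩) τ
    simp only [hw, if_false] at this
    exact this
  · have := congrFun (h2 (some w₁) ⟨g, hg⟩) τ
    simp only [if_true] at this
    exact this
  · exact congrFun h3 τ
  · apply hu
    refine ⟨⟨hζ'.loc, fun g g' => funext fun τ => hζ'.mul g g' τ⟩, fun w g => ?_, ?_⟩
    · funext τ
      split_ifs with hw ht
      · subst hw
        rw [hζ'.on g g.2, if_pos ht]
      · subst hw
        rw [hζ'.on g g.2, if_neg ht]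
      · exact hζ'.off w hw g g.2 τ
    · funext τ
      exact hζ'.inf τ

end

theorem tZet : S_Uni → S_Der → S_Zet := by
  classical
  intro hUni hDer G _ _ _ ι _ _ X _ A hA m hm δ hδ hφ hli w₁ v₀
  have hex := fun x => zetEx hUni hA hδ w₁ x
  choose Z hZ hZu using hex
  obtain ⟨e₁, δ₁, hδ₁, ζ, z1, z2, z3, z4, z5, z6⟩ := hA.axm m hm δ hδ hφ hli w₁ v₀
  refine ⟨fun x v => Z x (A.φ (some v)) (fun _ => 1), ⟨e₁, δ₁, hδ₁, fun v => ?_⟩, ?_, ?_⟩
  · change Z δ₁ (A.φ (some v)) (fun _ => 1) = _
    rw [← hZu δ₁ ζ ⟨z1, z2, z3, z4, z5⟩]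
    exact z6 v
  · intro e x hx y hy v
    change Z (x + y) (A.φ (some v)) (fun _ => 1) = Z x (A.φ (some v)) (fun _ => 1) +
      Z y (A.φ (some v)) (fun _ => 1)
    rw [← hZu (x + y) (fun g τ => Z x g τ + Z y g τ) ?_]
    refine ⟨zetLc2 (hZ x).loc (hZ y).loc fun a b τ => a τ + b τ, fun g g' τ => ?_,
      fun w hw g hg τ => ?_, fun g hg τ => ?_, fun τ => ?_⟩
    · simp only [(hZ x).mul, (hZ y).mul]
      ring
    · simp only [(hZ x).off w hw g hg, (hZ y).off w hw g hg, add_zero]
    · simp only [(hZ x).on g hg, (hZ y).on g hg, hA.add]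
      split_ifs
      · rfl
      · rw [add_zero]
    · simp only [(hZ x).inf, (hZ y).inf, add_zero]
  · intro e x hx ψ hψ a ha0 ha1 D v
    obtain ⟨e', he'⟩ := hδ
    have h := hDer G ι A.W A.φ hA.uex hA.h2 m hm (tw ψ (A.h D)) (zetTw hψ (hA.hom D))
      (Fin.cons (A.h x) fun j => A.h (δ j))
      (fun j => by
        refine Fin.cases ?_ (fun j => ?_) j
        · exact hA.hom x
        · exact hA.hom (δ j)) w₁
      (fun w hw g hg => hA.off (some w₁) e x hx w hw g hg) (hA.phi (some w₁) e x hx).2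
      (fun j w hw g hg => hA.off none e' (δ j) (he' j) w hw g hg) (fun j w => hφ j w)
      a ha0 ha1 (Z x) (hZ x).loc (hZ x).mul (hZ x).off (hZ x).on (hZ x).inf v
    rw [← h]
    refine Finset.sum_congr rfl fun ω _ => ?_
    congr 2
    funext g
    have e1 : A.h (∑ j, if ω j = 0 then 0 else (Fin.cons x δ : Fin (m + 1) → X) j) g =
        ∑ j, ω j * (Fin.cons (A.h x) (fun j => A.h (δ j)) : Fin (m + 1) → G → ZMod 2) j g := by
      have e2 := map_sum (AddMonoidHom.mk' (fun x => A.h x g) fun x y => hA.add x y g)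
        (fun j => if ω j = 0 then 0 else (Fin.cons x δ : Fin (m + 1) → X) j) Finset.univ
      refine e2.trans (Finset.sum_congr rfl fun j _ => ?_)
      have e3 : A.h 0 g = 0 := by
        have := hA.add 0 0 g
        rw [add_zero] at this
        exact left_eq_add.1 this
      have e4 : (Fin.cons (A.h x) (fun j => A.h (δ j)) : Fin (m + 1) → G → ZMod 2) j g =
          A.h ((Fin.cons x δ : Fin (m + 1) → X) j) g := by
        refine Fin.cases rfl (fun j => rfl) j
      rw [e4]
      rcases zetZ (ω j) with h0 | h0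
      · rw [h0, if_pos rfl, zero_mul]
        exact e3
      · rw [h0, if_neg (by decide), one_mul]
        rfl
    unfold tw
    rw [hA.add, e1, zetSg_add]
    ring

end Pool.Agent.MP72W
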