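import Pool.Agent.Lib.MP_72e2e6_nt.W2.A.Defs

/-!
# MP_72e2e6_nt, theorem T3 (100 percent of the wild quadratic twists), part A (abstract part)

The proofs are complete in the docstrings; every module is independent (used statements are
hypotheses): file `W2/A/<Name>.lean` (import this file only) with `theorem t<Name> : S_<Name>` or
`theorem t<Name> (h1 : S_X) (h2 : S_Y) .. : S_<Name>` (the used statements in the order of the
docstring), namespace `Pool.Agent.MP72W`, other declarations `private`.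
In `ZMod (2 ^ n)` the element `x` is called even if `x = 2 * y` for some `y`, odd if `x = 2 * y + 1`.
`e(x) = ZMod.stdAddChar x` for `x ∈ ZMod (2 ^ n)`. All types are in `Type`. `s = Nat.card ι + 1` is the number of places.
-/

namespace Pool.Agent.MP72W

open Finset

/-- **Fix** (60 lines). A finite `2`-group `M ≠ 0` with an action of the type `Act2` has a fixed
element of order two.

Proof. Let `M₂ = {m | m + m = 0}` (an additive subgroup, stable under the `ρ g`). It is not `0`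
(an element of order two exists as `2 ∣ Nat.card M`, `exists_prime_addOrderOf_dvd_card`), and its
order is a power of `2` (Lagrange), so even. The maps `ρ g` restricted to `M₂` define a homomorphism
`G → Equiv.Perm M₂` (inverse of `ρ g`: `ρ g⁻¹`); its range is a `2`-group by `Act2.two`
(`IsPGroup`), so the number of the fixed points is congruent to the order of `M₂` modulo `2`
(`IsPGroup.card_modEq_card_fixedPoints`), hence even; `0` is a fixed point, so there is another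
one. -/
def S_Fix : Prop :=
  ∀ (G : Type) [Group G] [TopologicalSpace G] (M : Type) [AddCommGroup M] [Finite M]
    (ρ : G → M → M), Act2 ρ → ∀ r : ℕ, Nat.card M = 2 ^ r → Nontrivial M →
      ∃ m₁ : M, m₁ ≠ 0 ∧ m₁ + m₁ = 0 ∧ ∀ g, ρ g m₁ = m₁

/-- **Uni** (250 lines, uses `S_Fix`; the main lemma of existence and uniqueness). The same statement
as `UEx` for crossed homomorphisms with values in any finite `2`-group.

Proof by strong induction on `Nat.card M` (for all `M`, `ρ`). If `M` is trivial everything is `0`.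
Otherwise let `m₁` be as in `S_Fix`, `N = {0, m₁}` (an additive subgroup, pointwise fixed by `G`;
`2 m₁ = 0`); `ρ` induces an action of the type `Act2` on `M ⧸ N`, of order `Nat.card M / 2`.

Uniqueness: the difference `Y` of two solutions is a crossed homomorphism which is `0` on the `W w`
and at `φ₀`; modulo `N` it is `0` by the uniqueness for `M ⧸ N`; so `Y g = H g • m₁` with
`H g ∈ ZMod 2` (i.e. `Y g = if H g = 0 then 0 else m₁`), `H` is `Hom2` (as `ρ g m₁ = m₁`), `0` on the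
`W w` and at `φ₀`, so `H = 0` by the uniqueness in `UEx`.

Existence: let `Z''` be the solution in `M ⧸ N` (for the images of the data), `s` a section (map of
sets) of `M → M ⧸ N` and `Z' = s ∘ Z''`, locally constant. For all `g, h` the element
`Z' g + ρ g (Z' h) - Z' (g h)` is in `N`, so it is `c g h • m₁`, `c g h ∈ ZMod 2`; `c` is locally
constant on `G × G` (it is a function of `Z' g`, `Z' h`, `Z' (g h)` and `ρ g`, all of which are
locally constant functions of `(g, h)`; for `ρ g`: `g ↦ (ρ g : M → M)` is locally constant since `M`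
is finite). It is a cocycle: apply the definition of `c` in
`ρ g` of `(Z' h + ρ h (Z' k) - Z' (h k))` etc.: the alternating sum of the four expressions
`ρ g (c h k m₁)`, `c (g h) k m₁`, `c g (h k) m₁`, `c g h m₁` is `0`. By `H2Z` there is `b` with
`c g h = b g + b h + b (g h)`. Then `Z₁ g = Z' g + b g • m₁` is a crossed homomorphism. On `W w` the
function `Z₁ - Zw w` has values in `N` and is a crossed homomorphism, so it is `h w • m₁` with
`Hom2 (h w)`; also `Z₁ φ₀ - m₀ = c • m₁`. By `UEx` there is `H` with `H = h w` on `W w` and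
`H φ₀ = c`. The function `Z₁ - H • m₁` is the solution. -/
def S_Uni : Prop :=
  ∀ (G : Type) [Group G] [TopologicalSpace G] [IsTopologicalGroup G] (S : Type)
    (W : S → Subgroup G) (φ₀ : G), UEx W φ₀ → H2Z G →
    ∀ (M : Type) [AddCommGroup M] [Finite M] (r : ℕ), Nat.card M = 2 ^ r →
      ∀ ρ : G → M → M, Act2 ρ → ∀ Zw : ∀ w, W w → M, (∀ w, Coc (fun g : W w => ρ g) (Zw w)) →
        ∀ m₀ : M, ∃! Z : G → M, Coc ρ Z ∧ (∀ w (g : W w), Z g = Zw w g) ∧ Z φ₀ = m₀

/-- **Lin** (200 lines, uses `S_Uni`). Elementary properties of `Zf` and `Tv`.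

Proof. `ρ g x = χ g * x` on `M = ZMod (2 ^ n)` is of type `Act2` (`χ g` is a unit since
`χ g * χ g⁻¹ = χ 1 = 1`; the group of units has order dividing a power of two, so
`χ (g ^ 2 ^ n) = (χ g) ^ 2 ^ n = 1`, also for `n = 0`). The functions `g ↦ a w * (1 - χ g)` are crossed
homomorphisms (`1 - χ (g h) = (1 - χ g) + χ g (1 - χ h)`). (1), (2): `S_Uni`. (3): sums and multiples
of solutions are solutions; use (2). (4): `c * (1 - χ)` is the solution for the constant `a = c`.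
(5): the image of `Zf` under the ring homomorphism is a solution for the images; use (2) for `n'`.
(6): modulo `2` (that is (5) with `n' = 1`) we have `χ = 1` (units of `ZMod 2`), so the solution is
`0` by (2), and `Tv` is `0` modulo `2`; for `n = 0` there is nothing to show. (7): the doubling map
`d : ZMod (2 ^ n) → ZMod (2 ^ (n + 1))`, `d x = 2 * (any lift of x)`, is additive and injective and
`d (c̄ x) = c (d x)` for `c ∈ ZMod (2 ^ (n + 1))` with image `c̄`; `d ∘ Zf (χ̄) (ā)` is the solution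
for `χ` and `2 * a`, so `Tv χ (2 a) = d (Tv χ̄ ā)`. -/
def S_Lin : Prop :=
  ∀ (G : Type) [Group G] [TopologicalSpace G] [IsTopologicalGroup G] (ι : Type)
    (W : Option ι → Subgroup G) (φ : Option ι → G), UEx W (φ none) → H2Z G →
    ∀ (n : ℕ) (χ : G → ZMod (2 ^ n)), Chr χ →
      (∀ a, IsZ W φ χ a (Zf W φ χ a)) ∧
      (∀ a Z, IsZ W φ χ a Z → Z = Zf W φ χ a) ∧
      (∀ a b v, Tv W φ χ (a + b) v = Tv W φ χ a v + Tv W φ χ b v) ∧
      (∀ (c : ZMod (2 ^ n)) a v, Tv W φ χ (fun w => c * a w) v = c * Tv W φ χ a v) ∧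
      (∀ (c : ZMod (2 ^ n)) v, Tv W φ χ (fun _ => c) v = 0) ∧
      (∀ (n' : ℕ) (h : n' ≤ n) a v,
        Tv W φ (fun g => ZMod.castHom (pow_dvd_pow 2 h) (ZMod (2 ^ n')) (χ g))
          (fun w => ZMod.castHom (pow_dvd_pow 2 h) (ZMod (2 ^ n')) (a w)) v =
          ZMod.castHom (pow_dvd_pow 2 h) (ZMod (2 ^ n')) (Tv W φ χ a v)) ∧
      (∀ a v, ∃ b, Tv W φ χ a v = 2 * b) ∧
      (∀ (m : ℕ) (h : m + 1 = n) (a : Option ι → ZMod (2 ^ n)),
        (∀ v, Tv W φ χ (fun w => 2 * a w) v = 0) ↔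
        ∀ v, Tv W φ (fun g => ZMod.castHom (pow_dvd_pow 2 (Nat.le.intro h)) (ZMod (2 ^ m)) (χ g))
          (fun w => ZMod.castHom (pow_dvd_pow 2 (Nat.le.intro h)) (ZMod (2 ^ m)) (a w)) v = 0)

/-- **Der** (300 lines, uses `S_Uni`, `S_Lin`). The `(m + 1)`-st derivative of `Tv` in the directions
`δ 0, ..., δ m`.

Proof. Let `V = Fin (m + 1) → ZMod 2`, `N = 2 ^ (m + 2)`, and for `g ∈ G` let `δ(g) ∈ V` be the vector
of the `δ j g`; `g ↦ δ(g)` is a locally constant homomorphism to `V`. Let `M = V → ZMod N` with the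
operators `(ρ g f) τ = ψ g * f (τ + δ(g))` (type `Act2`: `g ^ 2 ^ (m + 2)` acts trivially). For
`w ∈ Option ι` the function `Y_w g = (τ ↦ a w * ([τ = 0] - ψ g * [τ = δ(g)]))` is a crossed
homomorphism (for `v ∈ M` the function `g ↦ v - ρ g v` is one; take `v = a w * [τ = 0]`, and
`ρ g [· = 0] = ψ g [· + δ(g) = 0] = ψ g [· = δ(g)]`). Let `𝓩 : G → M` be the solution of `S_Uni` with
`𝓩 = Y_w` on `W w` and `𝓩 (φ none) = Y_none (φ none)`.
(a) For `ω ∈ V` let `χ_ω = tw ψ (∑ ω j * δ j)`, i.e. `χ_ω g = ψ g * (-1) ^ (ω · δ(g))`. The function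
`Z_ω g = ∑ τ, (-1) ^ (ω · τ) * 𝓩 g τ` satisfies `IsZ W φ χ_ω a Z_ω` (substitute `τ ↦ τ + δ(g)`;
`(-1) ^ x` is `sg (m + 2) x`, `sg (x + y) = sg x * sg y`). So `Z_ω = Zf W φ χ_ω a` by `S_Lin` (2).
(b) `∑ ω, (∏ j, sg (ω j)) * Z_ω g = ∑ τ, 𝓩 g τ * ∑ ω, (-1) ^ (ω · (τ + 1)) = 2 ^ (m + 1) * 𝓩 g 1`,
where `1 ∈ V` is the vector of ones (the inner sum is `2 ^ (m + 1)` for `τ = 1` and `0` otherwise:
flip a coordinate in which `τ + 1` is not `0`).
(c) `∑ ω, (∏ j, sg (ω j)) * a v * (1 - χ_ω (φ v)) = 0`: the terms `1` cancel, and `χ_ω (φ v)` does not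
depend on the coordinate `ω 1` (`Fin.succ 0`; here `m ≥ 1` is used) as `δ (succ j) (φ v) = 0`, so the
terms with `ω 1 = 0` and `ω 1 = 1` cancel.
(d) Modulo `2`: let `𝓩̄ : G → (V → ZMod 2)` be the reduction of `𝓩` modulo `2`, a crossed homomorphism
for the operators `(ρ̄ g f) τ = f (τ + δ(g))` (`ψ g` is odd). Let
`𝓨 g τ = ζ g (fun j : Fin m => τ j.succ)`; it is a crossed homomorphism for `ρ̄` too. On `W w`,
`w ≠ none, some w₁`: `δ(g) = 0`, so `𝓩̄ g = Y_w g = 0` modulo `2`, and `𝓨 g = 0`. On `W none`: `a none`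
is even, both are `0`. On `W (some w₁)`: `a (some w₁)` is odd and `δ(g) = (δ 0 g, 0, ..., 0)`, so
`𝓩̄ g τ = [τ = 0] + [τ = δ(g)]`, which is `δ 0 g * [τ j.succ = 0 for all j] = 𝓨 g τ`. At `φ none` both are
`0`. So `𝓩̄ = 𝓨` by the uniqueness in `S_Uni` (for `V → ZMod 2`), and `𝓩 (φ v) 1` is even if
`ζ (φ v) 1 = 0` and odd otherwise; so `2 ^ (m + 1) * 𝓩 (φ v) 1` is `0` or `2 ^ (m + 1)`. -/
def S_Der : Prop :=
  ∀ (G : Type) [Group G] [TopologicalSpace G] [IsTopologicalGroup G] (ι : Type)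
    [DecidableEq ι]
    (W : Option ι → Subgroup G) (φ : Option ι → G), UEx W (φ none) → H2Z G →
    ∀ (m : ℕ), 1 ≤ m → ∀ ψ : G → ZMod (2 ^ (m + 2)), Chr ψ →
    ∀ δ : Fin (m + 1) → G → ZMod 2, (∀ j, Hom2 (δ j)) → ∀ w₁ : ι,
      (∀ w, w ≠ some w₁ → ∀ g ∈ W w, δ 0 g = 0) → δ 0 (φ none) = 0 →
      (∀ (j : Fin m) w, w ≠ none → ∀ g ∈ W w, δ j.succ g = 0) →
      (∀ (j : Fin m) w, δ j.succ (φ w) = 0) →
    ∀ a : Option ι → ZMod (2 ^ (m + 2)), (∃ b, a none = 2 * b) → (∃ b, a (some w₁) = 2 * b + 1) →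
    ∀ ζ : G → (Fin m → ZMod 2) → ZMod 2, IsLocallyConstant ζ →
      (∀ g g' τ, ζ (g * g') τ = ζ g τ + ζ g' (fun j => τ j + δ j.succ g)) →
      (∀ w, w ≠ some w₁ → ∀ g ∈ W w, ∀ τ, ζ g τ = 0) →
      (∀ g ∈ W (some w₁), ∀ τ, ζ g τ = if τ = 0 then δ 0 g else 0) →
      (∀ τ, ζ (φ none) τ = 0) →
      ∀ v : ι, ∑ ω : Fin (m + 1) → ZMod 2, (∏ j, sg (m + 2) (ω j)) *
          Tv W φ (tw ψ (fun g => ∑ j, ω j * δ j g)) a v =
        if ζ (φ (some v)) (fun _ => 1) = 0 then 0 else 2 ^ (m + 1)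

/-- **Vdc** (150 lines). Iterated van der Corput (Gowers-Cauchy-Schwarz) inequality with directions
from subgroups. `2 ^ (m + 1)` is the exponent.

Proof. Write `Φ D = e(f D)`, `|Φ| = 1`, and `E` for averages. For one subgroup `H ≤ 𝒟`:
`E_D Φ D = E_D E_{δ ∈ H} Φ (D + δ)` (translation), so `|E_D Φ D|^2 ≤ E_D |E_{δ ∈ H} Φ (D + δ)|^2 =
E_D E_{δ, δ' ∈ H} Φ (D + δ) * conj Φ (D + δ') = E_{δ ∈ H} E_D Φ (D + δ) * conj Φ D` (translate by
`- δ'` and `δ - δ' ↦ δ`); the last value is real and equal to the norm of itself, and equal to the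
norm of `E_δ E_D e(f D - f (D + δ))` (complex conjugate). This is the case `m = 0`:
`∑ ω, sg(ω 0) f (D + ω δ) = f D - f (D + δ)`. Induction on `m`: apply the case of one direction with
the last subgroup `H (last)` first, then take norms inside and apply the induction hypothesis to the
function `f_δ D = f D - f (D + δ)` (a function `X → ZMod (2 ^ n)`) for every `δ ∈ H (last)`, and
convexity `(E_δ x_δ) ^ (2 ^ k) ≤ E_δ x_δ ^ (2 ^ k)` (`inner_le_nnorm_mul_nnorm`,
`inv_mul..`, or `Finset.inner_mul_le_norm_mul_norm`/`inner_le..`: the power mean inequality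
`Real.inner_le_Lp..`, `inner..`; simplest: `(E x)^2 ≤ E x^2` iterated). The cube of `f_δ` in the
directions `δ 0, ..., δ (m - 1)` is the cube of `f` in the directions `δ 0, ..., δ m`. (It may be
convenient to prove first the statement for a list of directions; the order of the directions other
than `0` does not matter.) -/
def S_Vdc : Prop :=
  ∀ (X : Type) [AddCommGroup X] (𝒟 : AddSubgroup X) [Fintype 𝒟] (m : ℕ)
    (H : Fin (m + 1) → AddSubgroup X) [∀ j, Fintype (H j)], (∀ j, H j ≤ 𝒟) →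
    ∀ (n : ℕ) (f : X → ZMod (2 ^ n)),
      (‖∑ D : 𝒟, ZMod.stdAddChar (f D)‖ / Fintype.card 𝒟) ^ 2 ^ (m + 1) ≤
        (∑ δ : (∀ j : Fin m, H j.succ),
          ‖∑ δ₀ : H 0, ∑ D : 𝒟, ZMod.stdAddChar (∑ ω : Fin (m + 1) → ZMod 2,
            (∏ j, sg n (ω j)) * f ((D : X) + ∑ j, if ω j = 0 then 0 else
              (Fin.cons (δ₀ : X) (fun j => (δ j : X)) : Fin (m + 1) → X) j))‖ /
            (Fintype.card (H 0) * Fintype.card 𝒟)) / (∏ j : Fin m, Fintype.card (H j.succ))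

/-- **EqA** (120 lines, uses `S_Lin`). Equidistribution for `n = 2` (values modulo four).

Proof. For `D ∈ X` put `χ_D = tw ψ (A.h D)`. Claim: for `δ ∈ A.𝔇 w e'` and all `D ∈ X`, `v ∈ ι`
`Tv χ_{D + δ} a v = Tv χ_D a v + 2 * (a w - a (some v)) * [h δ (φ v) = 1]`. Indeed
`χ_{D + δ} g = χ_D g * sg (h δ g)`, and for odd `x ∈ ZMod 4` one has `x * (-1) = x + 2`; so
`1 - χ_{D + δ} g = 1 - χ_D g + 2 * [h δ g = 1]`. The function `Z' = Zf χ_D a + 2 * a w * [h δ = 1]`
satisfies `IsZ W φ χ_{D + δ} a`: `g ↦ 2 * [h δ g = 1]` is an additive homomorphism, fixed by all units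
(multiplication of `2` by an odd number is `2`), and `Zf χ_D a` has even values (`S_Lin`: apply (2)
modulo `2`, or: `Tv`-part (6) in the proof), so it is also a crossed homomorphism for `χ_{D + δ}`
(`x * 2 y = (x * (-1)) * 2 y` in `ZMod 4`); on `W w'`, `w' ≠ w`, `h δ = 0`; on `W w` the values agree;
at `φ none` `h δ = 0` (`A.phi`) and the values agree. So `Z' = Zf χ_{D + δ} a`, which gives the claim.
(The evenness of `Zf χ a` for every character `χ`: the solution modulo `2` is `0`.)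
Now let `η v₀` be odd. By hypothesis `a` is not constant modulo `2`, so there is `w` with `a w - a (some v₀)`
odd, `w ≠ some v₀`. Let `δ ∈ A.𝔇 w e'` be as in `A.ax1`, `e₀ = e'`. For `e` with `e₀ ≤ e w` we have
`δ ∈ A.D e`, and `∑ η v * Tv χ_{D + δ} a v = ∑ η v * Tv χ_D a v + 2` for all `D`, as
`η v₀ * 2 * odd = 2`. So the sum `S` over `D ∈ A.D e` (a finite group) satisfies
`S = e(2) * S = - S` (`e(2) = - 1` in `ZMod 4`) and `S = 0`. -/
def S_EqA : Prop :=
  ∀ (G : Type) [Group G] [TopologicalSpace G] [IsTopologicalGroup G] (ι : Type) [Fintype ι]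
    [DecidableEq ι] (X : Type) [AddCommGroup X] (A : Fam G ι X), A.Good →
    ∀ ψ : G → ZMod (2 ^ 2), Chr ψ → ∀ a : Option ι → ZMod (2 ^ 2),
      (∃ w w', ∃ b, a w - a w' = 2 * b + 1) → ∀ η : ι → ZMod (2 ^ 2), (∃ v b, η v = 2 * b + 1) →
      ∃ e₀ : ℕ, ∀ e : Option ι → ℕ, (∀ w, e₀ ≤ e w) →
        ∑ᶠ D ∈ (A.D e : Set X),
          ZMod.stdAddChar (∑ v, η v * Tv A.W A.φ (tw ψ (A.h D)) a v) = 0

/-- **Zet** (200 lines, uses `S_Uni`, `S_Der`). The derivative as a linear function of the first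
direction. `δ 0, ..., δ (m - 1) ∈ 𝔇 none` are the other directions.

Proof. For `g ∈ G` let `δ(g) ∈ V' = (Fin m → ZMod 2)` be the vector of the `A.h (δ j) g`. For `x ∈ X`
consider the conditions `(*)_x` on `ζ : G → V' → ZMod 2`: `ζ` is locally constant,
`ζ (g g') τ = ζ g τ + ζ g' (τ + δ(g))`, `ζ = 0` on `W w` for `w ≠ some w₁`,
`ζ g τ = if τ = 0 then A.h x g else 0` on `W (some w₁)`, `ζ (φ none) = 0`. If `x ∈ 𝔇 (some w₁) e` there is
exactly one such `ζ`, by `S_Uni` for `M = V' → ZMod 2` with the operators `(ρ g f) τ = f (τ + δ(g))`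
(`Act2`: the square of every operator is the identity; on `W (some w₁)` we have `δ(g) = 0` by `A.off`,
so there the prescribed function is a crossed homomorphism). Let `Θ x v = ζ_x (φ v) 1` (`1` the vector
of ones) for the unique `ζ_x` if there is one, `0` otherwise. For `x, y ∈ 𝔇 (some w₁) e` the sum
`ζ_x + ζ_y` satisfies `(*)_{x + y}`, so `Θ` is additive. `A.axm` gives `δ₁` and a `ζ` with `(*)_{δ₁}` and
`Θ δ₁ v = [v = v₀]`. The last part is `S_Der` for the character `tw ψ (A.h D)` (it is a `Chr`), the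
homomorphisms `A.h x` (index `0`), `A.h (δ j)` (index `j.succ`), and `ζ_x`:
`tw (tw ψ (A.h D)) (fun g => ∑ j, ω j * (..) g) = tw ψ (A.h (D + ∑ ..))` as `sg` is multiplicative and
`A.h` additive (`A.h 0 = 0`). The hypotheses of `S_Der` are `A.off`, `A.phi` and the assumption on
`A.h (δ j) (φ v)`. -/
def S_Zet : Prop :=
  ∀ (G : Type) [Group G] [TopologicalSpace G] [IsTopologicalGroup G] (ι : Type) [Fintype ι]
    [DecidableEq ι] (X : Type) [AddCommGroup X] (A : Fam G ι X), A.Good →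
    ∀ (m : ℕ), 1 ≤ m → ∀ δ : Fin m → X, (∃ e, ∀ j, δ j ∈ A.𝔇 none e) →
      (∀ j v, A.h (δ j) (A.φ v) = 0) →
      (∀ c : Fin m → ZMod 2, (∀ g, ∑ j, c j * A.h (δ j) g = 0) → c = 0) →
      ∀ w₁ v₀ : ι, ∃ Θ : X → ι → ZMod 2,
        (∃ e₁, ∃ δ₁ ∈ A.𝔇 (some w₁) e₁, ∀ v, Θ δ₁ v = if v = v₀ then 1 else 0) ∧
        (∀ e, ∀ x ∈ A.𝔇 (some w₁) e, ∀ y ∈ A.𝔇 (some w₁) e, ∀ v, Θ (x + y) v = Θ x v + Θ y v) ∧
        ∀ e, ∀ x ∈ A.𝔇 (some w₁) e, ∀ ψ : G → ZMod (2 ^ (m + 2)), Chr ψ →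
          ∀ a : Option ι → ZMod (2 ^ (m + 2)), (∃ b, a none = 2 * b) →
            (∃ b, a (some w₁) = 2 * b + 1) → ∀ (D : X) (v : ι),
              ∑ ω : Fin (m + 1) → ZMod 2, (∏ j, sg (m + 2) (ω j)) *
                  Tv A.W A.φ (tw ψ (A.h (D + ∑ j, if ω j = 0 then 0 else
                    (Fin.cons x δ : Fin (m + 1) → X) j))) a v =
                if Θ x v = 0 then 0 else 2 ^ (m + 1)

/-- **EqM** (250 lines, uses `S_Vdc`, `S_Zet`). Equidistribution for `n = m + 2 ≥ 3`.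

Proof. `A.D e` is finite (a finite sum of finite subgroups). Let `f D = ∑ η v * Tv (tw ψ (h D)) a v`,
`η v₀` odd, `a (some w₁)` odd. For `e' ∈ ℕ` let `H' = {δ ∈ A.𝔇 none e' | h δ (φ v) = 0 for all v ∈ ι}`, a
subgroup (`h` is additive in the first argument); it is the kernel of a homomorphism to `ι → ZMod 2`, so
`#H' * 2 ^ #ι ≥ #(A.𝔇 none e')`, and by `A.big` we can choose `e'` with
`#H' * ε ^ (2 ^ (m + 1)) ≥ 2 ^ m`. For `δ = (δ 0, ..., δ (m - 1)) ∈ H' ^ m` call `δ` good if the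
homomorphisms `h (δ j)` are linearly independent over `ZMod 2` (as in `A.axm`). The number of `δ`
which are not good is at most `2 ^ m * #H' ^ (m - 1)`: for every `c ≠ 0` the relation
`∑ c j h (δ j) = 0` means `h (∑' δ j) = 0`, the sum over the `j` with `c j = 1`, so this sum is `0` by
`A.inj` (it is an element of `A.𝔇 none e'`), which determines one `δ j` from the others. For
every good `δ` let `Θ_δ`, `e₁`, `δ₁` be as in `S_Zet` (for `w₁`, `v₀`). Let `e₀` be the maximum of `e'` and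
the (finitely many) `e₁`. Now let `e ≥ e₀`. Apply `S_Vdc` with `𝒟 = A.D e`,
`H 0 = A.𝔇 (some w₁) (e (some w₁))`, `H j.succ = H'` (subgroups of `𝒟` by `A.mono`). For good `δ` and
`x ∈ H 0` put `t x = ∑ v, (η v mod 2) * Θ_δ x v ∈ ZMod 2`, a homomorphism on `H 0` with
`t δ₁ = (η v₀ mod 2) = 1` (`δ₁ ∈ H 0`). By `S_Zet`
`∑ ω, (∏ sg (ω j)) * f (D + ..) = ∑ v, η v * [Θ_δ x v = 1] 2 ^ (m + 1) = [t x = 1] * 2 ^ (m + 1)` in
`ZMod (2 ^ (m + 2))`, and `e(2 ^ (m + 1)) = - 1`; so the inner sum of `S_Vdc` is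
`#𝒟 * ∑_{x ∈ H 0} (-1) ^ (t x) = 0`. For the other `δ` the term is at most `1`. So
`(‖∑‖ / #𝒟) ^ (2 ^ (m + 1)) ≤ 2 ^ m * #H' ^ (m - 1) / #H' ^ m = 2 ^ m / #H' ≤ ε ^ (2 ^ (m + 1))`. -/
def S_EqM : Prop :=
  ∀ (G : Type) [Group G] [TopologicalSpace G] [IsTopologicalGroup G] (ι : Type) [Fintype ι]
    [DecidableEq ι] (X : Type) [AddCommGroup X] (A : Fam G ι X), A.Good →
    ∀ (m : ℕ), 1 ≤ m → ∀ ψ : G → ZMod (2 ^ (m + 2)), Chr ψ → ∀ a : Option ι → ZMod (2 ^ (m + 2)),
      (∃ b, a none = 2 * b) → (∃ w₁ b, a (some w₁) = 2 * b + 1) →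
      ∀ η : ι → ZMod (2 ^ (m + 2)), (∃ v b, η v = 2 * b + 1) →
      ∀ ε : ℝ, 0 < ε → ∃ e₀ : ℕ, ∀ e : Option ι → ℕ, (∀ w, e₀ ≤ e w) →
        ‖∑ᶠ D ∈ (A.D e : Set X),
          ZMod.stdAddChar (∑ v, η v * Tv A.W A.φ (tw ψ (A.h D)) a v)‖ ≤
          ε * Nat.card (A.D e)

/-- **EqN** (150 lines, uses `S_Lin`, `S_EqA`, `S_EqM`). Equidistribution for all `n`.

Proof. Write `η v = 2 ^ j * η' v` with `j` maximal such that all `η v` are divisible by `2 ^ j` (i.e.
`η' v₀` is odd for some `v₀`); `2 * η v ≠ 0` for some `v` means `j + 1 < n`. Put `n' = n - j ≥ 2`,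
and let `ψ', a', η''` be the images of `ψ, a, η'` in `ZMod (2 ^ n')`. As `Tv` at level `n'` is the
image of `Tv` at level `n` (`S_Lin` (5), `tw` is compatible with the cast), `e_n(2 ^ j * y) =
e_{n'}(y mod 2 ^ n')` gives `e_n(∑ η v * Tv a v) = e_{n'}(∑ η'' v * Tv' a' v)`. Subtract from `a'` the
constant `a' none` (`S_Lin`: `Tv` of a constant is `0`): so we may assume `a' none = 0`; then some
`a' (some w₁)` is odd, as `a` is not constant modulo `2`. Apply `S_EqA` if `n' = 2` and `S_EqM` with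
`m = n' - 2` otherwise. -/
def S_EqN : Prop :=
  ∀ (G : Type) [Group G] [TopologicalSpace G] [IsTopologicalGroup G] (ι : Type) [Fintype ι]
    [DecidableEq ι] (X : Type) [AddCommGroup X] (A : Fam G ι X), A.Good →
    ∀ (n : ℕ) (ψ : G → ZMod (2 ^ n)), Chr ψ → ∀ a : Option ι → ZMod (2 ^ n),
      (∃ w w' b, a w - a w' = 2 * b + 1) → ∀ η : ι → ZMod (2 ^ n), (∃ v, 2 * η v ≠ 0) →
      ∀ ε : ℝ, 0 < ε → ∃ e₀ : ℕ, ∀ e : Option ι → ℕ, (∀ w, e₀ ≤ e w) →
        ‖∑ᶠ D ∈ (A.D e : Set X),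
          ZMod.stdAddChar (∑ v, η v * Tv A.W A.φ (tw ψ (A.h D)) a v)‖ ≤
          ε * Nat.card (A.D e)

/-- **Cnt** (180 lines, uses `S_Lin`, `S_EqN`). The average number of the solutions which are not
constant modulo two is at most `2 ^ (s + n - 1) + ε`, `s = #ι + 1`, `n ≥ 1`.

Proof. For `T : ι → ZMod (2 ^ n)` the number `2 ^ (- n #ι) * ∑_η e(∑ η v T v)` (all `η : ι → ZMod (2 ^ n)`)
is `1` if `T = 0` and `0` otherwise (orthogonality, `AddChar.sum_eq_ite` for `ZMod.stdAddChar`, product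
over `v`). If `T` has even entries, the `η` with `2 η v = 0` for all `v` (there are `2 ^ #ι` of them:
`η v ∈ {0, 2 ^ (n - 1)}`) contribute `1` each. The entries of `Tv` are even (`S_Lin`). Sum over `D ∈ A.D e`
and over the finitely many `a` which are not constant modulo `2` (at most `2 ^ (n s)`): the sum is at
most `2 ^ (n s) * 2 ^ (- n #ι) * 2 ^ #ι * #(A.D e)` plus `2 ^ (- n #ι)` times the sum over `a` and over
the `η` with `2 η ≠ 0` of the norms in `S_EqN`; take `ε' = ε / 2 ^ (n s)` there and `e₀` the maximum over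
all `(a, η)`. And `n s - n #ι + #ι = n + s - 1`. -/
def S_Cnt : Prop :=
  ∀ (G : Type) [Group G] [TopologicalSpace G] [IsTopologicalGroup G] (ι : Type) [Fintype ι]
    [DecidableEq ι] (X : Type) [AddCommGroup X] (A : Fam G ι X), A.Good →
    ∀ (n : ℕ), 1 ≤ n → ∀ ψ : G → ZMod (2 ^ n), Chr ψ →
      ∀ ε : ℝ, 0 < ε → ∃ e₀ : ℕ, ∀ e : Option ι → ℕ, (∀ w, e₀ ≤ e w) →
        ∑ᶠ D ∈ (A.D e : Set X),
          ({a : Option ι → ZMod (2 ^ n) | (∃ w w' b, a w - a w' = 2 * b + 1) ∧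
            ∀ v, Tv A.W A.φ (tw ψ (A.h D)) a v = 0}.ncard : ℝ) ≤
          (2 ^ (Fintype.card ι + n) + ε) * Nat.card (A.D e)

/-- **ThA** (150 lines, uses `S_Lin`, `S_Cnt`; the main theorem of part A). The average of the number
of the solutions is at most `(n + ε) 2 ^ (s + n - 1)`, `s = #ι + 1`.

Proof by induction on `n ≥ 1`. `n = 1`: `Tv` is even, so `0` in `ZMod 2`, and `XX` is `2 ^ s`, all `a`.
Step from `n` to `n + 1`: a solution `a` of level `n + 1` which is constant modulo `2`, i.e.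
`a w - a w'` is even for all `w, w'`, can be written as `a w = c + 2 * a₁ w` with `c ∈ {0, 1}`, and
`a ↦ (c, a₁ mod 2 ^ n)` is a bijection onto `{0, 1} × (Option ι → ZMod (2 ^ n))`. By `S_Lin` (`Tv` is
additive, `0` for constants, and (7)) `a` is a solution iff `a₁ mod 2 ^ n` is a solution at level `n`
for the character `ψ mod 2 ^ n` (`tw` is compatible with the cast). So
`XX_{n + 1} = #{non-constant solutions} + 2 XX_n`, and by `S_Cnt` and the induction hypothesis (for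
`ψ mod 2 ^ n`, `ε / 2`) the average is at most
`2 ^ (s + n) + ε' + 2 (n + ε / 2) 2 ^ (s + n - 1) ≤ (n + 1 + ε) 2 ^ (s + n)` with `ε' = ε / 2`. -/
def S_ThA : Prop :=
  ∀ (G : Type) [Group G] [TopologicalSpace G] [IsTopologicalGroup G] (ι : Type) [Fintype ι]
    [DecidableEq ι] (X : Type) [AddCommGroup X] (A : Fam G ι X), A.Good →
    ∀ (n : ℕ), 1 ≤ n → ∀ ψ : G → ZMod (2 ^ n), Chr ψ →
      ∀ ε : ℝ, 0 < ε → ∃ e₀ : ℕ, ∀ e : Option ι → ℕ, (∀ w, e₀ ≤ e w) →
        ∑ᶠ D ∈ (A.D e : Set X), (XX A.W A.φ (tw ψ (A.h D)) : ℝ) ≤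
          (n + ε) * 2 ^ (Fintype.card ι + n) * Nat.card (A.D e)

/-- **Dual** (100 lines). The number of the `θ` orthogonal to the image of an additive map.

Proof. Let `N = #{θ | ∀ a, ∑ θ v * T a v = 0}` and `S = ∑_θ ∑_a e(∑ v, θ v * T a v)` (`e` the standard
character of `ZMod m`, all `θ`, `a`). For fixed `θ` the map `a ↦ e(∑ θ v T a v)` is an additive
character of the finite group `Option ι → ZMod m` (here any finite group `α`), so the inner sum is
`#α` if it is trivial, i.e. if `∑ θ v T a v = 0` for all `a` (`e` is injective), and `0` otherwise: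
`S = N * #α`. For fixed `a` the sum over `θ` is `m ^ #ι` if `T a = 0` and `0` otherwise:
`S = m ^ #ι * #{a | T a = 0}`. -/
def S_Dual : Prop :=
  ∀ (m : ℕ) [NeZero m] (ι : Type) [Fintype ι] (α : Type) [AddCommGroup α] [Fintype α]
    (T : α →+ (ι → ZMod m)),
    {θ : ι → ZMod m | ∀ a, ∑ v, θ v * T a v = 0}.ncard * Fintype.card α =
      m ^ Fintype.card ι * {a : α | T a = 0}.ncard

/-- **DuK** (80 lines, uses `S_Lin`, `S_Dual`). The number of the `θ` modulo `2 ^ K` which are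
orthogonal to all the `Tv a / 2`.

Proof. By `S_Lin` `a ↦ Tv a` is additive; apply `S_Dual` with `m = 2 ^ (K + 1)`,
`α = Option ι → ZMod (2 ^ (K + 1))`: `#Θ * 2 ^ ((K + 1) (#ι + 1)) = 2 ^ ((K + 1) #ι) * XX`, so
`#Θ * 2 ^ (K + 1) = XX`, where `Θ` is the set of the `θ : ι → ZMod (2 ^ (K + 1))` with `∑ θ v Tv a v = 0`
for all `a`. As the `Tv a v` are even, the condition depends only on `θ` modulo `2 ^ K`; so `Θ` is the
preimage of the set in the statement under the surjective homomorphism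
`(ι → ZMod (2 ^ (K + 1))) → (ι → ZMod (2 ^ K))` with kernel of order `2 ^ #ι`. -/
def S_DuK : Prop :=
  ∀ (G : Type) [Group G] [TopologicalSpace G] [IsTopologicalGroup G] (ι : Type) [Fintype ι]
    (W : Option ι → Subgroup G) (φ : Option ι → G), UEx W (φ none) → H2Z G →
    ∀ (K : ℕ) (χ : G → ZMod (2 ^ (K + 1))), Chr χ →
      {θ : ι → ZMod (2 ^ K) | ∀ θ' : ι → ZMod (2 ^ (K + 1)),
          (∀ v, ZMod.castHom (pow_dvd_pow 2 (Nat.le_succ K)) (ZMod (2 ^ K)) (θ' v) = θ v) →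
          ∀ a, ∑ v, θ' v * Tv W φ χ a v = 0}.ncard * 2 ^ (K + 1 + Fintype.card ι) =
        XX W φ χ

/-- **Cos** (60 lines, uses `S_Lin`). The number of the crossed homomorphisms which occur in
solutions: `2 ^ s` different `a` give the same one.

Proof. Let `𝓢` be the set in the statement and `Z ∈ 𝓢` with the `a`. Then `IsZ W φ χ a Z` and
`Tv a v = 0`, i.e. `a` is a solution with `Zf a = Z` (`S_Lin` (2)). For every `ε : Option ι → {0, 1}`
also `a w + 2 ^ K ε w` is a solution with the same `Z`, since `1 - χ g` is even (`χ g` is a unit) and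
so `2 ^ K * (1 - χ g) = 0`. So the fibres of the surjective map `a ↦ Zf a` from the set of the
solutions to `𝓢` have at least `2 ^ (#ι + 1)` elements. -/
def S_Cos : Prop :=
  ∀ (G : Type) [Group G] [TopologicalSpace G] [IsTopologicalGroup G] (ι : Type) [Fintype ι]
    (W : Option ι → Subgroup G) (φ : Option ι → G), UEx W (φ none) → H2Z G →
    ∀ (K : ℕ) (χ : G → ZMod (2 ^ (K + 1))), Chr χ →
      {Z : G → ZMod (2 ^ (K + 1)) | Coc (fun g x => χ g * x) Z ∧ ∀ w, ∃ a : ZMod (2 ^ (K + 1)),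
          (∀ g ∈ W w, Z g = a * (1 - χ g)) ∧ Z (φ w) = a * (1 - χ (φ w))}.Finite ∧
      {Z : G → ZMod (2 ^ (K + 1)) | Coc (fun g x => χ g * x) Z ∧ ∀ w, ∃ a : ZMod (2 ^ (K + 1)),
          (∀ g ∈ W w, Z g = a * (1 - χ g)) ∧ Z (φ w) = a * (1 - χ (φ w))}.ncard *
        2 ^ (Fintype.card ι + 1) ≤ XX W φ χ

end Pool.Agent.MP72W
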