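import Pool.Agent.Lib.MP_72e2e6_nt.W2.A.Spec

namespace Pool.Agent.MP72W

open Finset

private theorem Cnt_sg_add (n : ℕ) (x y : ZMod 2) : sg n (x + y) = sg n x * sg n y := by
  have h2 : ∀ x : ZMod 2, x = 0 ∨ x = 1 := by decide
  have h11 : (1 : ZMod 2) + 1 = 0 := by decide
  have h10 : (1 : ZMod 2) ≠ 0 := by decide
  unfold sg
  rcases h2 x with rfl | rfl <;> rcases h2 y with rfl | rfl
  · rw [add_zero, if_pos rfl, mul_one]
  · rw [zero_add, if_pos rfl, if_neg h10, one_mul]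
  · rw [add_zero, if_pos rfl, if_neg h10, mul_one]
  · rw [h11, if_pos rfl, if_neg h10]
    ring

private theorem Cnt_tw {G : Type} [Group G] [TopologicalSpace G] {n : ℕ} {ψ : G → ZMod (2 ^ n)}
    (hψ : Chr ψ) {h : G → ZMod 2} (hh : Hom2 h) : Chr (tw ψ h) := by
  refine ⟨?_, ?_, ?_⟩
  · exact hψ.loc.mul (hh.loc.comp (sg n))
  · have h1 : h 1 = 0 := by
      have := hh.add 1 1
      rw [mul_one] at this
      exact left_eq_add.mp this
    unfold tw
    rw [hψ.one, h1]
    simp [sg]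
  · intro a b
    unfold tw
    rw [hψ.mul, hh.add, Cnt_sg_add]
    ring

private theorem Cnt_fin {G ι X : Type} [Group G] [TopologicalSpace G] [AddCommGroup X]
    [Fintype ι] [DecidableEq ι] {A : Fam G ι X} (hA : A.Good) (e : Option ι → ℕ) :
    (A.D e : Set X).Finite := by
  have key : ∀ s : Finset (Option ι), ((s.sup fun w => A.𝔇 w (e w) : AddSubgroup X) :
      Set X).Finite := by
    intro s
    induction s using Finset.induction_on with
    | empty =>
      rw [Finset.sup_empty]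
      exact Set.finite_singleton 0
    | insert w s hw ih =>
      rw [Finset.sup_insert]
      have h1 := hA.fin w (e w)
      refine (h1.add ih).subset ?_
      intro x hx
      obtain ⟨y, hy, z, hz, rfl⟩ := AddSubgroup.mem_sup.1 hx
      exact Set.add_mem_add hy hz
  have := key Finset.univ
  rw [Finset.sup_univ_eq_iSup] at this
  exact this

private theorem Cnt_orth (N : ℕ) [NeZero N] {ι : Type} [Fintype ι] [DecidableEq ι]
    (T : ι → ZMod N) :
    ∑ η : ι → ZMod N, ZMod.stdAddChar (∑ v, η v * T v) =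
      if ∀ v, T v = 0 then ((N : ℂ)) ^ Fintype.card ι else 0 := by
  have h1 : ∀ η : ι → ZMod N, ZMod.stdAddChar (∑ v, η v * T v) =
      ∏ v, ZMod.stdAddChar (η v * T v) := by
    intro η
    have key : ∀ s : Finset ι, ZMod.stdAddChar (∑ v ∈ s, η v * T v) =
        ∏ v ∈ s, ZMod.stdAddChar (η v * T v) := by
      intro s
      induction s using Finset.induction_on with
      | empty => simp
      | insert v s hv ih =>
        rw [Finset.sum_insert hv, Finset.prod_insert hv, AddChar.map_add_eq_mul, ih]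
    exact key _
  simp only [h1]
  have h2 := Finset.prod_univ_sum (fun _ : ι => (Finset.univ : Finset (ZMod N)))
    (fun v x => (ZMod.stdAddChar (x * T v) : ℂ))
  rw [Fintype.piFinset_univ] at h2
  rw [← h2]
  have h3 : ∀ v, ∑ x : ZMod N, (ZMod.stdAddChar (x * T v) : ℂ) =
      if T v = 0 then (N : ℂ) else 0 := by
    intro v
    rw [AddChar.sum_mulShift _ (ZMod.isPrimitive_stdAddChar N)]
    split_ifs
    · rw [ZMod.card]
    · simp
  simp only [h3]
  split_ifs with h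
  · rw [Finset.prod_congr rfl fun v _ => if_pos (h v), Finset.prod_const, Finset.card_univ]
  · push Not at h
    obtain ⟨v, hv⟩ := h
    exact Finset.prod_eq_zero (Finset.mem_univ v) (if_neg hv)

private theorem Cnt_two (n : ℕ) (hn : 1 ≤ n) :
    (Finset.univ.filter fun x : ZMod (2 ^ n) => 2 * x = 0).card ≤ 2 := by
  have hsub : (Finset.univ.filter fun x : ZMod (2 ^ n) => 2 * x = 0) ⊆
      {0, ((2 ^ (n - 1) : ℕ) : ZMod (2 ^ n))} := by
    intro x hx
    rw [Finset.mem_filter] at hx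
    have hx2 := hx.2
    obtain ⟨m, rfl⟩ : ∃ m, n = m + 1 := ⟨n - 1, by omega⟩
    have h1 : ((2 * x.val : ℕ) : ZMod (2 ^ (m + 1))) = 0 := by
      push_cast
      rw [ZMod.natCast_zmod_val]
      exact hx2
    rw [ZMod.natCast_eq_zero_iff] at h1
    have h2 : 2 ^ m ∣ x.val := by
      generalize x.val = y at h1
      rw [pow_succ, mul_comm] at h1
      exact Nat.dvd_of_mul_dvd_mul_left (by norm_num) h1
    obtain ⟨k, hk⟩ := h2
    have h3 := ZMod.val_lt x
    have h4 : k < 2 := by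
      by_contra hge
      push Not at hge
      have : 2 ^ (m + 1) ≤ x.val := by
        rw [hk, pow_succ]
        exact Nat.mul_le_mul_left _ hge
      omega
    rw [Finset.mem_insert, Finset.mem_singleton]
    have hx3 : x = ((x.val : ℕ) : ZMod (2 ^ (m + 1))) := (ZMod.natCast_zmod_val x).symm
    interval_cases k
    · left
      rw [hx3, hk]
      simp
    · right
      rw [hx3, hk]
      simp
  exact (Finset.card_le_card hsub).trans Finset.card_le_two

private theorem Cnt_pi (n : ℕ) (hn : 1 ≤ n) (ι : Type) [Fintype ι] [DecidableEq ι] :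
    (Finset.univ.filter fun η : ι → ZMod (2 ^ n) => ∀ v, 2 * η v = 0).card ≤
      2 ^ Fintype.card ι := by
  have h1 : (Finset.univ.filter fun η : ι → ZMod (2 ^ n) => ∀ v, 2 * η v = 0) =
      Fintype.piFinset fun _ : ι => Finset.univ.filter fun x : ZMod (2 ^ n) => 2 * x = 0 := by
    ext η
    simp [Fintype.mem_piFinset]
  rw [h1, Fintype.card_piFinset, Finset.prod_const, Finset.card_univ]
  exact Nat.pow_le_pow_left (Cnt_two n hn) _

theorem tCnt (_hLin : S_Lin) (hEqN : S_EqN) : S_Cnt := by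
  intro G _ _ _ ι _ _ X _ A hA n hn ψ hψ ε hε
  classical
  set s : ℕ := Fintype.card ι with hs
  obtain ⟨N, hN⟩ : ∃ N : ℕ, N = 2 ^ n := ⟨_, rfl⟩
  set ε' : ℝ := ε / (N : ℝ) ^ (s + 1) with hε'
  have hNpos : (0 : ℝ) < (N : ℝ) := by
    rw [hN]
    positivity
  have hε'pos : 0 < ε' := by positivity
  -- the bound for each pair
  have key : ∀ (a : Option ι → ZMod (2 ^ n)) (η : ι → ZMod (2 ^ n)), ∃ e₀ : ℕ,
      (∃ w w' b, a w - a w' = 2 * b + 1) → (∃ v, 2 * η v ≠ 0) →
      ∀ e : Option ι → ℕ, (∀ w, e₀ ≤ e w) →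
        ‖∑ᶠ D ∈ (A.D e : Set X),
          ZMod.stdAddChar (∑ v, η v * Tv A.W A.φ (tw ψ (A.h D)) a v)‖ ≤
          ε' * Nat.card (A.D e) := by
    intro a η
    by_cases ha : ∃ w w' b, a w - a w' = 2 * b + 1
    · by_cases hη : ∃ v, 2 * η v ≠ 0
      · obtain ⟨e₀, he₀⟩ := hEqN G ι X A hA n ψ hψ a ha η hη ε' hε'pos
        exact ⟨e₀, fun _ _ => he₀⟩
      · exact ⟨0, fun _ h => absurd h hη⟩
    · exact ⟨0, fun h => absurd h ha⟩
  choose E₀ hE₀ using key
  refine ⟨Finset.univ.sup fun p : (Option ι → ZMod (2 ^ n)) × (ι → ZMod (2 ^ n)) =>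
    E₀ p.1 p.2, ?_⟩
  intro e he
  have hfin := Cnt_fin hA e
  set 𝒟 : Finset X := hfin.toFinset with h𝒟
  have hcard : (Nat.card (A.D e) : ℝ) = 𝒟.card := by
    have : Nat.card (A.D e) = (A.D e : Set X).ncard := Nat.card_coe_set_eq _
    rw [this, Set.ncard_eq_toFinset_card _ hfin]
  -- non-constant solutions
  let NC : Finset (Option ι → ZMod (2 ^ n)) := Finset.univ.filter fun a =>
    ∃ w w' b, a w - a w' = 2 * b + 1
  let T : X → (Option ι → ZMod (2 ^ n)) → ι → ZMod (2 ^ n) := fun D a v =>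
    Tv A.W A.φ (tw ψ (A.h D)) a v
  have hcnt : ∀ D : X, ({a : Option ι → ZMod (2 ^ n) | (∃ w w' b, a w - a w' = 2 * b + 1) ∧
      ∀ v, Tv A.W A.φ (tw ψ (A.h D)) a v = 0}.ncard : ℝ) =
      ∑ a ∈ NC, if ∀ v, T D a v = 0 then (1 : ℝ) else 0 := by
    intro D
    rw [← Finset.sum_filter, Finset.sum_const, nsmul_eq_mul, mul_one]
    congr 1
    rw [Set.ncard_eq_toFinset_card']
    congr 1
    ext a
    simp only [Set.mem_toFinset, Set.mem_ofPred_eq, Finset.mem_filter, Finset.mem_univ, true_and,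
      NC, T]
  rw [finsum_mem_eq_finite_toFinset_sum _ hfin, hcard]
  simp only [hcnt]
  -- the double sum
  have horth : ∀ D a, (if ∀ v, T D a v = 0 then (1 : ℂ) else 0) * (N : ℂ) ^ s =
      ∑ η : ι → ZMod (2 ^ n), ZMod.stdAddChar (∑ v, η v * T D a v) := by
    intro D a
    rw [Cnt_orth (2 ^ n) (T D a)]
    split_ifs
    · rw [one_mul, hN]
    · rw [zero_mul]
  have hsum : ((∑ D ∈ 𝒟, ∑ a ∈ NC, if ∀ v, T D a v = 0 then (1 : ℝ) else 0 : ℝ) : ℂ) *
      (N : ℂ) ^ s = ∑ a ∈ NC, ∑ η : ι → ZMod (2 ^ n), ∑ D ∈ 𝒟,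
        ZMod.stdAddChar (∑ v, η v * T D a v) := by
    push_cast
    rw [Finset.sum_mul]
    have : ∀ D ∈ 𝒟, (∑ a ∈ NC, (((if ∀ v, T D a v = 0 then (1 : ℝ) else 0 : ℝ)) : ℂ)) *
        (N : ℂ) ^ s = ∑ a ∈ NC, ∑ η : ι → ZMod (2 ^ n),
          ZMod.stdAddChar (∑ v, η v * T D a v) := by
      intro D _
      rw [Finset.sum_mul]
      refine Finset.sum_congr rfl fun a _ => ?_
      rw [← horth]
      congr 1
      split_ifs <;> simp
    rw [Finset.sum_congr rfl this, Finset.sum_comm]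
    refine Finset.sum_congr rfl fun a _ => ?_
    rw [Finset.sum_comm]
  have hbd : ∀ a ∈ NC, ∀ η : ι → ZMod (2 ^ n),
      ‖∑ D ∈ 𝒟, ZMod.stdAddChar (∑ v, η v * T D a v)‖ ≤
        (if ∀ v, 2 * η v = 0 then (𝒟.card : ℝ) else 0) + ε' * 𝒟.card := by
    intro a ha η
    by_cases hη : ∀ v, 2 * η v = 0
    · rw [if_pos hη]
      have h1 : ‖∑ D ∈ 𝒟, ZMod.stdAddChar (∑ v, η v * T D a v)‖ ≤ (𝒟.card : ℝ) := by
        refine (norm_sum_le _ _).trans ?_
        rw [Finset.sum_congr rfl fun D _ => AddChar.norm_apply _ _, Finset.sum_const,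
          nsmul_eq_mul, mul_one]
      have h2 : 0 ≤ ε' * (𝒟.card : ℝ) := by positivity
      linarith
    · rw [if_neg hη, zero_add]
      push Not at hη
      have hle : ∀ w, E₀ a η ≤ e w := fun w =>
        (Finset.le_sup (f := fun p : (Option ι → ZMod (2 ^ n)) × (ι → ZMod (2 ^ n)) =>
          E₀ p.1 p.2) (Finset.mem_univ (a, η))).trans (he w)
      have h := hE₀ a η (Finset.mem_filter.1 ha).2 hη e hle
      rw [finsum_mem_eq_finite_toFinset_sum _ hfin, hcard] at h
      exact h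
  set S : ℝ := ∑ D ∈ 𝒟, ∑ a ∈ NC, if ∀ v, T D a v = 0 then (1 : ℝ) else 0 with hS
  have hS0 : 0 ≤ S := by
    refine Finset.sum_nonneg fun D _ => Finset.sum_nonneg fun a _ => ?_
    split_ifs <;> norm_num
  have hSN : S * (N : ℝ) ^ s ≤ (NC.card : ℝ) * ((2 : ℝ) ^ s * 𝒟.card +
      (N : ℝ) ^ s * (ε' * 𝒟.card)) := by
    have h1 : S * (N : ℝ) ^ s = ‖(S : ℂ) * (N : ℂ) ^ s‖ := by
      rw [norm_mul, norm_pow, Complex.norm_real, Complex.norm_natCast, Real.norm_eq_abs,
        abs_of_nonneg hS0]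
    rw [h1, hsum]
    refine (norm_sum_le _ _).trans ?_
    rw [← nsmul_eq_mul, ← Finset.sum_const]
    refine Finset.sum_le_sum fun a ha => ?_
    refine (norm_sum_le _ _).trans ?_
    refine (Finset.sum_le_sum fun η _ => hbd a ha η).trans ?_
    rw [Finset.sum_add_distrib, Finset.sum_const, nsmul_eq_mul, ← Finset.sum_filter,
      Finset.sum_const, nsmul_eq_mul]
    have h2 : ((Finset.univ : Finset (ι → ZMod (2 ^ n))).card : ℝ) = (N : ℝ) ^ s := by
      rw [Finset.card_univ, Fintype.card_fun, ZMod.card, hN]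
      push_cast
      rfl
    have h3 : ((Finset.univ.filter fun η : ι → ZMod (2 ^ n) => ∀ v, 2 * η v = 0).card : ℝ) ≤
        (2 : ℝ) ^ s := by
      exact_mod_cast Cnt_pi n hn ι
    rw [h2]
    have h4 : (0 : ℝ) ≤ 𝒟.card := Nat.cast_nonneg _
    exact add_le_add (mul_le_mul_of_nonneg_right h3 h4) le_rfl
  have hNC : (NC.card : ℝ) ≤ (N : ℝ) ^ (s + 1) := by
    have h1 : NC.card ≤ Fintype.card (Option ι → ZMod (2 ^ n)) := Finset.card_le_univ _
    rw [Fintype.card_fun, ZMod.card, Fintype.card_option] at h1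
    have h2 : NC.card ≤ N ^ (s + 1) := h1.trans_eq (by rw [hN, hs])
    exact_mod_cast h2
  have hfinal : S * (N : ℝ) ^ s ≤ ((2 ^ (s + n) + ε) * 𝒟.card) * (N : ℝ) ^ s := by
    refine hSN.trans ?_
    have h4 : (0 : ℝ) ≤ 𝒟.card := Nat.cast_nonneg _
    have h5 : 0 ≤ (2 : ℝ) ^ s * 𝒟.card + (N : ℝ) ^ s * (ε' * 𝒟.card) := by positivity
    refine (mul_le_mul_of_nonneg_right hNC h5).trans (le_of_eq ?_)
    have h6 : (2 : ℝ) ^ (s + n) = 2 ^ s * N := by
      rw [pow_add, hN]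
      push_cast
      rfl
    have h7 : (N : ℝ) ^ (s + 1) * ε' = ε := by
      rw [hε']
      field_simp
    rw [h6]
    calc (N : ℝ) ^ (s + 1) * (2 ^ s * 𝒟.card + (N : ℝ) ^ s * (ε' * 𝒟.card))
        = (N : ℝ) ^ (s + 1) * 2 ^ s * 𝒟.card +
          ((N : ℝ) ^ (s + 1) * ε') * 𝒟.card * (N : ℝ) ^ s := by ring
      _ = _ := by
        rw [h7, pow_succ]
        ring
  exact le_of_mul_le_mul_right hfinal (by positivity)

end Pool.Agent.MP72W
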