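import Mathlib

/-!
# MP_72e2e6_nt, theorem T3, part A (abstract part): definitions

`G` is a compact (profinite) group, `S = Option ι` a finite set (`none` is the place at infinity),
`W w` subgroups of `G`, `φ w` elements of `G` (`w ∈ S`). All functions on groups are locally
constant. `Hom2` are the homomorphisms to `ZMod 2`, `Coc ρ` the crossed homomorphisms for operators
`ρ g`.
-/

namespace Pool.Agent.MP72W

open Finset

/-- Locally constant homomorphisms to `ZMod 2`. -/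
structure Hom2 {G : Type*} [Group G] [TopologicalSpace G] (h : G → ZMod 2) : Prop where
  loc : IsLocallyConstant h
  add : ∀ a b, h (a * b) = h a + h b

/-- Locally constant crossed homomorphisms for the operators `ρ g : M → M`. -/
structure Coc {G M : Type*} [Group G] [TopologicalSpace G] [AddCommGroup M] (ρ : G → M → M)
    (Z : G → M) : Prop where
  loc : IsLocallyConstant Z
  mul : ∀ g h, Z (g * h) = Z g + ρ g (Z h)

/-- A locally constant action by additive maps such that every element acts with an order which is a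
power of two. -/
structure Act2 {G M : Type*} [Group G] [TopologicalSpace G] [AddCommGroup M] (ρ : G → M → M) :
    Prop where
  add : ∀ g x y, ρ g (x + y) = ρ g x + ρ g y
  one : ∀ x, ρ 1 x = x
  mul : ∀ g h x, ρ (g * h) x = ρ g (ρ h x)
  loc : ∀ x, IsLocallyConstant fun g => ρ g x
  two : ∀ g, ∃ k : ℕ, ∀ x, ρ (g ^ 2 ^ k) x = x

/-- Locally constant characters with values in `ZMod (2 ^ n)`. -/
structure Chr {G : Type*} [Group G] [TopologicalSpace G] {n : ℕ} (ψ : G → ZMod (2 ^ n)) : Prop where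
  loc : IsLocallyConstant ψ
  one : ψ 1 = 1
  mul : ∀ a b, ψ (a * b) = ψ a * ψ b

/-- Unique existence of homomorphisms with given restrictions to the `W w` and given value at
`φ₀`. -/
def UEx {G S : Type*} [Group G] [TopologicalSpace G] (W : S → Subgroup G) (φ₀ : G) : Prop :=
  ∀ h : ∀ w, W w → ZMod 2, (∀ w, Hom2 (h w)) → ∀ c : ZMod 2,
    ∃! H : G → ZMod 2, Hom2 H ∧ (∀ w (g : W w), H g = h w g) ∧ H φ₀ = c

/-- `H²(G, ZMod 2) = 0` (locally constant cochains). -/
def H2Z (G : Type*) [Group G] [TopologicalSpace G] : Prop :=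
  ∀ c : G → G → ZMod 2, IsLocallyConstant (fun p : G × G => c p.1 p.2) →
    (∀ a b d, c b d + c (a * b) d + c a (b * d) + c a b = 0) →
      ∃ b : G → ZMod 2, IsLocallyConstant b ∧ ∀ g h, c g h = b g + b h + b (g * h)

/-- The sign `(-1) ^ x` in `ZMod (2 ^ n)`. -/
def sg (n : ℕ) (x : ZMod 2) : ZMod (2 ^ n) := if x = 0 then 1 else -1

/-- The twist of a character by a homomorphism to `ZMod 2`. -/
def tw {G : Type*} {n : ℕ} (ψ : G → ZMod (2 ^ n)) (h : G → ZMod 2) : G → ZMod (2 ^ n) :=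
  fun g => ψ g * sg n (h g)

section Z

variable {G ι : Type*} [Group G] [TopologicalSpace G] {n : ℕ}

/-- `Z` is the crossed homomorphism for `χ` which is `a w * (1 - χ)` on `W w` for all `w` and at
`φ none`. -/
structure IsZ (W : Option ι → Subgroup G) (φ : Option ι → G) (χ : G → ZMod (2 ^ n))
    (a : Option ι → ZMod (2 ^ n)) (Z : G → ZMod (2 ^ n)) : Prop where
  coc : Coc (fun g x => χ g * x) Z
  res : ∀ w, ∀ g ∈ W w, Z g = a w * (1 - χ g)
  inf : Z (φ none) = a none * (1 - χ (φ none))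

open Classical in
/-- The crossed homomorphism of `IsZ`. -/
noncomputable def Zf (W : Option ι → Subgroup G) (φ : Option ι → G) (χ : G → ZMod (2 ^ n))
    (a : Option ι → ZMod (2 ^ n)) : G → ZMod (2 ^ n) :=
  if h : ∃ Z, IsZ W φ χ a Z then h.choose else 0

/-- The defect `T_v` at `φ v`. -/
noncomputable def Tv (W : Option ι → Subgroup G) (φ : Option ι → G) (χ : G → ZMod (2 ^ n))
    (a : Option ι → ZMod (2 ^ n)) (v : ι) : ZMod (2 ^ n) :=
  Zf W φ χ a (φ (some v)) - a (some v) * (1 - χ (φ (some v)))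

/-- The number of the solutions. -/
noncomputable def XX (W : Option ι → Subgroup G) (φ : Option ι → G) (χ : G → ZMod (2 ^ n)) : ℕ :=
  {a : Option ι → ZMod (2 ^ n) | ∀ v, Tv W φ χ a v = 0}.ncard

end Z

/-- The data: subgroups `W w`, elements `φ w`, homomorphisms `h x`, `x ∈ X`, and finite subgroups
`𝔇 w e` of `X`. -/
structure Fam (G ι X : Type*) [Group G] [TopologicalSpace G] [AddCommGroup X] where
  W : Option ι → Subgroup G
  φ : Option ι → G
  h : X → G → ZMod 2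
  𝔇 : Option ι → ℕ → AddSubgroup X

/-- The axioms. -/
structure Fam.Good {G ι X : Type*} [Group G] [TopologicalSpace G] [AddCommGroup X] [DecidableEq ι]
    (A : Fam G ι X) : Prop where
  hom : ∀ x, Hom2 (A.h x)
  add : ∀ x y g, A.h (x + y) g = A.h x g + A.h y g
  uex : UEx A.W (A.φ none)
  h2 : H2Z G
  fin : ∀ w e, (A.𝔇 w e : Set X).Finite
  mono : ∀ w, Monotone (A.𝔇 w)
  off : ∀ w e, ∀ x ∈ A.𝔇 w e, ∀ w', w' ≠ w → ∀ g ∈ A.W w', A.h x g = 0
  phi : ∀ w e, ∀ x ∈ A.𝔇 w e, A.h x (A.φ w) = 0 ∧ A.h x (A.φ none) = 0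
  inj : ∀ e, ∀ x ∈ A.𝔇 none e, (∀ g, A.h x g = 0) → x = 0
  big : ∀ B : ℕ, ∃ e, B ≤ Nat.card (A.𝔇 none e)
  ax1 : ∀ (v₀ : ι) (w : Option ι), w ≠ some v₀ → ∃ e, ∃ δ ∈ A.𝔇 w e,
    ∀ v : ι, A.h δ (A.φ (some v)) = if v = v₀ then 1 else 0
  axm : ∀ (m : ℕ), 1 ≤ m → ∀ δ : Fin m → X, (∃ e, ∀ j, δ j ∈ A.𝔇 none e) →
    (∀ j v, A.h (δ j) (A.φ v) = 0) →
    (∀ c : Fin m → ZMod 2, (∀ g, ∑ j, c j * A.h (δ j) g = 0) → c = 0) →
    ∀ w₁ v₀ : ι, ∃ e, ∃ δ₁ ∈ A.𝔇 (some w₁) e, ∃ ζ : G → (Fin m → ZMod 2) → ZMod 2,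
      IsLocallyConstant ζ ∧
      (∀ g g' τ, ζ (g * g') τ = ζ g τ + ζ g' (fun j => τ j + A.h (δ j) g)) ∧
      (∀ w, w ≠ some w₁ → ∀ g ∈ A.W w, ∀ τ, ζ g τ = 0) ∧
      (∀ g ∈ A.W (some w₁), ∀ τ, ζ g τ = if τ = 0 then A.h δ₁ g else 0) ∧
      (∀ τ, ζ (A.φ none) τ = 0) ∧
      ∀ v : ι, ζ (A.φ (some v)) (fun _ => 1) = if v = v₀ then 1 else 0

/-- The family of the twists. -/
def Fam.D {G ι X : Type*} [Group G] [TopologicalSpace G] [AddCommGroup X] (A : Fam G ι X)
    (e : Option ι → ℕ) : AddSubgroup X := ⨆ w, A.𝔇 w (e w)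

end Pool.Agent.MP72W
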