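import Pool.Agent.Lib.MP_72e2e6_nt.W2.A.Spec

/-!
# MP_72e2e6_nt, theorem T3, part A: elementary properties of `Zf` and `Tv`
-/

set_option autoImplicit false

namespace Pool.Agent.MP72W

open Finset

section

variable {G : Type} [Group G] [TopologicalSpace G] {n : ℕ}

private theorem Lin_chr_pow {χ : G → ZMod (2 ^ n)} (hχ : Chr χ) (g : G) (j : ℕ) :
    χ (g ^ j) = χ g ^ j := by
  induction j with
  | zero => rw [pow_zero, pow_zero, hχ.one]
  | succ j ih => rw [pow_succ, pow_succ, hχ.mul, ih]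

private theorem Lin_tot : Nat.totient (2 ^ n) ∣ 2 ^ n := by
  cases n with
  | zero => simp
  | succ n =>
    rw [Nat.totient_prime_pow_succ Nat.prime_two]
    simpa using pow_dvd_pow 2 (Nat.le_succ n)

private theorem Lin_pow_one {χ : G → ZMod (2 ^ n)} (hχ : Chr χ) (g : G) : χ g ^ 2 ^ n = 1 := by
  have h1 : χ g * χ g⁻¹ = 1 := by rw [← hχ.mul, mul_inv_cancel, hχ.one]
  have h2 : χ g⁻¹ * χ g = 1 := by rw [← hχ.mul, inv_mul_cancel, hχ.one]
  let u : (ZMod (2 ^ n))ˣ := ⟨χ g, χ g⁻¹, h1, h2⟩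
  have h3 : u ^ Nat.totient (2 ^ n) = 1 := ZMod.pow_totient u
  obtain ⟨c, hc⟩ := Lin_tot (n := n)
  have h6 : ∀ N : ℕ, N = (2 ^ n).totient * c → u ^ N = 1 := by
    rintro N rfl
    rw [pow_mul, h3, one_pow]
  have h4 : u ^ 2 ^ n = 1 := h6 _ hc
  have h5 := congrArg Units.val h4
  rw [Units.val_pow_eq_pow_val, Units.val_one] at h5
  exact h5

private theorem Lin_act {χ : G → ZMod (2 ^ n)} (hχ : Chr χ) :
    Act2 (fun (g : G) (x : ZMod (2 ^ n)) => χ g * x) where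
  add g x y := mul_add _ _ _
  one x := by rw [hχ.one, one_mul]
  mul g h x := by rw [hχ.mul, mul_assoc]
  loc x := hχ.loc.comp (fun y => y * x)
  two g := ⟨n, fun x => by
    show χ (g ^ 2 ^ n) * x = x
    rw [Lin_chr_pow hχ, Lin_pow_one hχ, one_mul]⟩

private theorem Lin_cob {χ : G → ZMod (2 ^ n)} (hχ : Chr χ) (c : ZMod (2 ^ n)) :
    Coc (fun (g : G) (x : ZMod (2 ^ n)) => χ g * x) (fun g => c * (1 - χ g)) where
  loc := hχ.loc.comp (fun y => c * (1 - y))
  mul g h := by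
    show c * (1 - χ (g * h)) = c * (1 - χ g) + χ g * (c * (1 - χ h))
    rw [hχ.mul]
    ring

variable {ι : Type} {W : Option ι → Subgroup G} {φ : Option ι → G}

private theorem Lin_core [IsTopologicalGroup G] (hU : S_Uni) (hE : UEx W (φ none)) (h2 : H2Z G)
    {χ : G → ZMod (2 ^ n)} (hχ : Chr χ) :
    (∀ a, IsZ W φ χ a (Zf W φ χ a)) ∧ (∀ a Z, IsZ W φ χ a Z → Z = Zf W φ χ a) := by
  have key : ∀ a : Option ι → ZMod (2 ^ n), ∃! Z, IsZ W φ χ a Z := by
    intro a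
    haveI : NeZero (2 ^ n) := ⟨by positivity⟩
    obtain ⟨Z, ⟨h3, h4, h5⟩, h6⟩ := hU G (Option ι) W (φ none) hE h2 (ZMod (2 ^ n)) n
      (Nat.card_zmod _) (fun g x => χ g * x) (Lin_act hχ)
      (fun w g => a w * (1 - χ g)) (fun w => ⟨(Lin_cob hχ (a w)).loc.comp_continuous
        continuous_subtype_val, fun g h => (Lin_cob hχ (a w)).mul g h⟩)
      (a none * (1 - χ (φ none)))
    refine ⟨Z, ⟨h3, fun w g hg => h4 w ⟨g, hg⟩, h5⟩, ?_⟩
    intro Z' hZ'
    exact h6 Z' ⟨hZ'.coc, fun w g => hZ'.res w g g.2, hZ'.inf⟩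
  have k1 : ∀ a, IsZ W φ χ a (Zf W φ χ a) := by
    intro a
    have h : ∃ Z, IsZ W φ χ a Z := (key a).exists
    unfold Zf
    rw [dif_pos h]
    exact h.choose_spec
  exact ⟨k1, fun a Z hZ => (key a).unique hZ (k1 a)⟩

private theorem Lin_add {χ : G → ZMod (2 ^ n)} {a b : Option ι → ZMod (2 ^ n)}
    {Z Y : G → ZMod (2 ^ n)} (hZ : IsZ W φ χ a Z) (hY : IsZ W φ χ b Y) :
    IsZ W φ χ (a + b) (fun g => Z g + Y g) where
  coc := ⟨(hZ.coc.loc.prodMk hY.coc.loc).comp (fun p => p.1 + p.2), fun g h => by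
    show Z (g * h) + Y (g * h) = Z g + Y g + χ g * (Z h + Y h)
    rw [hZ.coc.mul, hY.coc.mul]
    ring⟩
  res w g hg := by
    rw [hZ.res w g hg, hY.res w g hg, Pi.add_apply]
    ring
  inf := by
    rw [hZ.inf, hY.inf, Pi.add_apply]
    ring

private theorem Lin_smul {χ : G → ZMod (2 ^ n)} {a : Option ι → ZMod (2 ^ n)}
    {Z : G → ZMod (2 ^ n)} (hZ : IsZ W φ χ a Z) (c : ZMod (2 ^ n)) :
    IsZ W φ χ (fun w => c * a w) (fun g => c * Z g) where
  coc := ⟨hZ.coc.loc.comp (fun p => c * p), fun g h => by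
    show c * Z (g * h) = c * Z g + χ g * (c * Z h)
    rw [hZ.coc.mul]
    ring⟩
  res w g hg := by
    rw [hZ.res w g hg]
    ring
  inf := by
    rw [hZ.inf]
    ring

private theorem Lin_const {χ : G → ZMod (2 ^ n)} (hχ : Chr χ) (c : ZMod (2 ^ n)) :
    IsZ W φ χ (fun _ => c) (fun g => c * (1 - χ g)) where
  coc := Lin_cob hχ c
  res _ _ _ := rfl
  inf := rfl

private theorem Lin_chr_cast {χ : G → ZMod (2 ^ n)} (hχ : Chr χ) {n' : ℕ}
    (f : ZMod (2 ^ n) →+* ZMod (2 ^ n')) : Chr (fun g => f (χ g)) where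
  loc := hχ.loc.comp f
  one := by rw [hχ.one, map_one]
  mul a b := by rw [hχ.mul, map_mul]

private theorem Lin_cast {χ : G → ZMod (2 ^ n)} {a : Option ι → ZMod (2 ^ n)}
    {Z : G → ZMod (2 ^ n)} (hZ : IsZ W φ χ a Z) {n' : ℕ} (f : ZMod (2 ^ n) →+* ZMod (2 ^ n')) :
    IsZ W φ (fun g => f (χ g)) (fun w => f (a w)) (fun g => f (Z g)) where
  coc := ⟨hZ.coc.loc.comp f, fun g h => by
    show f (Z (g * h)) = f (Z g) + f (χ g) * f (Z h)
    rw [hZ.coc.mul, map_add, map_mul]⟩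
  res w g hg := by
    show f (Z g) = f (a w) * (1 - f (χ g))
    rw [hZ.res w g hg, map_mul, map_sub, map_one]
  inf := by
    show f (Z (φ none)) = f (a none) * (1 - f (χ (φ none)))
    rw [hZ.inf, map_mul, map_sub, map_one]

end

/-- `cast y = 0` means `y` is divisible by `2 ^ m` -/
private theorem Lin_cast_zero {n m : ℕ} (h : m ≤ n) (y : ZMod (2 ^ n))
    (hy : ZMod.castHom (pow_dvd_pow 2 h) (ZMod (2 ^ m)) y = 0) :
    ∃ b : ZMod (2 ^ n), y = 2 ^ m * b := by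
  haveI : NeZero (2 ^ n) := ⟨by positivity⟩
  have h1 : y = ((y.val : ℕ) : ZMod (2 ^ n)) := (ZMod.natCast_zmod_val y).symm
  rw [h1, map_natCast, ZMod.natCast_eq_zero_iff] at hy
  obtain ⟨k, hk⟩ := hy
  refine ⟨(k : ZMod (2 ^ n)), ?_⟩
  rw [h1, hk]
  push_cast
  ring

private theorem Lin_two_eq {m : ℕ} {y y' : ZMod (2 ^ (m + 1))}
    (h : ZMod.castHom (pow_dvd_pow 2 (Nat.le_succ m)) (ZMod (2 ^ m)) y
      = ZMod.castHom (pow_dvd_pow 2 (Nat.le_succ m)) (ZMod (2 ^ m)) y') : 2 * y = 2 * y' := by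
  have h1 : ZMod.castHom (pow_dvd_pow 2 (Nat.le_succ m)) (ZMod (2 ^ m)) (y - y') = 0 := by
    rw [map_sub, h, sub_self]
  obtain ⟨b, hb⟩ := Lin_cast_zero (Nat.le_succ m) _ h1
  have h2 : y = y' + 2 ^ m * b := by rw [← hb]; ring
  have h3 : ((2 : ZMod (2 ^ (m + 1))) ^ (m + 1)) = 0 := by
    have := ZMod.natCast_self (2 ^ (m + 1))
    push_cast at this
    exact this
  rw [h2]
  calc 2 * (y' + 2 ^ m * b) = 2 * y' + 2 ^ (m + 1) * b := by ring
    _ = 2 * y' := by rw [h3]; ring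

private theorem Lin_two_zero {m : ℕ} {y : ZMod (2 ^ (m + 1))} (h : 2 * y = 0) :
    ZMod.castHom (pow_dvd_pow 2 (Nat.le_succ m)) (ZMod (2 ^ m)) y = 0 := by
  haveI : NeZero (2 ^ (m + 1)) := ⟨by positivity⟩
  have h1 : y = ((y.val : ℕ) : ZMod (2 ^ (m + 1))) := (ZMod.natCast_zmod_val y).symm
  rw [h1] at h ⊢
  have h2 : ((2 * y.val : ℕ) : ZMod (2 ^ (m + 1))) = 0 := by
    push_cast
    exact h
  rw [ZMod.natCast_eq_zero_iff] at h2
  have h3 : ∀ v : ℕ, 2 ^ (m + 1) ∣ 2 * v → 2 ^ m ∣ v := by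
    intro v hv
    rwa [pow_succ', Nat.mul_dvd_mul_iff_left two_pos] at hv
  rw [map_natCast, ZMod.natCast_eq_zero_iff]
  exact h3 _ h2

theorem tLin (hU : S_Uni) : S_Lin := by
  intro G _ _ _ ι W φ hE h2 n χ hχ
  obtain ⟨c1, c2⟩ := Lin_core hU hE h2 hχ
  have c6 : ∀ (n' : ℕ) (h : n' ≤ n) (a : Option ι → ZMod (2 ^ n)) (v : ι),
        Tv W φ (fun g => ZMod.castHom (pow_dvd_pow 2 h) (ZMod (2 ^ n')) (χ g))
          (fun w => ZMod.castHom (pow_dvd_pow 2 h) (ZMod (2 ^ n')) (a w)) v =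
          ZMod.castHom (pow_dvd_pow 2 h) (ZMod (2 ^ n')) (Tv W φ χ a v) := by
    intro n' h a v
    obtain ⟨_, d2⟩ := Lin_core hU hE h2
      (Lin_chr_cast hχ (ZMod.castHom (pow_dvd_pow 2 h) (ZMod (2 ^ n'))))
    have h3 := d2 _ _ (Lin_cast (c1 a) (ZMod.castHom (pow_dvd_pow 2 h) (ZMod (2 ^ n'))))
    unfold Tv
    rw [← h3, map_sub, map_mul, map_sub, map_one]
  refine ⟨c1, c2, ?_, ?_, ?_, c6, ?_, ?_⟩
  · intro a b v
    unfold Tv
    rw [← c2 _ _ (Lin_add (c1 a) (c1 b)), Pi.add_apply]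
    ring
  · intro c a v
    unfold Tv
    rw [← c2 _ _ (Lin_smul (c1 a) c)]
    ring
  · intro c v
    unfold Tv
    rw [← c2 _ _ (Lin_const hχ c), sub_self]
  · intro a v
    rcases Nat.eq_zero_or_pos n with h0 | h0
    · subst h0
      haveI : Subsingleton (ZMod (2 ^ 0)) := by
        rw [pow_zero]
        infer_instance
      exact ⟨0, Subsingleton.elim _ _⟩
    · have h3 := c6 1 h0 a v
      have hone : ∀ g, ZMod.castHom (pow_dvd_pow 2 h0) (ZMod (2 ^ 1)) (χ g) = 1 := by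
        intro g
        have h4 : χ g * χ g⁻¹ = 1 := by rw [← hχ.mul, mul_inv_cancel, hχ.one]
        have h5 := congrArg (ZMod.castHom (pow_dvd_pow 2 h0) (ZMod (2 ^ 1))) h4
        rw [map_mul, map_one] at h5
        have h6 : ∀ x y : ZMod (2 ^ 1), x * y = 1 → x = 1 := by decide
        exact h6 _ _ h5
      obtain ⟨_, d2⟩ := Lin_core hU hE h2
        (Lin_chr_cast hχ (ZMod.castHom (pow_dvd_pow 2 h0) (ZMod (2 ^ 1))))
      have h7 : IsZ W φ (fun g => ZMod.castHom (pow_dvd_pow 2 h0) (ZMod (2 ^ 1)) (χ g))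
          (fun w => ZMod.castHom (pow_dvd_pow 2 h0) (ZMod (2 ^ 1)) (a w)) (fun _ => 0) := by
        refine ⟨⟨IsLocallyConstant.const _, fun g h => by simp⟩, fun w g _ => ?_, ?_⟩
        · show (0 : ZMod (2 ^ 1)) = _ * (1 - ZMod.castHom (pow_dvd_pow 2 h0) (ZMod (2 ^ 1)) (χ g))
          rw [hone, sub_self, mul_zero]
        · show (0 : ZMod (2 ^ 1))
            = _ * (1 - ZMod.castHom (pow_dvd_pow 2 h0) (ZMod (2 ^ 1)) (χ (φ none)))
          rw [hone, sub_self, mul_zero]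
      have h8 := d2 _ _ h7
      have h9 : ZMod.castHom (pow_dvd_pow 2 h0) (ZMod (2 ^ 1)) (Tv W φ χ a v) = 0 := by
        rw [← h3]
        unfold Tv
        rw [← h8]
        show (0 : ZMod (2 ^ 1)) - ZMod.castHom (pow_dvd_pow 2 h0) (ZMod (2 ^ 1)) (a (some v))
          * (1 - ZMod.castHom (pow_dvd_pow 2 h0) (ZMod (2 ^ 1)) (χ (φ (some v)))) = 0
        rw [hone, sub_self, mul_zero, sub_zero]
      obtain ⟨b, hb⟩ := Lin_cast_zero h0 _ h9
      exact ⟨b, by rw [hb, pow_one]⟩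
  · intro m h a
    subst h
    set f := ZMod.castHom (pow_dvd_pow 2 (Nat.le_succ m)) (ZMod (2 ^ m)) with hf
    have hfs : Function.Surjective f := ZMod.castHom_surjective _
    -- the doubling map
    let d : ZMod (2 ^ m) → ZMod (2 ^ (m + 1)) := fun x => 2 * (hfs x).choose
    have hd : ∀ y, d (f y) = 2 * y := fun y => Lin_two_eq (hfs (f y)).choose_spec
    obtain ⟨d1, _⟩ := Lin_core hU hE h2 (Lin_chr_cast hχ f)
    have hZ := d1 (fun w => f (a w))
    have hdadd : ∀ x y, d (x + y) = d x + d y := by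
      intro x y
      obtain ⟨x', rfl⟩ := hfs x
      obtain ⟨y', rfl⟩ := hfs y
      rw [← map_add, hd, hd, hd, mul_add]
    have hdmul : ∀ c x, d (f c * x) = c * d x := by
      intro c x
      obtain ⟨x', rfl⟩ := hfs x
      rw [← map_mul, hd, hd]
      ring
    have h3 : IsZ W φ χ (fun w => 2 * a w)
        (fun g => d (Zf W φ (fun g => f (χ g)) (fun w => f (a w)) g)) := by
      refine ⟨⟨hZ.coc.loc.comp d, fun g h => ?_⟩, fun w g hg => ?_, ?_⟩
      · rw [hZ.coc.mul, hdadd]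
        show _ + d (f (χ g) * _) = _
        rw [hdmul]
      · rw [hZ.res w g hg]
        show d (f (a w) * (1 - f (χ g))) = 2 * a w * (1 - χ g)
        rw [← map_one f, ← map_sub, ← map_mul, hd]
        ring
      · rw [hZ.inf]
        show d (f (a none) * (1 - f (χ (φ none)))) = 2 * a none * (1 - χ (φ none))
        rw [← map_one f, ← map_sub, ← map_mul, hd]
        ring
    have h4 := c2 _ _ h3
    have h5 : ∀ v, Tv W φ χ (fun w => 2 * a w) v
        = d (Tv W φ (fun g => f (χ g)) (fun w => f (a w)) v) := by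
      intro v
      have h6 : Tv W φ χ (fun w => 2 * a w) v
          = d (Zf W φ (fun g => f (χ g)) (fun w => f (a w)) (φ (some v)))
            - 2 * a (some v) * (1 - χ (φ (some v))) := by
        unfold Tv
        rw [← h4]
      have h7 : Zf W φ (fun g => f (χ g)) (fun w => f (a w)) (φ (some v))
          = Tv W φ (fun g => f (χ g)) (fun w => f (a w)) v
            + f (a (some v) * (1 - χ (φ (some v)))) := by
        unfold Tv
        rw [map_mul, map_sub, map_one]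
        ring
      rw [h6, h7, hdadd, hd]
      ring
    have hd0 : ∀ x, d x = 0 ↔ x = 0 := by
      intro x
      obtain ⟨x', rfl⟩ := hfs x
      rw [hd]
      constructor
      · intro h
        exact Lin_two_zero h
      · intro h
        have h8 : f x' = f 0 := by rw [h, map_zero]
        rw [Lin_two_eq h8, mul_zero]
    constructor
    · intro h v
      have h9 := h v
      rw [h5, hd0] at h9
      exact h9
    · intro h v
      rw [h5, hd0]
      exact h v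

end Pool.Agent.MP72W
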